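import Pool.Agent.Work.MP_f63b47_lc.GD.Defs

/-!
# GD/ADel (size M): the reduced graph as a list

Let `K ≥ card Y`. `ys` = the numbers of the elements of `Y`, filled up with `0` to length `K`; `Y'` = the set of the vertices with number in `ys` (contains `Y`). The pairs `(u, v)` with `u ∈ Y'`, `C.Adj u v`: there are `2 card Y' ≤ 2 K` of
them; `s₁`, `s₂` = the lists of the first and of the second entries of a list of length `2 K` that consists of these pairs and of repetitions of one edge of `C` (there is one: `n > 0`, `Two C`).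
Then `zip s₁ s₂` is this list, all its elements are edges of `C`, and every edge of `C` that meets `Y'` is in it, in one of the two orders; so
`graphOf n (delE E ys (zip s₁ s₂)) = Del (graphOf n E) C Y'`: `u`, `v` different, `(u, v)` or `(v, u)` in `E`, and (`C.Adj u v` and one of them in `Y'`, or another edge of `C`) or none in `Y'`.
(If `K = 0`: `Y' = ∅`, all lists empty.)
-/

set_option autoImplicit false

namespace Pool.Agent.Work.MP_f63b47_lc.GD

open SimpleGraph Pool.Agent.Work.PolyTime Pool.Agent.Work.MP_f63b47_lc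

private theorem mem_delE {E : List (ℕ × ℕ)} {ys : List ℕ} {S : List (ℕ × ℕ)} {e : ℕ × ℕ} :
    e ∈ delE E ys S ↔ e ∈ E ∧ ((e ∈ S ∨ (e.2, e.1) ∈ S) ∨ (e.1 ∉ ys ∧ e.2 ∉ ys)) := by
  unfold delE
  rw [List.mem_filter]
  have h1 : ∀ (x : ℕ) (l : List ℕ), ((!memB x l) = true) ↔ x ∉ l := by
    intro x l
    rw [Bool.not_eq_true', ← Bool.not_eq_true, memB_iff]
  rw [Bool.or_eq_true, Bool.or_eq_true, Bool.and_eq_true, memB_iff, memB_iff, h1, h1]

private theorem adj_graphOf {n : ℕ} {E : List (ℕ × ℕ)} {u v : Fin n} :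
    (graphOf n E).Adj u v ↔ u ≠ v ∧ (((u : ℕ), (v : ℕ)) ∈ E ∨ ((v : ℕ), (u : ℕ)) ∈ E) := by
  unfold graphOf
  rw [SimpleGraph.fromRel_adj]

private theorem len2 (f g : ℕ → ℕ) (l : List ℕ) :
    (l.flatMap fun y => [f y, g y]).length = 2 * l.length := by
  induction l with
  | nil => rfl
  | cons a l ih =>
    rw [List.flatMap_cons, List.length_append, ih, List.length_cons]
    simp only [List.length_cons, List.length_nil]
    ring

private theorem zip2 (f g : ℕ → ℕ) (l : List ℕ) :
    (l.flatMap fun y => [y, y]).zip (l.flatMap fun y => [f y, g y]) =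
      l.flatMap fun y => [(y, f y), (y, g y)] := by
  induction l with
  | nil => rfl
  | cons a l ih =>
    rw [List.flatMap_cons, List.flatMap_cons, List.flatMap_cons, ← ih]
    rfl

theorem delE_spec {n K : ℕ} (hn : 0 < n) {E : List (ℕ × ℕ)} {C : SimpleGraph (Fin n)}
    (hC : C ≤ graphOf n E) (h2 : Two C) (Y : Finset (Fin n)) (hY : Y.card ≤ K) :
    ∃ (ys s₁ s₂ : List ℕ) (Y' : Set (Fin n)), ys.length = K ∧ (∀ x ∈ ys, x < n) ∧
      s₁.length = 2 * K ∧ (∀ x ∈ s₁, x < n) ∧ s₂.length = 2 * K ∧ (∀ x ∈ s₂, x < n) ∧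
      (Y : Set (Fin n)) ⊆ Y' ∧
      graphOf n (delE E ys (s₁.zip s₂)) = Del (graphOf n E) C Y' := by
  have hab : ∀ v : Fin n, ∃ a b : Fin n, a ≠ b ∧ C.neighborSet v = {a, b} := fun v =>
    Set.ncard_eq_two.1 (h2 v)
  choose a b _ hN using hab
  have hadj : ∀ v w : Fin n, C.Adj v w ↔ (w = a v ∨ w = b v) := by
    intro v w
    rw [← SimpleGraph.mem_neighborSet, hN v]
    simp only [Set.mem_insert_iff, Set.mem_singleton_iff]
  set ys : List ℕ := Y.toList.map (fun v : Fin n => (v : ℕ)) ++ List.replicate (K - Y.card) 0 with hys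
  set f : ℕ → ℕ := fun y => if h : y < n then (a ⟨y, h⟩ : ℕ) else 0 with hf
  set g : ℕ → ℕ := fun y => if h : y < n then (b ⟨y, h⟩ : ℕ) else 0 with hg
  have hfn : ∀ y, f y < n := by
    intro y
    simp only [hf]
    split_ifs
    · exact Fin.isLt _
    · exact hn
  have hgn : ∀ y, g y < n := by
    intro y
    simp only [hg]
    split_ifs
    · exact Fin.isLt _
    · exact hn
  have hfa : ∀ v : Fin n, f v = a v := by
    intro v
    simp only [hf]
    rw [dif_pos v.2]
  have hgb : ∀ v : Fin n, g v = b v := by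
    intro v
    simp only [hg]
    rw [dif_pos v.2]
  have hysl : ys.length = K := by
    rw [hys, List.length_append, List.length_map, Finset.length_toList, List.length_replicate]
    omega
  have hysn : ∀ x ∈ ys, x < n := by
    intro x hx
    rw [hys, List.mem_append] at hx
    rcases hx with hx | hx
    · obtain ⟨v, -, rfl⟩ := List.mem_map.1 hx
      exact v.2
    · rw [List.eq_of_mem_replicate hx]
      exact hn
  have hS : ∀ u v : Fin n, ((u : ℕ), (v : ℕ)) ∈ (ys.flatMap fun y => [(y, f y), (y, g y)]) ↔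
      (u : ℕ) ∈ ys ∧ C.Adj u v := by
    intro u v
    rw [List.mem_flatMap, hadj]
    constructor
    · rintro ⟨y, hy, h⟩
      simp only [List.mem_cons, List.not_mem_nil, or_false, Prod.mk.injEq] at h
      rcases h with ⟨rfl, h⟩ | ⟨rfl, h⟩
      · rw [hfa] at h
        exact ⟨hy, Or.inl (Fin.ext h)⟩
      · rw [hgb] at h
        exact ⟨hy, Or.inr (Fin.ext h)⟩
    · rintro ⟨hy, h⟩
      refine ⟨u, hy, ?_⟩
      simp only [List.mem_cons, List.not_mem_nil, or_false, Prod.mk.injEq, true_and]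
      rcases h with h | h
      · left
        rw [hfa, h]
      · right
        rw [hgb, h]
  refine ⟨ys, ys.flatMap fun y => [y, y], ys.flatMap fun y => [f y, g y], {v | (v : ℕ) ∈ ys},
    hysl, hysn, ?_, ?_, ?_, ?_, ?_, ?_⟩
  · rw [len2 (fun y => y) (fun y => y), hysl]
  · intro x hx
    obtain ⟨y, hy, h⟩ := List.mem_flatMap.1 hx
    simp only [List.mem_cons, List.not_mem_nil, or_false, or_self] at h
    rw [h]
    exact hysn y hy
  · rw [len2 f g, hysl]
  · intro x hx
    obtain ⟨y, hy, h⟩ := List.mem_flatMap.1 hx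
    simp only [List.mem_cons, List.not_mem_nil, or_false] at h
    rcases h with h | h
    · rw [h]
      exact hfn y
    · rw [h]
      exact hgn y
  · intro v hv
    change (v : ℕ) ∈ ys
    rw [hys, List.mem_append]
    left
    exact List.mem_map.2 ⟨v, Finset.mem_toList.2 hv, rfl⟩
  · rw [zip2]
    ext u v
    rw [adj_graphOf, mem_delE, mem_delE]
    change _ ↔ (graphOf n E).Adj u v ∧ (C.Adj u v ∨ ((u : ℕ) ∉ ys ∧ (v : ℕ) ∉ ys))
    rw [adj_graphOf]
    simp only [hS]
    have hsym : C.Adj v u ↔ C.Adj u v := ⟨fun h => h.symm, fun h => h.symm⟩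
    rw [hsym]
    tauto

theorem delE_le {n : ℕ} {E : List (ℕ × ℕ)} (ys : List ℕ) (S : List (ℕ × ℕ)) :
    graphOf n (delE E ys S) ≤ graphOf n E := by
  intro u v h
  rw [adj_graphOf, mem_delE, mem_delE] at h
  rw [adj_graphOf]
  exact ⟨h.1, h.2.imp (fun h => h.1) fun h => h.1⟩

end Pool.Agent.Work.MP_f63b47_lc.GD
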