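import Pool.Agent.Work.MP_f63b47_lc.GD.Defs
import Pool.Agent.Work.MP_f63b47_lc.Mem

/-!
# GD/AEnum (size M): enumeration in polynomial time

`bruteE` and `enumE` are definitions (do not change them). `allLists`, `ptime_allLists` are in the file `FreeTest`, `hamB`, `PTime.hamB`, `hamB_iff` in the file `Mem`. `ptime_brute`: induction on `N`.
`brute_iff`: `hamB_iff` and `hasHamCycle_graphOf` (file `Ham`); the list of a Hamiltonian cycle has length `n ≤ N` and is in `allLists n n`. `ptime_enum`: `PTime.any` three times (the lists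
`allLists K x.1`), then `PTime.comp` with `t`, `delE` by `PTime.filter`, `PTime.memB`, `PTime.zip`. `enum_iff`: `List.any_eq_true`, `mem_allLists`.
-/

set_option autoImplicit false

namespace Pool.Agent.Work.MP_f63b47_lc.GD

open SimpleGraph Pool.Agent.Work.PolyTime Pool.Agent.Work.MP_f63b47_lc

/-- Brute force for graphs with at most `N` vertices. -/
def bruteE : ℕ → ℕ → List (ℕ × ℕ) → Bool
  | 0, n, E => (allLists 0 n).any fun l => hamB n E l
  | N + 1, n, E => bruteE N n E || (allLists (N + 1) n).any fun l => hamB n E l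

/-- All reduced graphs are tested. -/
def enumE (t : ℕ × List (ℕ × ℕ) → Bool) (K n : ℕ) (E : List (ℕ × ℕ)) : Bool :=
  (allLists K n).any fun ys => (allLists (2 * K) n).any fun s₁ =>
    (allLists (2 * K) n).any fun s₂ => t (n, delE E ys (s₁.zip s₂))

theorem ptime_brute (N : ℕ) : PTime (fun x : ℕ × List (ℕ × ℕ) => bruteE N x.1 x.2) := by
  have key : ∀ m, PTime (fun x : ℕ × List (ℕ × ℕ) =>
      (allLists m x.1).any fun l => hamB x.1 x.2 l) := by
    intro m
    refine PTime.any (l := fun x : ℕ × List (ℕ × ℕ) => allLists m x.1)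
      (p := fun x l => hamB x.1 x.2 l) ((ptime_allLists m).comp PTime.fst) ?_
    exact PTime.hamB (n := fun z : (ℕ × List (ℕ × ℕ)) × List ℕ => z.1.1)
      (E := fun z => z.1.2) (l := fun z => z.2) (by fun_prop) (by fun_prop) (by fun_prop)
  induction N with
  | zero => exact key 0
  | succ N ih => exact PTime.or ih (key (N + 1))

theorem brute_sound {N n : ℕ} {E : List (ℕ × ℕ)} (h : bruteE N n E = true) :
    HasHamCycle (graphOf n E) := by
  have key : ∀ m, ((allLists m n).any fun l => hamB n E l) = true →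
      HasHamCycle (graphOf n E) := by
    intro m hm
    obtain ⟨l, -, hl⟩ := List.any_eq_true.mp hm
    exact hasHamCycle_graphOf.mpr ⟨l, hamB_iff.mp hl⟩
  induction N with
  | zero => exact key 0 h
  | succ N ih =>
    unfold bruteE at h
    rw [Bool.or_eq_true] at h
    rcases h with h | h
    · exact ih h
    · exact key _ h

theorem brute_complete {N n : ℕ} {E : List (ℕ × ℕ)} (hn : n ≤ N) (h : HasHamCycle (graphOf n E)) :
    bruteE N n E = true := by
  have key : ((allLists n n).any fun l => hamB n E l) = true := by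
    obtain ⟨l, hl⟩ := hasHamCycle_graphOf.mp h
    refine List.any_eq_true.mpr ⟨l, ?_, hamB_iff.mpr hl⟩
    exact mem_allLists.mpr ⟨hl.1, hl.2.2.2.1⟩
  induction N with
  | zero =>
    obtain rfl : n = 0 := by omega
    exact key
  | succ N ih =>
    unfold bruteE
    rw [Bool.or_eq_true]
    by_cases h1 : n ≤ N
    · exact Or.inl (ih h1)
    · obtain rfl : n = N + 1 := by omega
      exact Or.inr key

theorem ptime_enum {t : ℕ × List (ℕ × ℕ) → Bool} (ht : PTime t) (K : ℕ) :
    PTime (fun x : ℕ × List (ℕ × ℕ) => enumE t K x.1 x.2) := by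
  unfold enumE
  have hdel : PTime (fun z : (((ℕ × List (ℕ × ℕ)) × List ℕ) × List ℕ) × List ℕ =>
      delE z.1.1.1.2 z.1.1.2 (z.1.2.zip z.2)) := by
    unfold delE
    refine PTime.filter
      (l := fun z : (((ℕ × List (ℕ × ℕ)) × List ℕ) × List ℕ) × List ℕ => z.1.1.1.2)
      (p := fun z e => (PolyTime.memB e (z.1.2.zip z.2) || PolyTime.memB (e.2, e.1) (z.1.2.zip z.2)) ||
        (!PolyTime.memB e.1 z.1.1.2 && !PolyTime.memB e.2 z.1.1.2)) (by fun_prop) ?_
    have hz : PTime (fun x : ((((ℕ × List (ℕ × ℕ)) × List ℕ) × List ℕ) × List ℕ) × (ℕ × ℕ) =>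
        x.1.1.2.zip x.1.2) := PTime.zip (by fun_prop) (by fun_prop)
    exact PTime.or (PTime.or (PTime.memB (by fun_prop) hz) (PTime.memB (by fun_prop) hz))
      (PTime.and (PTime.not (PTime.memB (by fun_prop) (by fun_prop)))
        (PTime.not (PTime.memB (by fun_prop) (by fun_prop))))
  have h3 : PTime (fun y : ((ℕ × List (ℕ × ℕ)) × List ℕ) × List ℕ =>
      (allLists (2 * K) y.1.1.1).any fun s₂ =>
        t (y.1.1.1, delE y.1.1.2 y.1.2 (y.2.zip s₂))) := by
    refine PTime.any (l := fun y : ((ℕ × List (ℕ × ℕ)) × List ℕ) × List ℕ =>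
      allLists (2 * K) y.1.1.1) (p := fun y s₂ => t (y.1.1.1, delE y.1.1.2 y.1.2 (y.2.zip s₂)))
      ((ptime_allLists (2 * K)).comp (f := fun y : ((ℕ × List (ℕ × ℕ)) × List ℕ) × List ℕ =>
        y.1.1.1) (by fun_prop)) ?_
    exact ht.comp (PTime.prodMk (by fun_prop) hdel)
  have h2 : PTime (fun y : (ℕ × List (ℕ × ℕ)) × List ℕ =>
      (allLists (2 * K) y.1.1).any fun s₁ => (allLists (2 * K) y.1.1).any fun s₂ =>
        t (y.1.1, delE y.1.2 y.2 (s₁.zip s₂))) := by
    exact PTime.any (l := fun y : (ℕ × List (ℕ × ℕ)) × List ℕ => allLists (2 * K) y.1.1)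
      (p := fun y s₁ => (allLists (2 * K) y.1.1).any fun s₂ =>
        t (y.1.1, delE y.1.2 y.2 (s₁.zip s₂)))
      ((ptime_allLists (2 * K)).comp (f := fun y : (ℕ × List (ℕ × ℕ)) × List ℕ => y.1.1)
        (by fun_prop)) h3
  exact PTime.any (l := fun y : ℕ × List (ℕ × ℕ) => allLists K y.1)
    (p := fun y ys => (allLists (2 * K) y.1).any fun s₁ => (allLists (2 * K) y.1).any fun s₂ =>
      t (y.1, delE y.2 ys (s₁.zip s₂)))
    ((ptime_allLists K).comp PTime.fst) h2

theorem enum_iff {t : ℕ × List (ℕ × ℕ) → Bool} {K n : ℕ} {E : List (ℕ × ℕ)} :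
    enumE t K n E = true ↔ ∃ ys s₁ s₂ : List ℕ, (ys.length = K ∧ ∀ x ∈ ys, x < n) ∧
      (s₁.length = 2 * K ∧ ∀ x ∈ s₁, x < n) ∧ (s₂.length = 2 * K ∧ ∀ x ∈ s₂, x < n) ∧
      t (n, delE E ys (s₁.zip s₂)) = true := by
  unfold enumE
  constructor
  · intro h
    obtain ⟨ys, h1, h⟩ := List.any_eq_true.mp h
    obtain ⟨s₁, h2, h⟩ := List.any_eq_true.mp h
    obtain ⟨s₂, h3, h⟩ := List.any_eq_true.mp h
    exact ⟨ys, s₁, s₂, mem_allLists.mp h1, mem_allLists.mp h2, mem_allLists.mp h3, h⟩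
  · rintro ⟨ys, s₁, s₂, h1, h2, h3, h⟩
    refine List.any_eq_true.mpr ⟨ys, mem_allLists.mpr h1, ?_⟩
    refine List.any_eq_true.mpr ⟨s₁, mem_allLists.mpr h2, ?_⟩
    exact List.any_eq_true.mpr ⟨s₂, mem_allLists.mpr h3, h⟩

end Pool.Agent.Work.MP_f63b47_lc.GD
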