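import Pool.Agent.Work.MP_f63b47_lc.GD.GDefs

/-!
# GD/CompF (size S-M): components

`comp_self`: `R` = the graph with no vertices (`Equiv.sumEmpty`). `comp_of`: `Iso.sumComm`. `comp_trans`: `F ≃ R ⊕ F'`, `R ≃ F'' ⊕ R'` give `F ≃ F'' ⊕ (R' ⊕ F')` (`Iso.sumAssoc`, `Iso.sumCongr`), and `R' ⊕ F'` is isomorphic to a
graph on `Fin (R'.1 + F'.1)` (`finSumFinEquiv`). `comp_le`: `Embedding.sumInl`.
-/

set_option autoImplicit false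

namespace Pool.Agent.Work.MP_f63b47_lc.GD

open SimpleGraph Pool.Agent.Work.MP_f63b47_lc

theorem comp_self {F : FG} (h : F.2.Connected) : Comp F F := by
  refine ⟨h, ⟨0, ⊥⟩, ⟨⟨(Equiv.sumEmpty (Fin F.1) (Fin 0)).symm, ?_⟩⟩⟩
  intro a b
  simp

theorem comp_of {F R F' : FG} (hc : F'.2.Connected) (h : Nonempty (F.2 ≃g R.2 ⊕g F'.2)) :
    Comp F F' := by
  obtain ⟨e⟩ := h
  exact ⟨hc, R, ⟨e.trans Iso.sumComm⟩⟩

theorem comp_trans {F R F' F'' : FG} (h : Nonempty (F.2 ≃g R.2 ⊕g F'.2)) (h' : Comp R F'') :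
    Comp F F'' := by
  obtain ⟨e⟩ := h
  obtain ⟨hc, R', ⟨e'⟩⟩ := h'
  refine ⟨hc, ⟨R'.1 + F'.1, (R'.2 ⊕g F'.2).map finSumFinEquiv.toEmbedding⟩, ⟨?_⟩⟩
  refine e.trans ((Iso.sumCongr e' (RelIso.refl _)).trans (Iso.sumAssoc.trans
    (Iso.sumCongr (RelIso.refl _) ?_)))
  exact Iso.map finSumFinEquiv (R'.2 ⊕g F'.2)

theorem comp_le {F F' : FG} (h : Comp F F') : F'.2 ⊑ F.2 := by
  obtain ⟨-, R, ⟨e⟩⟩ := h
  exact ⟨SimpleGraph.Embedding.toCopy (RelEmbedding.trans Embedding.sumInl e.symm.toEmbedding)⟩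

end Pool.Agent.Work.MP_f63b47_lc.GD
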