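import Pool.Agent.Work.MP_f63b47_lc.GD.FreeL

/-!
# GD/Mono (size S-M): monotonicity

`inP_mono`: `inP_hc` with the conjunction of the test of `free_test L'` and the test of `test_of_inP L`. `hard_mono`: `reducible_of_test` with the test of `free_test L'`, and transitivity of
`PolyReducible` (look for it in `PolyTime/ETR` or `Comp`; composition of polynomial-time functions by `polyTimeComputable_iff_PTime`).
-/

set_option autoImplicit false

namespace Pool.Agent.Work.MP_f63b47_lc.GD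

open SimpleGraph Pool.Agent.Work.PolyTime Pool.Agent.Work.MP_f63b47_lc

theorem inP_mono (L L' : List FG)
    (h : ∀ (n : ℕ) (G : SimpleGraph (Fin n)), (∀ F ∈ L', F.2.Free G) → ∀ F ∈ L, F.2.Free G)
    (h1 : InP (HC L)) : InP (HC L') := by
  obtain ⟨t, ht, h2⟩ := test_of_inP L h1
  obtain ⟨s, hs, h3⟩ := free_test L'
  refine inP_hc L' (fun x => s x && t x) (PTime.and hs ht) (fun n E => ?_)
  rw [Bool.and_eq_true, h2, h3]
  exact ⟨fun h4 => ⟨h4.1, h4.2.2⟩, fun h4 => ⟨h4.1, h n _ h4.1, h4.2⟩⟩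

theorem hard_mono (L L' : List FG)
    (h : ∀ (n : ℕ) (G : SimpleGraph (Fin n)), (∀ F ∈ L', F.2.Free G) → ∀ F ∈ L, F.2.Free G)
    (h1 : NPHard (HC L')) : NPHard (HC L) := by
  obtain ⟨s, hs, h3⟩ := free_test L'
  have h2 : PolyReducible (HC L') (HC L) := by
    refine reducible_of_test L L' s hs (fun n E => ?_)
    rw [h3]
    exact ⟨fun h4 => ⟨h4.1, h n _ h4.1, h4.2⟩, fun h4 => ⟨h4.1, h4.2.2⟩⟩
  exact fun A hA => PolyReducible.trans (h1 A hA) h2

end Pool.Agent.Work.MP_f63b47_lc.GD
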