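import Pool.Agent.Work.MP_f63b47_lc.GD.GDefs

/-!
# GD/Split (size M-L): splitting off a component

Let `v` be a vertex, `S` the support of its connected component. `F.2` is isomorphic to the disjoint sum of the induced subgraphs on the complement of `S` and on `S` (no edges between them:
an edge from a reachable vertex leads to a reachable vertex; `Equiv.sumCompl` or by hand), each isomorphic to a graph on `Fin` of its cardinality (`Fintype.equivFin`, `SimpleGraph.overFin`,
`Iso.sumCongr`, `Iso.sumComm`). The induced subgraph on `S` is connected. `S` is nonempty, so the complement has fewer vertices than `F`; it is nonempty as `F` is not connected.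
-/

set_option autoImplicit false

namespace Pool.Agent.Work.MP_f63b47_lc.GD

open SimpleGraph Pool.Agent.Work.MP_f63b47_lc

private def isoSum {n : ℕ} (G : SimpleGraph (Fin n)) (S : Set (Fin n)) [DecidablePred (· ∈ S)]
    (hS : ∀ u v, G.Adj u v → (u ∈ S ↔ v ∈ S)) :
    (G.induce S) ⊕g (G.induce (Sᶜ : Set (Fin n))) ≃g G where
  toEquiv := Equiv.Set.sumCompl S
  map_rel_iff' {x y} := by
    rcases x with x | x <;> rcases y with y | y
    · simp
    · simp only [Equiv.Set.sumCompl_apply_inl, Equiv.Set.sumCompl_apply_inr, SimpleGraph.sum_adj]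
      refine ⟨fun h => ?_, fun h => ?_⟩
      · exact absurd ((hS _ _ h).1 x.2) y.2
      · exact absurd h (by simp)
    · simp only [Equiv.Set.sumCompl_apply_inl, Equiv.Set.sumCompl_apply_inr, SimpleGraph.sum_adj]
      refine ⟨fun h => ?_, fun h => ?_⟩
      · exact absurd ((hS _ _ h).2 y.2) x.2
      · exact absurd h (by simp)
    · simp

theorem split_comp (F : FG) (h0 : 0 < F.1) (h : ¬ F.2.Connected) :
    ∃ F' R : FG, F'.2.Connected ∧ Nonempty (F.2 ≃g R.2 ⊕g F'.2) ∧ R.1 < F.1 ∧ 0 < R.1 := by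
  classical
  obtain ⟨n, G⟩ := F
  change 0 < n at h0
  change ¬ G.Connected at h
  obtain ⟨c, hc⟩ : ∃ c, c = G.connectedComponentMk ⟨0, h0⟩ := ⟨_, rfl⟩
  obtain ⟨S, hSdef⟩ : ∃ S : Set (Fin n), S = c.supp := ⟨_, rfl⟩
  have hS : ∀ u v, G.Adj u v → (u ∈ S ↔ v ∈ S) := by
    intro u v huv
    rw [hSdef]
    exact c.mem_supp_congr_adj huv
  have h0S : (⟨0, h0⟩ : Fin n) ∈ S := by
    rw [hSdef, hc]
    rfl
  have hconn : (G.induce S).Connected := by
    rw [hSdef]
    exact c.connected_toSimpleGraph
  refine ⟨⟨Fintype.card S, (G.induce S).overFin rfl⟩,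
    ⟨Fintype.card (Sᶜ : Set (Fin n)), (G.induce (Sᶜ : Set (Fin n))).overFin rfl⟩, ?_, ?_, ?_, ?_⟩
  · exact ((G.induce S).overFinIso rfl).connected_iff.1 hconn
  · exact ⟨(isoSum G S hS).symm.trans ((SimpleGraph.Iso.sumComm).trans
      (SimpleGraph.Iso.sumCongr ((G.induce (Sᶜ : Set (Fin n))).overFinIso rfl)
        ((G.induce S).overFinIso rfl)))⟩
  · show Fintype.card (Sᶜ : Set (Fin n)) < n
    have h1 : Fintype.card {x : Fin n // x ∈ (Sᶜ : Set (Fin n))} < Fintype.card (Fin n) :=
      Fintype.card_subtype_lt (x := ⟨0, h0⟩) (by simpa using h0S)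
    rw [Fintype.card_fin] at h1
    exact h1
  · show 0 < Fintype.card (Sᶜ : Set (Fin n))
    rw [Fintype.card_pos_iff]
    by_contra hne
    apply h
    have hall : ∀ u, u ∈ S := by
      intro u
      by_contra hu
      exact hne ⟨⟨u, hu⟩⟩
    rw [SimpleGraph.connected_iff]
    refine ⟨fun u v => ?_, ⟨⟨0, h0⟩⟩⟩
    have hu := hall u
    have hv := hall v
    rw [hSdef, SimpleGraph.ConnectedComponent.mem_supp_iff] at hu hv
    exact SimpleGraph.ConnectedComponent.exact (hu.trans hv.symm)

end Pool.Agent.Work.MP_f63b47_lc.GD
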