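import Pool.Agent.Work.MP_f63b47_lc.GD.AStep
import Pool.Agent.Work.MP_f63b47_lc.GD.Mono
import Pool.Agent.Work.MP_f63b47_lc.GD.Split
import Pool.Agent.Work.MP_f63b47_lc.GD.CompF

/-!
# GD/AInd (size M): reduction to connected graphs

* `one_member`: strong induction on `F.1`. If `F.1 = 0`: the empty graph is contained in every graph, so `HC (F :: L) = ∅`, in P (`inP_hc` with the test `false`). If `F.2` is connected: `comp_self`. Otherwise `split_comp`
  gives `F'`, `R`; the components of `R` are components of `F` (`comp_trans`), so by induction `InP (HC (R :: L))`, and `F'` is a component of `F` (`comp_of`); `comp_step` with `F₁ = R`, `F₂ = F'`.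
* `all_members`: induction on `L` for all `M`. `L = []`: clear (`List.Forall₂.nil`). `L = F :: L₀`: by `one_member` (for the list `L₀ ++ M`) it suffices that `InP (HC (F' :: (L₀ ++ M)))` for the
  components `F'` of `F`; `HC` depends only on the members (`inP_mono`), so this is `InP (HC (L₀ ++ (F' :: M)))`: induction; `List.Forall₂.cons`.
* `reduction`: `all_members` with `M = []`; conversely, and for the last statement, `inP_mono` and `hard_mono`: if no member of `L'` is contained in `G` then no member of `L` is (`comp_le`).
-/

set_option autoImplicit false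

namespace Pool.Agent.Work.MP_f63b47_lc.GD

open SimpleGraph Pool.Agent.Work.PolyTime Pool.Agent.Work.MP_f63b47_lc

private theorem inP_empty {L : List FG} {F : FG} (hF : F.1 = 0) : InP (HC (F :: L)) := by
  refine inP_hc _ (fun _ => false) (PTime.const _) ?_
  intro n E
  constructor
  · intro h
    cases h
  · rintro ⟨h, -⟩
    exfalso
    haveI : IsEmpty (Fin F.1) := by
      rw [hF]
      infer_instance
    exact h F List.mem_cons_self IsContained.of_isEmpty

theorem one_member (L : List FG) (F : FG) (h : ∀ F', Comp F F' → InP (HC (F' :: L))) :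
    InP (HC (F :: L)) := by
  obtain ⟨n, hn⟩ : ∃ n, F.1 = n := ⟨_, rfl⟩
  induction n using Nat.strong_induction_on generalizing F with
  | _ n ih =>
    rcases Nat.eq_zero_or_pos F.1 with h0 | h0
    · exact inP_empty h0
    · by_cases hc : F.2.Connected
      · exact h F (comp_self hc)
      · obtain ⟨F', R, hF', hiso, hlt, -⟩ := split_comp F h0 hc
        refine comp_step L F R F' hiso hF' ?_ (h F' (comp_of hF' hiso))
        exact ih R.1 (by omega) R (fun F'' hF'' => h F'' (comp_trans hiso hF'')) rfl

private theorem inP_perm {L M : List FG} (h : ∀ F, F ∈ L ↔ F ∈ M) (hL : InP (HC L)) :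
    InP (HC M) :=
  inP_mono L M (fun _ _ hM F hF => hM F ((h F).mp hF)) hL

theorem all_members (L M : List FG) (h : ∀ L', List.Forall₂ Comp L L' → InP (HC (L' ++ M))) :
    InP (HC (L ++ M)) := by
  induction L generalizing M with
  | nil => exact h [] List.Forall₂.nil
  | cons F L ih =>
    refine one_member (L ++ M) F fun F' hF' => ?_
    have h1 : InP (HC (L ++ (F' :: M))) := by
      refine ih (F' :: M) fun L' hL' => ?_
      refine inP_perm ?_ (h (F' :: L') (List.Forall₂.cons hF' hL'))
      intro G
      simp only [List.cons_append, List.mem_cons, List.mem_append]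
      tauto
    refine inP_perm ?_ h1
    intro G
    simp only [List.mem_cons, List.mem_append]
    tauto

private theorem free_of_comps {L L' : List FG} (h : List.Forall₂ Comp L L') {n : ℕ}
    {G : SimpleGraph (Fin n)} (hG : ∀ F ∈ L', F.2.Free G) : ∀ F ∈ L, F.2.Free G := by
  induction h with
  | nil => exact fun F hF => absurd hF List.not_mem_nil
  | cons hc _ ih =>
    intro F hF
    rcases List.mem_cons.mp hF with rfl | hF
    · exact fun hcon => hG _ List.mem_cons_self ((comp_le hc).trans hcon)
    · exact ih (fun F' hF' => hG F' (List.mem_cons_of_mem _ hF')) F hF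

theorem reduction (L : List FG) :
    (InP (HC L) ↔ ∀ L', List.Forall₂ Comp L L' → InP (HC L')) ∧
    ((∃ L', List.Forall₂ Comp L L' ∧ NPComplete (HC L')) → NPComplete (HC L)) := by
  refine ⟨⟨fun h L' hL' => inP_mono L L' (fun _ _ hG => free_of_comps hL' hG) h, fun h => ?_⟩, ?_⟩
  · have := all_members L [] (fun L' hL' => by
      rw [List.append_nil]
      exact h L' hL')
    rwa [List.append_nil] at this
  · rintro ⟨L', hL', -, hh⟩
    exact ⟨inNP_hc L, hard_mono L L' (fun _ _ hG => free_of_comps hL' hG) hh⟩

end Pool.Agent.Work.MP_f63b47_lc.GD
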