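import Pool.Agent.Work.MP_f63b47_lc.GD.GDefs
import Pool.Agent.Work.MP_f63b47_lc.Ham

/-!
# GD/CycE (size M-L): a connected 2-regular graph is a cycle

`hasHamCycle_iff` (file `Ham`): `C` has a Hamiltonian cycle `p : C.Walk a a`; its length is `N = card V ≥ 3`. Let `e i = p.getVert i.val` for `i : ZMod N`. Injective (`IsCycle`: the vertices
`getVert 0, …, getVert (N - 1)` are different), so bijective. `C.Adj (e i) (e (i + 1))` (`adj_getVert_succ`, and `getVert N = a = getVert 0`). Conversely `e (i + 1) ≠ e (i - 1)` (`N ≥ 3`) are two neighbours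
of `e i`, so they are all (`Two C`): if `C.Adj (e i) (e j)` then `j = i + 1` or `j = i - 1`.
-/

set_option autoImplicit false

namespace Pool.Agent.Work.MP_f63b47_lc.GD

open SimpleGraph Pool.Agent.Work.MP_f63b47_lc

theorem cyc_equiv {V : Type} [Fintype V] [DecidableEq V] [Nonempty V] {C : SimpleGraph V}
    (h2 : Two C) (hc : C.Preconnected) : 3 ≤ Fintype.card V ∧
    ∃ e : ZMod (Fintype.card V) ≃ V, ∀ i j, C.Adj (e i) (e j) ↔ j = i + 1 ∨ i = j + 1 := by
  obtain ⟨a, p, hp⟩ := (hasHamCycle_iff C).2 ⟨C, le_rfl, h2, hc⟩
  have hlen : p.length = Fintype.card V := hp.length_eq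
  have h3 : 3 ≤ Fintype.card V := by
    rw [← hlen]
    exact hp.isCycle.three_le_length
  refine ⟨h3, ?_⟩
  generalize hN : Fintype.card V = N at hlen h3 ⊢
  haveI : NeZero N := ⟨by omega⟩
  haveI : Fact (1 < N) := ⟨by omega⟩
  have hval : ∀ i : ZMod N, (i + 1).val = (i.val + 1) % N := by
    intro i
    rw [ZMod.val_add, ZMod.val_one]
  have hinj : Function.Injective fun i : ZMod N => p.getVert i.val := by
    intro i j hij
    have hi := ZMod.val_lt i
    have hj := ZMod.val_lt j
    apply ZMod.val_injective N
    refine hp.isCycle.getVert_injOn' ?_ ?_ hij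
    · rw [Set.mem_ofPred]
      omega
    · rw [Set.mem_ofPred]
      omega
  have hbij : Function.Bijective fun i : ZMod N => p.getVert i.val := by
    refine (Fintype.bijective_iff_injective_and_card _).2 ⟨hinj, ?_⟩
    rw [ZMod.card]
    exact hN.symm
  have hadj : ∀ i : ZMod N, C.Adj (p.getVert i.val) (p.getVert (i + 1).val) := by
    intro i
    have hi := ZMod.val_lt i
    have h1 := p.adj_getVert_succ (i := i.val) (by omega)
    rw [hval]
    by_cases h : i.val + 1 < N
    · rw [Nat.mod_eq_of_lt h]
      exact h1
    · have h4 : i.val + 1 = N := by omega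
      rw [h4, Nat.mod_self, p.getVert_zero]
      rw [h4] at h1
      have h5 := p.getVert_length
      rw [hlen] at h5
      rw [h5] at h1
      exact h1
  refine ⟨Equiv.ofBijective _ hbij, ?_⟩
  intro i j
  show C.Adj (p.getVert i.val) (p.getVert j.val) ↔ _
  constructor
  · intro h
    have hne : p.getVert (i + 1).val ≠ p.getVert (i - 1).val := by
      intro e
      have e1 : i + 1 = i - 1 := hinj e
      have e2 : ((2 : ℕ) : ZMod N) = 0 := by
        push_cast
        linear_combination e1
      rw [ZMod.natCast_eq_zero_iff] at e2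
      have := Nat.le_of_dvd (by norm_num) e2
      omega
    have hs : ({p.getVert (i + 1).val, p.getVert (i - 1).val} : Set V) ⊆
        C.neighborSet (p.getVert i.val) := by
      intro x hx
      rcases hx with rfl | hx
      · exact hadj i
      · rw [Set.mem_singleton_iff] at hx
        rw [hx]
        have h1 := hadj (i - 1)
        rw [sub_add_cancel] at h1
        exact h1.symm
    have heq := Set.eq_of_subset_of_ncard_le hs (by
      rw [h2, Set.ncard_pair hne]) (Set.toFinite _)
    have hj : p.getVert j.val ∈ C.neighborSet (p.getVert i.val) := h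
    rw [← heq] at hj
    rcases hj with e | e
    · left
      exact hinj e
    · right
      rw [Set.mem_singleton_iff] at e
      have e1 : j = i - 1 := hinj e
      rw [e1, sub_add_cancel]
  · rintro (rfl | rfl)
    · exact hadj i
    · exact (hadj j).symm

end Pool.Agent.Work.MP_f63b47_lc.GD
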