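import Pool.Agent.Work.MP_f63b47_lc.GD.Defs
import Pool.Agent.Work.MP_f63b47_lc.Mem
import Pool.Agent.Work.MP_f63b47_lc.SubRed

/-!
# GD/FreeL (size M): the problem HC L and machines

* `encGraph_eq`: as in `Pool/Agent/Results/MP_f63b47_lc/GadgetSuns.lean` (copy `encNum_eq`, `encEdges_eq`, `encGraph_eq`).
* `hc_eq`: as `hamCycleFree_eq` there, with the family `fun i : Fin L.length => (L.get i).2`; `F ∈ L` iff `F = L.get i` for some `i`.
* `free_test`: `all_test` (file `Mem`) for this family.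
* `inP_hc`: `f w = [true]` iff `w` is the code of a pair `x` with `t x = true`: `PTime.parseTest`, `parseTest_iff` (file `PolyTime/NPClose`), and
  `polyTimeComputable_iff_PTime` (`PolyTime/Sim`); `(if b then [true] else [])`.
* `test_of_inP`: from `InP A` and `polyTimeComputable_iff_PTime`: `fun x => decide (f (code x).ser = [true])` is `PTime` (`PTime.ser`, `PTime.eq`).
* `inNP_hc`: `inNP_problem`; `hard_hc`: `nphard_problemG`.
* `reducible_of_test`: the map `w ↦ if s (parse w) then w else []` is in polynomial time; used in `Mono`.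
-/

set_option autoImplicit false

namespace Pool.Agent.Work.MP_f63b47_lc.GD

open SimpleGraph Pool.Agent.Work.PolyTime Pool.Agent.Work.MP_f63b47_lc

private theorem fl_num (n : ℕ) : encNum n = (code n).ser := by
  induction n with
  | zero => rfl
  | succ n ih => rw [encNum, ih]; rfl

private theorem fl_edges (l : List (ℕ × ℕ)) : encEdges l = (code l).ser := by
  induction l with
  | nil => rfl
  | cons e l ih =>
    rw [encEdges, ih, fl_num, fl_num]
    rfl

theorem encGraph_eq (n : ℕ) (E : List (ℕ × ℕ)) : encGraph n E = (code (n, E)).ser := by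
  rw [encGraph, fl_num, fl_edges]
  rfl

private theorem fl_get (L : List FG) (P : FG → Prop) :
    (∀ F ∈ L, P F) ↔ ∀ i : Fin L.length, P (L.get i) := by
  constructor
  · intro h i
    exact h _ (List.get_mem L i)
  · intro h F hF
    obtain ⟨i, rfl⟩ := List.mem_iff_get.1 hF
    exact h i

theorem hc_eq (L : List FG) :
    HC L = problem (fun _ => True) (Yes fun i : Fin L.length => (L.get i).2) := by
  ext w
  constructor
  · rintro ⟨n, E, rfl, h1, h2⟩
    exact ⟨(n, E), encGraph_eq n E, trivial,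
      (fl_get L fun F => F.2.Free (graphOf n E)).1 h1, h2⟩
  · rintro ⟨⟨n, E⟩, rfl, -, h1, h2⟩
    exact ⟨n, E, (encGraph_eq n E).symm, (fl_get L fun F => F.2.Free (graphOf n E)).2 h1, h2⟩

theorem free_test (L : List FG) : ∃ t : ℕ × List (ℕ × ℕ) → Bool, PTime t ∧
    ∀ x, t x = true ↔ ∀ F ∈ L, F.2.Free (graphOf x.1 x.2) := by
  obtain ⟨t, ht, h⟩ := all_test (fun i : Fin L.length => (L.get i).2)
  refine ⟨t, ht, fun x => ?_⟩
  rw [h]
  exact (fl_get L fun F => F.2.Free (graphOf x.1 x.2)).symm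

theorem inP_hc (L : List FG) (t : ℕ × List (ℕ × ℕ) → Bool) (ht : PTime t)
    (h : ∀ n E, t (n, E) = true ↔
      (∀ F ∈ L, F.2.Free (graphOf n E)) ∧ HasHamCycle (graphOf n E)) : InP (HC L) := by
  refine ⟨fun w => bif ((parseW (ℕ × List (ℕ × ℕ)) w).bind fun b => some (t b)).getD false
    then [true] else [], ?_, ?_⟩
  · rw [polyTimeComputable_iff_PTime]
    exact PTime.cond (PTime.parseTest (β := ℕ × List (ℕ × ℕ)) (t := fun _ b => t b) PTime.id
      (ht.comp PTime.snd)) (PTime.const _) (PTime.const _)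
  · intro w
    have h1 : (bif ((parseW (ℕ × List (ℕ × ℕ)) w).bind fun b => some (t b)).getD false
        then [true] else []) = [true] ↔
        ((parseW (ℕ × List (ℕ × ℕ)) w).bind fun b => some (t b)).getD false = true := by
      cases ((parseW (ℕ × List (ℕ × ℕ)) w).bind fun b => some (t b)).getD false <;> simp
    rw [h1, parseTest_iff]
    constructor
    · rintro ⟨n, E, rfl, h2, h3⟩
      exact ⟨(n, E), encGraph_eq n E, (h n E).2 ⟨h2, h3⟩⟩
    · rintro ⟨⟨n, E⟩, rfl, h2⟩
      obtain ⟨h3, h4⟩ := (h n E).1 h2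
      exact ⟨n, E, (encGraph_eq n E).symm, h3, h4⟩

private theorem fl_mem (L : List FG) (n : ℕ) (E : List (ℕ × ℕ)) :
    (code (n, E)).ser ∈ HC L ↔ (∀ F ∈ L, F.2.Free (graphOf n E)) ∧ HasHamCycle (graphOf n E) := by
  constructor
  · rintro ⟨n', E', h1, h2, h3⟩
    rw [encGraph_eq] at h1
    have h4 : (n, E) = (n', E') := by
      have h5 := parseW_ser (β := ℕ × List (ℕ × ℕ)) (n, E)
      rw [h1, parseW_ser] at h5
      exact (Option.some.inj h5).symm
    obtain ⟨rfl, rfl⟩ := Prod.mk.inj h4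
    exact ⟨h2, h3⟩
  · rintro ⟨h2, h3⟩
    exact ⟨n, E, (encGraph_eq n E).symm, h2, h3⟩

theorem test_of_inP (L : List FG) (h : InP (HC L)) : ∃ t : ℕ × List (ℕ × ℕ) → Bool, PTime t ∧
    ∀ n E, t (n, E) = true ↔
      (∀ F ∈ L, F.2.Free (graphOf n E)) ∧ HasHamCycle (graphOf n E) := by
  obtain ⟨f, hf, h⟩ := h
  rw [polyTimeComputable_iff_PTime] at hf
  refine ⟨fun x => decide (f (code x).ser = [true]), ?_, fun n E => ?_⟩
  · exact PTime.eq (hf.comp (PTime.ser PTime.id)) (PTime.const _)
  · rw [decide_eq_true_eq, ← h, fl_mem]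

theorem inNP_hc (L : List FG) : InNP (HC L) := by
  rw [hc_eq]
  exact inNP_problem _

theorem hard_hc (G : Fin 8 → Gadget) (L : List FG) (h : ∀ F ∈ L, F.2.Free (GSuns G)) :
    NPHard (HC L) := by
  rw [hc_eq]
  exact nphard_problemG G _ ((fl_get L fun F => F.2.Free (GSuns G)).1 h)

theorem reducible_of_test (L L' : List FG) (s : ℕ × List (ℕ × ℕ) → Bool) (hs : PTime s)
    (h : ∀ n E, ((∀ F ∈ L', F.2.Free (graphOf n E)) ∧ HasHamCycle (graphOf n E)) ↔
      (s (n, E) = true ∧ (∀ F ∈ L, F.2.Free (graphOf n E)) ∧ HasHamCycle (graphOf n E))) :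
    PolyReducible (HC L') (HC L) := by
  refine ⟨fun w => bif ((parseW (ℕ × List (ℕ × ℕ)) w).bind fun b => some (s b)).getD false
    then w else [], ?_, ?_⟩
  · rw [polyTimeComputable_iff_PTime]
    exact PTime.cond (PTime.parseTest (β := ℕ × List (ℕ × ℕ)) (t := fun _ b => s b) PTime.id
      (hs.comp PTime.snd)) PTime.id (PTime.const _)
  · intro w
    show w ∈ HC L' ↔ (bif ((parseW (ℕ × List (ℕ × ℕ)) w).bind fun b => some (s b)).getD false
      then w else []) ∈ HC L
    cases h1 : ((parseW (ℕ × List (ℕ × ℕ)) w).bind fun b => some (s b)).getD false with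
    | true =>
      rw [cond_true]
      obtain ⟨⟨n, E⟩, rfl, h2⟩ := parseTest_iff.1 h1
      rw [fl_mem, fl_mem, h]
      exact ⟨fun h3 => h3.2, fun h3 => ⟨h2, h3⟩⟩
    | false =>
      rw [cond_false]
      constructor
      · rintro ⟨n, E, rfl, h2, h3⟩
        exfalso
        have h4 := ((h n E).1 ⟨h2, h3⟩).1
        rw [encGraph_eq, parseW_ser] at h1
        simp [h4] at h1
      · rintro ⟨n, E, h2, -⟩
        rw [encGraph] at h2
        cases h2

end Pool.Agent.Work.MP_f63b47_lc.GD
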