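import Pool.Agent.Work.MP_f63b47_lc.GD.NearB
import Pool.Agent.Work.MP_f63b47_lc.GD.CycE
import Pool.Agent.Work.MP_f63b47_lc.GD.ADel
import Pool.Agent.Work.MP_f63b47_lc.GD.AEnum
import Pool.Agent.Work.MP_f63b47_lc.GD.FreeL

/-!
# GD/AStep (size M): one step of the reduction to components

`test_of_inP` gives tests `t₁`, `t₂` for `F₁ :: L`, `F₂ :: L`, `free_test` gives `t` for `F :: L`. `N = (a + 1) (2 b + 2)`, `K = a (2 b + 1)`, `a`, `b` the numbers of vertices of `F₁`, `F₂`. `inP_hc` with the test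
`t x && (t₁ x || (bruteE N x.1 x.2 || enumE t₂ K x.1 x.2))`. Soundness: each of the three gives a Hamiltonian cycle of `graphOf n E` (`brute_sound`; for `enumE`: `delE_le` and
`hasHamCycle_iff` or `hasHamCycle_of_iso'`: a Hamiltonian cycle of a spanning subgraph). Completeness: let `G = graphOf n E` have a Hamiltonian cycle and contain no member of `F :: L`. If `G` does not contain `F₁`: `t₁`. If
`n ≤ N`: `brute_complete`. Otherwise `hasHamCycle_iff` gives `C`, `cyc_equiv` gives `e` (`Fintype.card (Fin n) = n`), `near` gives `Y` (`(F₁ ⊕g F₂).Free G` as `F ≃g F₁ ⊕g F₂`), `delE_spec` gives the lists; the graph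
`Del G C Y'` is a subgraph of `Del G C Y`, so it does not contain `F₂`; it is a subgraph of `G`, so it contains no member of `L`; it contains `C`, so it has a Hamiltonian cycle (`hasHamCycle_iff`).
-/

set_option autoImplicit false

namespace Pool.Agent.Work.MP_f63b47_lc.GD

open SimpleGraph Pool.Agent.Work.PolyTime Pool.Agent.Work.MP_f63b47_lc

theorem comp_step (L : List FG) (F F₁ F₂ : FG) (h : Nonempty (F.2 ≃g F₁.2 ⊕g F₂.2))
    (hc : F₂.2.Connected) (h1 : InP (HC (F₁ :: L))) (h2 : InP (HC (F₂ :: L))) :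
    InP (HC (F :: L)) := by
  classical
  obtain ⟨t, ht, htt⟩ := free_test (F :: L)
  obtain ⟨t₁, ht₁, htt₁⟩ := test_of_inP (F₁ :: L) h1
  obtain ⟨t₂, ht₂, htt₂⟩ := test_of_inP (F₂ :: L) h2
  obtain ⟨N, hN⟩ : ∃ N, N = (F₁.1 + 1) * (2 * F₂.1 + 2) := ⟨_, rfl⟩
  obtain ⟨K, hK⟩ : ∃ K, K = F₁.1 * (2 * F₂.1 + 1) := ⟨_, rfl⟩
  refine inP_hc (F :: L) (fun x => t x && (t₁ x || (bruteE N x.1 x.2 || enumE t₂ K x.1 x.2)))
    (PTime.and ht (PTime.or ht₁ (PTime.or (ptime_brute N) (ptime_enum ht₂ K)))) ?_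
  intro n E
  show (t (n, E) && (t₁ (n, E) || (bruteE N n E || enumE t₂ K n E))) = true ↔ _
  rw [Bool.and_eq_true, htt, Bool.or_eq_true, Bool.or_eq_true, htt₁]
  refine and_congr_right fun hfree => ?_
  change ∀ F' ∈ F :: L, F'.2.Free (graphOf n E) at hfree
  constructor
  · rintro (⟨-, h3⟩ | h3 | h3)
    · exact h3
    · exact brute_sound h3
    · obtain ⟨ys, s₁, s₂, -, -, -, h4⟩ := enum_iff.mp h3
      obtain ⟨-, h5⟩ := (htt₂ _ _).mp h4
      obtain ⟨a, p, hp⟩ := h5
      exact hasHamCycle_of_iso' (Hom.ofLE (delE_le ys (s₁.zip s₂))) Function.bijective_id ⟨a, p, hp⟩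
  · intro hH
    by_cases hF1 : F₁.2.Free (graphOf n E)
    · refine Or.inl ⟨?_, hH⟩
      intro F' hF'
      rcases List.mem_cons.mp hF' with rfl | h3
      · exact hF1
      · exact hfree F' (List.mem_cons_of_mem _ h3)
    · right
      by_cases hnN : n ≤ N
      · exact Or.inl (brute_complete hnN hH)
      · right
        have hn0 : 0 < n := by omega
        haveI : Nonempty (Fin n) := ⟨⟨0, hn0⟩⟩
        obtain ⟨C, hC, hT, hP⟩ := (hasHamCycle_iff _).mp hH
        have hcyc := cyc_equiv (C := C) hT hP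
        rw [Fintype.card_fin] at hcyc
        obtain ⟨-, e, he⟩ := hcyc
        have hF1c : F₁.2 ⊑ graphOf n E := not_not.mp hF1
        have hsum : (F₁.2 ⊕g F₂.2).Free (graphOf n E) := by
          intro hcon
          obtain ⟨iso⟩ := h
          obtain ⟨c⟩ := hcon
          exact hfree F List.mem_cons_self ⟨c.comp iso.toCopy⟩
        obtain ⟨Y, hY, hfr⟩ := near hc hC e he (by omega) hF1c hsum
        obtain ⟨ys, s₁, s₂, Y', l1, l2, l3, l4, l5, l6, hYY, hdel⟩ :=
          delE_spec hn0 hC hT Y (K := K) (by omega)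
        refine enum_iff.mpr ⟨ys, s₁, s₂, ⟨l1, l2⟩, ⟨l3, l4⟩, ⟨l5, l6⟩, ?_⟩
        rw [htt₂, hdel]
        have hle : Del (graphOf n E) C Y' ≤ Del (graphOf n E) C Y := by
          intro u v huv
          refine ⟨huv.1, huv.2.imp (fun h => h) fun h => ?_⟩
          exact ⟨fun hu => h.1 (hYY hu), fun hv => h.2 (hYY hv)⟩
        have hle2 : Del (graphOf n E) C Y' ≤ graphOf n E := fun u v huv => huv.1
        have hCle : C ≤ Del (graphOf n E) C Y' := fun u v huv => ⟨hC huv, Or.inl huv⟩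
        refine ⟨?_, (hasHamCycle_iff _).mpr ⟨C, hCle, hT, hP⟩⟩
        intro F' hF' hcon
        rcases List.mem_cons.mp hF' with rfl | h3
        · exact hfr (hcon.mono_right hle)
        · exact hfree F' (List.mem_cons_of_mem _ h3) (hcon.mono_right hle2)

end Pool.Agent.Work.MP_f63b47_lc.GD
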