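import Pool.Agent.Work.MP_f63b47_lc.GD.StabN

/-!
# GD/WalkD (size M): infinite walks without backtracking

`big_walk`: choose for every `x` of degree at least three and every `p` a vertex `nx x p` as in `big_next`; define pairs `(w i, w (i + 1))` by recursion,
`(x, y)` first, then `(u, v) ↦ (v, nx v u)` (for instance a function from `ℕ` to the subtype of pairs `(u, v)` with `u`, `v` adjacent and of degree at least three).
`arm`: the same with `next_of_two`.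
-/

set_option autoImplicit false

namespace Pool.Agent.Work.MP_f63b47_lc.GD

open SimpleGraph Pool.Agent.Work.MP_f63b47_lc

private theorem walk_aux {V : Type} {G : SimpleGraph V} {P : V → Prop}
    (h : ∀ v, P v → ∀ p, ∃ q, q ≠ p ∧ G.Adj v q ∧ P q) {x y : V} (hx : P x) (hy : P y)
    (hxy : G.Adj x y) :
    ∃ w : ℕ → V, w 0 = x ∧ w 1 = y ∧ (∀ i, G.Adj (w i) (w (i + 1))) ∧ (∀ i, w (i + 2) ≠ w i) ∧
      ∀ i, P (w i) := by
  choose! nx hnx using h
  let St : Type := {s : V × V // G.Adj s.1 s.2 ∧ P s.1 ∧ P s.2}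
  let f : St → St := fun s => ⟨(s.1.2, nx s.1.2 s.1.1),
    (hnx s.1.2 s.2.2.2 s.1.1).2.1, s.2.2.2, (hnx s.1.2 s.2.2.2 s.1.1).2.2⟩
  let S : ℕ → St := fun i => Nat.rec ⟨(x, y), hxy, hx, hy⟩ (fun _ s => f s) i
  have hS : ∀ i, S (i + 1) = f (S i) := fun i => rfl
  refine ⟨fun i => (S i).1.1, rfl, rfl, fun i => ?_, fun i => ?_, fun i => (S i).2.2.1⟩
  · show G.Adj (S i).1.1 (S (i + 1)).1.1
    rw [hS]
    exact (S i).2.1
  · show nx (S i).1.2 (S i).1.1 ≠ (S i).1.1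
    exact (hnx (S i).1.2 (S i).2.2.2 (S i).1.1).1

theorem big_walk {V : Type} [Finite V] {G : SimpleGraph V} (hs : Stab G) {x y : V}
    (hx : 3 ≤ (G.neighborSet x).ncard) (hy : 3 ≤ (G.neighborSet y).ncard) (hxy : G.Adj x y) :
    ∃ w : ℕ → V, w 0 = x ∧ w 1 = y ∧ (∀ i, G.Adj (w i) (w (i + 1))) ∧ (∀ i, w (i + 2) ≠ w i) ∧
      ∀ i, 3 ≤ (G.neighborSet (w i)).ncard := by
  exact walk_aux (P := fun v => 3 ≤ (G.neighborSet v).ncard)
    (fun v hv p => big_next hs hv p) hx hy hxy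

theorem arm {V : Type} [Finite V] {G : SimpleGraph V} (h : ∀ v, 2 ≤ (G.neighborSet v).ncard)
    {x y : V} (hxy : G.Adj x y) :
    ∃ w : ℕ → V, w 0 = x ∧ w 1 = y ∧ (∀ i, G.Adj (w i) (w (i + 1))) ∧ ∀ i, w (i + 2) ≠ w i := by
  obtain ⟨w, h0, h1, h2, h3, -⟩ := walk_aux (P := fun _ => True)
    (fun v _ p => by
      obtain ⟨q, hq, ha⟩ := next_of_two (h v) p
      exact ⟨q, hq, ha, trivial⟩) trivial trivial hxy
  exact ⟨w, h0, h1, h2, h3⟩

end Pool.Agent.Work.MP_f63b47_lc.GD
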