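import Pool.Agent.Work.MP_f63b47_lc.GD.NB
import Pool.Agent.Work.MP_f63b47_lc.GD.WalkD

/-!
# GD/BIn (size M): a stable graph without cycles of length at most j + 2 contains the full caterpillar

Take `w` from `big_next`, `big_walk` (start at `v`). Send `inl a` to `w a` and `inr b` to a neighbour `q b` of `w (b + 1)` different from `w b` and `w (b + 2)`
(`next_of_three`). Adjacency is clear. Injective by `nb_inj` with walks of length at least one and at most `j + 2`: `w a, …, w a'`; for `a ≤ b`: `w a, …, w (b + 1), q b`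
(length `b + 2 - a ≤ j + 2`); `a = b + 1`: adjacent; for `a ≥ b + 2`: `q b, w (b + 1), …, w a` (length `a - b ≤ j + 2`); for `b < b'`: `q b, w (b + 1), …, w (b' + 1), q b'`
(length `b' - b + 2 ≤ j + 2`).
-/

set_option autoImplicit false

namespace Pool.Agent.Work.MP_f63b47_lc.GD

open SimpleGraph Pool.Agent.Work.MP_f63b47_lc

private theorem bin_mono {V : Type} {G : SimpleGraph V} {L M : ℕ} (h : NoCyc G M) (hLM : L ≤ M) :
    NoCyc G L := fun k h3 hk => h k h3 (hk.trans hLM)

private theorem bin_wq {V : Type} {G : SimpleGraph V} {w q : ℕ → V}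
    (hw1 : ∀ i, G.Adj (w i) (w (i + 1))) (hw2 : ∀ i, w (i + 2) ≠ w i)
    (hq0 : ∀ b, q b ≠ w b) (hq2 : ∀ b, q b ≠ w (b + 2)) (hq1 : ∀ b, G.Adj (w (b + 1)) (q b))
    {M a b : ℕ} (hG : NoCyc G M) (ha : a ≤ M) (hb : b + 2 ≤ M) : w a ≠ q b := by
  intro h
  rcases lt_trichotomy a (b + 1) with hab | hab | hab
  · have h1 := nb_inj G (L := b + 2 - a) (bin_mono hG (by omega))
      (fun i => if a + i ≤ b + 1 then w (a + i) else q b) ?_ ?_ 0 (b + 2 - a) (by omega) le_rfl ?_
    · omega
    · intro i hi
      show G.Adj (if a + i ≤ b + 1 then w (a + i) else q b)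
        (if a + (i + 1) ≤ b + 1 then w (a + (i + 1)) else q b)
      rw [if_pos (by omega)]
      by_cases h2 : a + (i + 1) ≤ b + 1
      · rw [if_pos h2]
        exact hw1 (a + i)
      · rw [if_neg h2, show a + i = b + 1 by omega]
        exact hq1 b
    · intro i hi
      show (if a + (i + 2) ≤ b + 1 then w (a + (i + 2)) else q b) ≠
        (if a + i ≤ b + 1 then w (a + i) else q b)
      rw [if_pos (show a + i ≤ b + 1 by omega)]
      by_cases h2 : a + (i + 2) ≤ b + 1
      · rw [if_pos h2]
        exact hw2 (a + i)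
      · rw [if_neg h2, show a + i = b by omega]
        exact hq0 b
    · show (if a + 0 ≤ b + 1 then w (a + 0) else q b) =
        (if a + (b + 2 - a) ≤ b + 1 then w (a + (b + 2 - a)) else q b)
      rw [if_pos (by omega), if_neg (by omega), add_zero]
      exact h
  · rw [hab] at h
    exact (hq1 b).ne h
  · have h1 := nb_inj G (L := a - b) (bin_mono hG (by omega))
      (fun i => if i = 0 then q b else w (b + i)) ?_ ?_ 0 (a - b) (by omega) le_rfl ?_
    · omega
    · intro i hi
      show G.Adj (if i = 0 then q b else w (b + i)) (if i + 1 = 0 then q b else w (b + (i + 1)))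
      rw [if_neg (show i + 1 ≠ 0 by omega)]
      by_cases h2 : i = 0
      · rw [if_pos h2, h2]
        exact (hq1 b).symm
      · rw [if_neg h2]
        exact hw1 (b + i)
    · intro i hi
      show (if i + 2 = 0 then q b else w (b + (i + 2))) ≠ (if i = 0 then q b else w (b + i))
      rw [if_neg (show i + 2 ≠ 0 by omega)]
      by_cases h2 : i = 0
      · rw [if_pos h2, h2]
        exact (hq2 b).symm
      · rw [if_neg h2]
        exact hw2 (b + i)
    · show (if 0 = 0 then q b else w (b + 0)) = (if a - b = 0 then q b else w (b + (a - b)))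
      rw [if_pos rfl, if_neg (by omega), show b + (a - b) = a by omega]
      exact h.symm

private theorem bin_qq {V : Type} {G : SimpleGraph V} {w q : ℕ → V}
    (hw1 : ∀ i, G.Adj (w i) (w (i + 1))) (hw2 : ∀ i, w (i + 2) ≠ w i)
    (hq0 : ∀ b, q b ≠ w b) (hq2 : ∀ b, q b ≠ w (b + 2)) (hq1 : ∀ b, G.Adj (w (b + 1)) (q b))
    {M b c : ℕ} (hG : NoCyc G M) (hbc : b < c) (hc : c + 2 ≤ M) : q b ≠ q c := by
  intro h
  have h1 := nb_inj G (L := c - b + 2) (bin_mono hG (by omega))
    (fun i => if i = 0 then q b else if b + i ≤ c + 1 then w (b + i) else q c) ?_ ?_ 0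
      (c - b + 2) (by omega) le_rfl ?_
  · omega
  · intro i hi
    show G.Adj (if i = 0 then q b else if b + i ≤ c + 1 then w (b + i) else q c)
      (if i + 1 = 0 then q b else if b + (i + 1) ≤ c + 1 then w (b + (i + 1)) else q c)
    rw [if_neg (show i + 1 ≠ 0 by omega)]
    by_cases h2 : i = 0
    · rw [if_pos h2, if_pos (by omega), h2]
      exact (hq1 b).symm
    · rw [if_neg h2, if_pos (show b + i ≤ c + 1 by omega)]
      by_cases h3 : b + (i + 1) ≤ c + 1
      · rw [if_pos h3]
        exact hw1 (b + i)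
      · rw [if_neg h3, show b + i = c + 1 by omega]
        exact hq1 c
  · intro i hi
    show (if i + 2 = 0 then q b else if b + (i + 2) ≤ c + 1 then w (b + (i + 2)) else q c) ≠
      (if i = 0 then q b else if b + i ≤ c + 1 then w (b + i) else q c)
    rw [if_neg (show i + 2 ≠ 0 by omega)]
    by_cases h2 : i = 0
    · rw [if_pos h2, if_pos (by omega), h2]
      exact (hq2 b).symm
    · rw [if_neg h2, if_pos (show b + i ≤ c + 1 by omega)]
      by_cases h3 : b + (i + 2) ≤ c + 1
      · rw [if_pos h3]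
        exact hw2 (b + i)
      · rw [if_neg h3, show b + i = c by omega]
        exact hq0 c
  · show (if 0 = 0 then q b else if b + 0 ≤ c + 1 then w (b + 0) else q c) =
      (if c - b + 2 = 0 then q b else if b + (c - b + 2) ≤ c + 1 then w (b + (c - b + 2)) else q c)
    rw [if_pos rfl, if_neg (by omega), if_neg (by omega)]
    exact h

theorem btree_in {V : Type} [Finite V] {G : SimpleGraph V} (hs : Stab G) {v : V}
    (hv : 3 ≤ (G.neighborSet v).ncard) {j : ℕ} (hG : NoCyc G (j + 2)) : BTree j ⊑ G := by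
  obtain ⟨x, -, hvx, hx⟩ := big_next hs hv v
  obtain ⟨w, -, -, hw1, hw2, hw3⟩ := big_walk hs hv hx hvx
  choose q hq0 hq2 hq1 using fun b => next_of_three (hw3 (b + 1)) (w b) (w (b + 2))
  have hr : ∀ x y : Fin (j + 3) ⊕ Fin (j + 1),
      ((∃ a b : Fin (j + 3), x = Sum.inl a ∧ y = Sum.inl b ∧ (a : ℕ) + 1 = b) ∨
      (∃ (a : Fin (j + 3)) (b : Fin (j + 1)), x = Sum.inl a ∧ y = Sum.inr b ∧ (a : ℕ) = b + 1)) →
      G.Adj (Sum.elim (fun a : Fin (j + 3) => w a) (fun b : Fin (j + 1) => q b) x)
        (Sum.elim (fun a : Fin (j + 3) => w a) (fun b : Fin (j + 1) => q b) y) := by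
    rintro x y (⟨a, b, rfl, rfl, hab⟩ | ⟨a, b, rfl, rfl, hab⟩)
    · show G.Adj (w a) (w b)
      rw [← hab]
      exact hw1 a
    · show G.Adj (w a) (q b)
      rw [hab]
      exact hq1 b
  have hwq : ∀ (a : Fin (j + 3)) (b : Fin (j + 1)), w a ≠ q b := fun a b =>
    bin_wq hw1 hw2 hq0 hq2 hq1 hG (by have := a.isLt; omega) (by have := b.isLt; omega)
  refine ⟨⟨⟨Sum.elim (fun a : Fin (j + 3) => w a) (fun b : Fin (j + 1) => q b), ?_⟩, ?_⟩⟩
  · intro x y hxy
    unfold BTree at hxy
    rw [SimpleGraph.fromRel_adj] at hxy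
    rcases hxy.2 with h | h
    · exact hr x y h
    · exact (hr y x h).symm
  · intro x y hxy
    rcases x with a | b <;> rcases y with a' | b'
    · have h1 : w a = w a' := hxy
      have h2 := nb_inj G hG w (fun i _ => hw1 i) (fun i _ => hw2 i) a a'
        (by have := a.isLt; omega) (by have := a'.isLt; omega) h1
      rw [Fin.ext h2]
    · have h1 : w a = q b' := hxy
      exact (hwq a b' h1).elim
    · have h1 : q b = w a' := hxy
      exact (hwq a' b h1.symm).elim
    · have h1 : q b = q b' := hxy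
      rcases lt_trichotomy (b : ℕ) (b' : ℕ) with h2 | h2 | h2
      · exact (bin_qq hw1 hw2 hq0 hq2 hq1 hG h2 (by have := b'.isLt; omega) h1).elim
      · rw [Fin.ext h2]
      · exact (bin_qq hw1 hw2 hq0 hq2 hq1 hG h2 (by have := b.isLt; omega) h1.symm).elim

end Pool.Agent.Work.MP_f63b47_lc.GD
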