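import Pool.Agent.Work.MP_f63b47_lc.GD.NB
import Pool.Agent.Work.MP_f63b47_lc.GD.WalkD

/-!
# GD/CombIn (size M-L): a stable graph with a vertex of degree three contains combs

If `m = 0` or `r = 0` the comb has no vertices (`IsContained.of_isEmpty`). `big_next` and `big_walk` give a walk `w` starting at `v`. Column `i < m` of the comb goes to the
vertex `w (i + 1)`; let `q i` be a neighbour of `w (i + 1)` different from `w i` and `w (i + 2)` (`next_of_three`) and `a i : ℕ → V` the walk of `arm` starting with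
`w (i + 1)`, `q i`. The map is `(i, t) ↦ a i t`; it respects adjacency. It is injective: for two different vertices `(i, t)`, `(i', t')` there is a walk without
backtracking from the image of the first to the image of the second, of length at least one and at most `(r - 1) + (m - 1) + (r - 1)`: for `i = i'` a piece of `a i`; for
`i < i'`: `a i t, a i (t - 1), …, a i 0 = w (i + 1), w (i + 2), …, w (i' + 1) = a i' 0, a i' 1, …, a i' t'` (no backtracking at the two junctions as `a i 1 ≠ w (i + 2)`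
and `a i' 1 ≠ w i'`; if `t = 0` or `t' = 0` there is nothing to check there). Write it as a function of one index `s` by cases and use `nb_inj` (with `NoCyc` for the
smaller length): its ends are different.
-/

set_option autoImplicit false

namespace Pool.Agent.Work.MP_f63b47_lc.GD

open SimpleGraph Pool.Agent.Work.MP_f63b47_lc

private theorem conc {V : Type} {G : SimpleGraph V} {L : ℕ} (hG : NoCyc G L) (p c q : ℕ → V)
    (d t t' : ℕ) (hd : 1 ≤ d) (hL : t + d + t' ≤ L) (hp : ∀ i, G.Adj (p i) (p (i + 1)))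
    (hc : ∀ i, G.Adj (c i) (c (i + 1))) (hq : ∀ i, G.Adj (q i) (q (i + 1)))
    (hp2 : ∀ i, p (i + 2) ≠ p i) (hc2 : ∀ i, c (i + 2) ≠ c i) (hq2 : ∀ i, q (i + 2) ≠ q i)
    (h0 : p 0 = c 0) (h1 : q 0 = c d) (h2 : p 1 ≠ c 1) (h3 : q 1 ≠ c (d - 1)) :
    p t ≠ q t' := by
  intro h
  let u : ℕ → V := fun s =>
    if s ≤ t then p (t - s) else if s ≤ t + d then c (s - t) else q (s - t - d)
  have u1 : ∀ s, s ≤ t → u s = p (t - s) := by
    intro s hs
    simp only [u, if_pos hs]
  have u2 : ∀ k, k ≤ d → u (t + k) = c k := by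
    intro k hk
    rcases Nat.eq_zero_or_pos k with rfl | hk0
    · rw [Nat.add_zero, u1 t le_rfl, Nat.sub_self, h0]
    · have e1 : ¬ (t + k ≤ t) := by omega
      have e2 : t + k ≤ t + d := by omega
      simp only [u, if_neg e1, if_pos e2]
      congr 1
      omega
  have u3 : ∀ k, u (t + d + k) = q k := by
    intro k
    rcases Nat.eq_zero_or_pos k with rfl | hk0
    · rw [Nat.add_zero, u2 d le_rfl, h1]
    · have e1 : ¬ (t + d + k ≤ t) := by omega
      have e2 : ¬ (t + d + k ≤ t + d) := by omega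
      simp only [u, if_neg e1, if_neg e2]
      congr 1
      omega
  have hadj : ∀ s < L, G.Adj (u s) (u (s + 1)) := by
    intro s _
    rcases Nat.lt_or_ge s t with hs | hs
    · rw [u1 s hs.le, u1 (s + 1) hs]
      have e : t - s = (t - (s + 1)) + 1 := by omega
      rw [e]
      exact (hp _).symm
    · obtain ⟨k, rfl⟩ := Nat.exists_eq_add_of_le hs
      rcases Nat.lt_or_ge k d with hk | hk
      · rw [u2 k hk.le, Nat.add_assoc, u2 (k + 1) hk]
        exact hc k
      · obtain ⟨j, rfl⟩ := Nat.exists_eq_add_of_le hk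
        rw [← Nat.add_assoc, u3 j, Nat.add_assoc (t + d) j 1, u3 (j + 1)]
        exact hq j
  have hnb : ∀ s, s + 2 ≤ L → u (s + 2) ≠ u s := by
    intro s _
    rcases Nat.lt_or_ge s t with hs | hs
    · rcases Nat.lt_or_ge (s + 1) t with hs1 | hs1
      · rw [u1 s hs.le, u1 (s + 2) hs1]
        have e : t - s = (t - (s + 2)) + 2 := by omega
        rw [e]
        exact (hp2 _).symm
      · have e : s + 2 = t + 1 := by omega
        have e2 : t - s = 1 := by omega
        rw [e, u2 1 hd, u1 s hs.le, e2]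
        exact h2.symm
    · obtain ⟨k, rfl⟩ := Nat.exists_eq_add_of_le hs
      rcases Nat.lt_or_ge k d with hk | hk
      · rcases Nat.lt_or_ge (k + 1) d with hk1 | hk1
        · rw [u2 k hk.le, Nat.add_assoc, u2 (k + 2) hk1]
          exact hc2 k
        · have e : t + k + 2 = t + d + 1 := by omega
          have e2 : k = d - 1 := by omega
          rw [e, u3 1, u2 k hk.le, e2]
          exact h3
      · obtain ⟨j, rfl⟩ := Nat.exists_eq_add_of_le hk
        rw [← Nat.add_assoc, u3 j, Nat.add_assoc (t + d) j 2, u3 (j + 2)]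
        exact hq2 j
  have h4 : u 0 = u (t + d + t') := by
    rw [u1 0 (Nat.zero_le t), Nat.sub_zero, u3 t', h]
  have h5 := nb_inj G hG u hadj hnb 0 (t + d + t') (Nat.zero_le L) hL h4
  omega

theorem comb_in {V : Type} [Finite V] {G : SimpleGraph V} (hs : Stab G)
    (h2 : ∀ v, 2 ≤ (G.neighborSet v).ncard) {v : V} (hv : 3 ≤ (G.neighborSet v).ncard) (m r : ℕ)
    (hG : NoCyc G (m + 2 * r)) : FinComb m r ⊑ G := by
  obtain ⟨q0, _, hq0, hq3⟩ := big_next hs hv v
  obtain ⟨w, _, _, hw, hw2, hw3⟩ := big_walk hs hv hq3 hq0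
  have hq : ∀ i, ∃ q, q ≠ w i ∧ q ≠ w (i + 2) ∧ G.Adj (w (i + 1)) q := fun i =>
    next_of_three (hw3 (i + 1)) (w i) (w (i + 2))
  choose q hqa hqb hqc using hq
  have ha : ∀ i, ∃ a : ℕ → V, a 0 = w (i + 1) ∧ a 1 = q i ∧ (∀ j, G.Adj (a j) (a (j + 1))) ∧
      ∀ j, a (j + 2) ≠ a j := fun i => arm h2 (hqc i)
  choose a ha0 ha1 haa ha2 using ha
  have key : ∀ i d t t', 1 ≤ d → t + d + t' ≤ m + 2 * r → a i t ≠ a (i + d) t' := by
    intro i d t t' hd hL
    refine conc hG (a i) (fun k => w (i + 1 + k)) (a (i + d)) d t t' hd hL (haa i)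
      (fun k => hw (i + 1 + k)) (haa (i + d)) (ha2 i) (fun k => hw2 (i + 1 + k)) (ha2 (i + d))
      (ha0 i) ?_ ?_ ?_
    · rw [ha0 (i + d)]
      congr 1
      omega
    · rw [ha1 i]
      exact hqb i
    · rw [ha1 (i + d)]
      have e : i + 1 + (d - 1) = i + d := by omega
      show q (i + d) ≠ w (i + 1 + (d - 1))
      rw [e]
      exact hqa (i + d)
  have hrel : ∀ x y : Fin m × Fin r,
      (((x.2 : ℕ) = 0 ∧ (y.2 : ℕ) = 0 ∧ (y.1 : ℕ) = x.1 + 1) ∨
        (x.1 = y.1 ∧ (y.2 : ℕ) = x.2 + 1)) → G.Adj (a x.1 x.2) (a y.1 y.2) := by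
    rintro x y (⟨h3, h4, h5⟩ | ⟨h3, h4⟩)
    · rw [h3, h4, h5, ha0, ha0]
      exact hw _
    · rw [h3, h4]
      exact haa _ _
  refine ⟨⟨⟨fun x : Fin m × Fin r => a x.1 x.2, ?_⟩, ?_⟩⟩
  · intro x y hxy
    rw [FinComb, fromRel_adj] at hxy
    rcases hxy.2 with h | h
    · exact hrel x y h
    · exact (hrel y x h).symm
  · rintro ⟨i, t⟩ ⟨i', t'⟩ hxy
    have hxy' : a i t = a i' t' := hxy
    have hi := i.isLt
    have hi' := i'.isLt
    have ht := t.isLt
    have ht' := t'.isLt
    rcases lt_trichotomy (i : ℕ) (i' : ℕ) with h5 | h5 | h5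
    · exfalso
      have e : (i' : ℕ) = i + (i' - i) := by omega
      rw [e] at hxy'
      exact key i (i' - i) t t' (by omega) (by omega) hxy'
    · rw [h5] at hxy'
      have h6 := nb_inj G hG (a i') (fun j _ => haa _ j) (fun j _ => ha2 _ j) t t' (by omega)
        (by omega) hxy'
      exact Prod.ext (Fin.ext h5) (Fin.ext h6)
    · exfalso
      have e : (i : ℕ) = i' + (i - i') := by omega
      rw [e] at hxy'
      exact key i' (i - i') t' t (by omega) (by omega) hxy'.symm

end Pool.Agent.Work.MP_f63b47_lc.GD
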