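import Pool.Agent.Work.MP_f63b47_lc.GD.GDefs

/-!
# GD/Compress (size M): a finite subgraph of the comb with n vertices is contained in the comb with n teeth of length n

Let `f` be the injection from `Fin n` to `ℤ × ℕ`, `X` its image (a `Finset`), `S` the set of the first coordinates of `X`, `T i` the set of the second coordinates of the
elements of `X` with first coordinate `i`. Send `u` with `f u = (i, t)` to `(c i, d i t)`, `c i` = the number of elements of `S` less than `i`, `d i t` = the number of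
elements of `T i` less than `t`; both are less than `n` (`i ∈ S`, `card S ≤ n`, and `t ∈ T i`, `card (T i) ≤ n`). Injective: `c` is strictly monotone on `S`, `d i` on `T i`.
Adjacency: if `f u = (i, 0)`, `f v = (i + 1, 0)` then `c (i + 1) = c i + 1` (the elements of `S` less than `i + 1` are those less than `i` and `i`) and
`d i 0 = 0 = d (i + 1) 0`; if `f u = (i, t)`, `f v = (i, t + 1)` then `d i (t + 1) = d i t + 1`.
-/

set_option autoImplicit false

namespace Pool.Agent.Work.MP_f63b47_lc.GD

open SimpleGraph Pool.Agent.Work.MP_f63b47_lc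

/-- the rank of `a` -/
private def rk {α : Type} [LinearOrder α] (S : Finset α) (a : α) : ℕ := (S.filter (· < a)).card

private theorem rk_lt {α : Type} [LinearOrder α] {S : Finset α} {a : α} (h : a ∈ S) :
    rk S a < S.card := by
  apply Finset.card_lt_card
  rw [Finset.filter_ssubset]
  exact ⟨a, h, lt_irrefl a⟩

private theorem rk_strict {α : Type} [LinearOrder α] {S : Finset α} {a b : α} (h : a ∈ S)
    (hab : a < b) : rk S a < rk S b := by
  apply Finset.card_lt_card
  rw [Finset.ssubset_iff_of_subset]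
  · exact ⟨a, Finset.mem_filter.2 ⟨h, hab⟩, fun h2 => lt_irrefl a (Finset.mem_filter.1 h2).2⟩
  · intro c hc
    obtain ⟨h1, h2⟩ := Finset.mem_filter.1 hc
    exact Finset.mem_filter.2 ⟨h1, lt_trans h2 hab⟩

private theorem rk_inj {α : Type} [LinearOrder α] {S : Finset α} {a b : α} (ha : a ∈ S)
    (hb : b ∈ S) (h : rk S a = rk S b) : a = b := by
  rcases lt_trichotomy a b with h1 | h1 | h1
  · exact absurd h (ne_of_lt (rk_strict ha h1))
  · exact h1
  · exact absurd h.symm (ne_of_lt (rk_strict hb h1))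

private theorem rk_succ {α : Type} [LinearOrder α] {S : Finset α} {a b : α} (ha : a ∈ S)
    (h : ∀ c, c < b ↔ c ≤ a) : rk S b = rk S a + 1 := by
  have h1 : S.filter (· < b) = insert a (S.filter (· < a)) := by
    ext c
    rw [Finset.mem_filter, Finset.mem_insert, Finset.mem_filter]
    constructor
    · rintro ⟨h2, h3⟩
      rcases lt_or_eq_of_le ((h c).1 h3) with h4 | h4
      · exact Or.inr ⟨h2, h4⟩
      · exact Or.inl h4
    · rintro (h2 | ⟨h2, h3⟩)
      · rw [h2]
        exact ⟨ha, (h a).2 le_rfl⟩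
      · exact ⟨h2, (h c).2 h3.le⟩
  unfold rk
  rw [h1, Finset.card_insert_of_notMem]
  intro h2
  exact lt_irrefl a (Finset.mem_filter.1 h2).2

private theorem rk_zero (T : Finset ℕ) : rk T 0 = 0 := by
  unfold rk
  rw [Finset.card_eq_zero, Finset.filter_eq_empty_iff]
  intro x _
  exact Nat.not_lt_zero x

theorem comb_fin {n : ℕ} (F : SimpleGraph (Fin n)) (h : F ⊑ Comb) : F ⊑ FinComb n n := by
  classical
  obtain ⟨f⟩ := h
  let X : Finset (ℤ × ℕ) := Finset.univ.image f
  let S : Finset ℤ := X.image Prod.fst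
  let T : ℤ → Finset ℕ := fun i => (X.filter fun x => x.1 = i).image Prod.snd
  have hXn : X.card ≤ n := by
    refine le_trans Finset.card_image_le ?_
    rw [Finset.card_univ, Fintype.card_fin]
  have hfX : ∀ u, f u ∈ X := fun u => Finset.mem_image_of_mem _ (Finset.mem_univ u)
  have hS : ∀ u, (f u).1 ∈ S := fun u => Finset.mem_image_of_mem _ (hfX u)
  have hT : ∀ u, (f u).2 ∈ T (f u).1 := fun u =>
    Finset.mem_image.2 ⟨f u, Finset.mem_filter.2 ⟨hfX u, rfl⟩, rfl⟩
  have hSn : S.card ≤ n := le_trans Finset.card_image_le hXn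
  have hTn : ∀ i, (T i).card ≤ n := fun i =>
    le_trans Finset.card_image_le (le_trans (Finset.card_filter_le _ _) hXn)
  have hc : ∀ u, rk S (f u).1 < n := fun u => lt_of_lt_of_le (rk_lt (hS u)) hSn
  have hd : ∀ u, rk (T (f u).1) (f u).2 < n := fun u => lt_of_lt_of_le (rk_lt (hT u)) (hTn _)
  have hinj : ∀ u v, rk S (f u).1 = rk S (f v).1 →
      rk (T (f u).1) (f u).2 = rk (T (f v).1) (f v).2 → u = v := by
    intro u v h1 h2
    have h3 := rk_inj (hS u) (hS v) h1
    have h4 : (f v).2 ∈ T (f u).1 := by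
      rw [h3]
      exact hT v
    rw [← h3] at h2
    exact f.injective (Prod.ext h3 (rk_inj (hT u) h4 h2))
  refine ⟨⟨⟨fun u => (⟨rk S (f u).1, hc u⟩, ⟨rk (T (f u).1) (f u).2, hd u⟩), ?_⟩, ?_⟩⟩
  · intro u v huv
    have h1 : Comb.Adj (f u) (f v) := f.toHom.map_adj huv
    have h1 := (SimpleGraph.fromRel_adj _ _ _).1 h1
    refine (SimpleGraph.fromRel_adj _ _ _).2 ?_
    have key : ∀ a b : Fin n, (((f a).2 = 0 ∧ (f b).2 = 0 ∧ (f b).1 = (f a).1 + 1) ∨
        ((f a).1 = (f b).1 ∧ (f b).2 = (f a).2 + 1)) →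
        ((rk (T (f a).1) (f a).2 = 0 ∧ rk (T (f b).1) (f b).2 = 0 ∧
          rk S (f b).1 = rk S (f a).1 + 1) ∨
        ((⟨rk S (f a).1, hc a⟩ : Fin n) = ⟨rk S (f b).1, hc b⟩ ∧
          rk (T (f b).1) (f b).2 = rk (T (f a).1) (f a).2 + 1)) := by
      rintro a b (⟨e1, e2, e3⟩ | ⟨e1, e2⟩)
      · refine Or.inl ⟨?_, ?_, ?_⟩
        · rw [e1]
          exact rk_zero _
        · rw [e2]
          exact rk_zero _
        · rw [e3]
          exact rk_succ (hS a) fun c => Int.lt_add_one_iff
      · refine Or.inr ⟨?_, ?_⟩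
        · apply Fin.ext
          show rk S (f a).1 = rk S (f b).1
          rw [e1]
        · rw [← e1, e2]
          exact rk_succ (hT a) fun c => Nat.lt_succ_iff
    refine ⟨?_, ?_⟩
    · intro h2
      apply huv.ne
      obtain ⟨h3, h4⟩ := Prod.mk.inj h2
      exact hinj u v (congrArg Fin.val h3) (congrArg Fin.val h4)
    · rcases h1.2 with h2 | h2
      · exact Or.inl (key u v h2)
      · exact Or.inr (key v u h2)
  · intro u v huv
    obtain ⟨h3, h4⟩ := Prod.mk.inj huv
    exact hinj u v (congrArg Fin.val h3) (congrArg Fin.val h4)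

end Pool.Agent.Work.MP_f63b47_lc.GD
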