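import Pool.Agent.Work.MP_f63b47_lc.GD.GDefs

/-!
# GD/Cyc (size S): the list of the short cycles

`List.mem_map`, `List.mem_range'`. `nocyc_of`: the members `⟨k, cycleGraph k⟩`.
-/

set_option autoImplicit false

namespace Pool.Agent.Work.MP_f63b47_lc.GD

open SimpleGraph Pool.Agent.Work.MP_f63b47_lc

theorem mem_cycles {g : ℕ} {F : FG} :
    F ∈ cycles g ↔ ∃ k, 3 ≤ k ∧ k ≤ g ∧ F = ⟨k, cycleGraph k⟩ := by
  unfold cycles
  rw [List.mem_map]
  constructor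
  · rintro ⟨k, hk, rfl⟩
    rw [List.mem_range'_1] at hk
    exact ⟨k, hk.1, by omega, rfl⟩
  · rintro ⟨k, h1, h2, rfl⟩
    refine ⟨k, ?_, rfl⟩
    rw [List.mem_range'_1]
    omega

theorem nocyc_of {n g l : ℕ} {G : SimpleGraph (Fin n)} (h : ∀ F ∈ cycles g, F.2.Free G)
    (hl : l ≤ g) : NoCyc G l := by
  intro k h3 hk
  exact h ⟨k, cycleGraph k⟩ (mem_cycles.mpr ⟨k, h3, by omega, rfl⟩)

end Pool.Agent.Work.MP_f63b47_lc.GD
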