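import Pool.Agent.Work.MP_f63b47_lc.GD.GDefs

/-!
# GD/CycComb (size S-M): the comb has no cycles

Let `f` be a copy of `cycleGraph k`, `k ≥ 3`, in `Comb`. Every vertex of the image has two different neighbours in the image. Take a vertex `u` for which the second coordinate `s` of `f u = (i, s)` is
maximal. If `s > 0` its neighbours in the comb are `(i, s + 1)`, `(i, s - 1)`, so both are in the image, against the choice. So all second coordinates are `0`; now take `u` with maximal first
coordinate: the neighbours `(i + 1, 0)`, `(i - 1, 0)` (not `(i, 1)`) are both in the image. Contradiction. (`k = k' + 3`: `cycleGraph_degree_three_le`, or the two neighbours `u + 1 ≠ u - 1`.)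
-/

set_option autoImplicit false

namespace Pool.Agent.Work.MP_f63b47_lc.GD

open SimpleGraph Pool.Agent.Work.MP_f63b47_lc

theorem cyc_comb {k : ℕ} (hk : 3 ≤ k) : (cycleGraph k).Free Comb := by
  obtain ⟨k, rfl⟩ : ∃ j, k = j + 3 := ⟨k - 3, by omega⟩
  rintro ⟨f⟩
  have hadj : ∀ u v, (cycleGraph (k + 3)).Adj u v →
      ((f u).2 = 0 ∧ (f v).2 = 0 ∧ (f v).1 = (f u).1 + 1) ∨
      ((f u).1 = (f v).1 ∧ (f v).2 = (f u).2 + 1) ∨
      ((f v).2 = 0 ∧ (f u).2 = 0 ∧ (f u).1 = (f v).1 + 1) ∨
      ((f v).1 = (f u).1 ∧ (f u).2 = (f v).2 + 1) := by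
    intro u v huv
    have h1 : Comb.Adj (f u) (f v) := f.toHom.map_adj huv
    have h1 := (SimpleGraph.fromRel_adj _ _ _).1 h1
    rcases h1.2 with (h2 | h2) | (h2 | h2)
    · exact Or.inl h2
    · exact Or.inr (Or.inl h2)
    · exact Or.inr (Or.inr (Or.inl h2))
    · exact Or.inr (Or.inr (Or.inr h2))
  have hnb : ∀ u : Fin (k + 3), ∃ a b, a ≠ b ∧ (cycleGraph (k + 3)).Adj u a ∧
      (cycleGraph (k + 3)).Adj u b := by
    intro u
    refine ⟨u + 1, u - 1, ?_, ?_, ?_⟩
    · intro h
      have h2 : (1 : Fin (k + 3)) + 1 = 0 := by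
        have h3 : (1 : Fin (k + 3)) + 1 = (u + 1) - (u - 1) := by abel
        rw [h3, h, sub_self]
      have h3 := congrArg Fin.val h2
      rw [Fin.val_add, Fin.val_one, Fin.val_zero, Nat.mod_eq_of_lt (by omega)] at h3
      omega
    · rw [cycleGraph_adj]
      right
      abel
    · rw [cycleGraph_adj]
      left
      abel
  have hex : ∀ u : Fin (k + 3), (f u).2 = 0 := by
    obtain ⟨u, hu⟩ := Finite.exists_max fun u : Fin (k + 3) => (f u).2
    by_cases h0 : (f u).2 = 0
    · intro v
      have h1 := hu v
      omega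
    · exfalso
      obtain ⟨a, b, hab, ha, hb⟩ := hnb u
      have h1 := hu a
      have h2 := hu b
      have ka : (f a).1 = (f u).1 ∧ (f u).2 = (f a).2 + 1 := by
        rcases hadj u a ha with h | h | h | h
        · exact absurd h.1 h0
        · omega
        · exact absurd h.2.1 h0
        · exact h
      have kb : (f b).1 = (f u).1 ∧ (f u).2 = (f b).2 + 1 := by
        rcases hadj u b hb with h | h | h | h
        · exact absurd h.1 h0
        · omega
        · exact absurd h.2.1 h0
        · exact h
      have e1 : (f a).1 = (f b).1 := by omega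
      have e2 : (f a).2 = (f b).2 := by omega
      exact hab (f.injective (Prod.ext e1 e2))
  obtain ⟨u, hu⟩ := Finite.exists_max fun u : Fin (k + 3) => (f u).1
  obtain ⟨a, b, hab, ha, hb⟩ := hnb u
  have h1 := hu a
  have h2 := hu b
  have ka : (f u).1 = (f a).1 + 1 := by
    have h3 := hex a
    have h4 := hex u
    rcases hadj u a ha with h | h | h | h
    · omega
    · omega
    · exact h.2.2
    · omega
  have kb : (f u).1 = (f b).1 + 1 := by
    have h3 := hex b
    have h4 := hex u
    rcases hadj u b hb with h | h | h | h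
    · omega
    · omega
    · exact h.2.2
    · omega
  have e1 : (f a).1 = (f b).1 := by omega
  have e2 : (f a).2 = (f b).2 := by rw [hex a, hex b]
  exact hab (f.injective (Prod.ext e1 e2))

end Pool.Agent.Work.MP_f63b47_lc.GD
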