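import Pool.Agent.Work.MP_f63b47_lc.GD.GDefs
import Pool.Agent.Work.MP_f63b47_lc.SubCor
import Pool.Agent.Work.PolyTime.NPClose

/-!
# GD/Defs (FIXED: do not change; tell helper82 if something is wrong)

Hamiltonian cycles in graphs without subgraphs from a finite list of graphs.
-/

set_option autoImplicit false

namespace Pool.Agent.Work.MP_f63b47_lc.GD

open SimpleGraph Pool.Agent.Work.PolyTime Pool.Agent.Work.MP_f63b47_lc

/-- A number is written in unary, `n` as `1010...100`. -/
def encNum : ℕ → List Bool
  | 0 => [false]
  | n + 1 => true :: false :: encNum n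

/-- A list of edges is written by writing `1`, `1` and the two ends before each of its elements and
`0` at the end. -/
def encEdges : List (ℕ × ℕ) → List Bool
  | [] => [false]
  | e :: l => true :: ((true :: (encNum e.1 ++ encNum e.2)) ++ encEdges l)

/-- The bit string of a graph given by the number of vertices and the list of edges. -/
def encGraph (n : ℕ) (E : List (ℕ × ℕ)) : List Bool := true :: (encNum n ++ encEdges E)

/-- The decision problem: given a graph with no subgraph isomorphic to a member of the list `L`,
does it have a Hamiltonian cycle? (The set of the codes of the graphs with the answer yes.) -/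
def HC (L : List FG) : Set (List Bool) :=
  {w | ∃ (n : ℕ) (E : List (ℕ × ℕ)), w = encGraph n E ∧ (∀ F ∈ L, F.2.Free (graphOf n E)) ∧
    HasHamCycle (graphOf n E)}

/-- Completeness for NP under polynomial-time many-one reductions. -/
def NPComplete (A : Set (List Bool)) : Prop := InNP A ∧ NPHard A

/-! The algorithm. -/

/-- The adjacency of the graph given by a list. -/
def adjB (n : ℕ) (E : List (ℕ × ℕ)) (u v : ℕ) : Bool :=
  decide (u < n) && (decide (v < n) && (!decide (u = v) && (memB (u, v) E || memB (v, u) E)))

/-- The list of the neighbours. -/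
def nbs (n : ℕ) (E : List (ℕ × ℕ)) (u : ℕ) : List ℕ := (List.range n).filter fun v => adjB n E u v

/-- The test for `Bad`. -/
def badB (n : ℕ) (E : List (ℕ × ℕ)) (x y : ℕ) : Bool :=
  decide (2 ≤ ((nbs n E x).filter fun z =>
    !decide (z = y) && decide ((nbs n E z).length ≤ 2)).length)

/-- One round. -/
def stepE (n : ℕ) (E : List (ℕ × ℕ)) : List (ℕ × ℕ) :=
  E.filter fun e => !(badB n E e.1 e.2 || badB n E e.2 e.1)

/-- All rounds. -/
def redE (n : ℕ) (E : List (ℕ × ℕ)) : List (ℕ × ℕ) :=
  (List.range E.length).foldl (fun E' _ => stepE n E') E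

/-- The vertices in the component of `0`. -/
def reachE (n : ℕ) (E : List (ℕ × ℕ)) : List ℕ :=
  (List.range n).foldl (fun S _ => (List.range n).filter fun v =>
    memB v S || S.any fun u => adjB n E u v) [0]

/-- After the reduction all degrees are two and the graph is connected. -/
def decE (n : ℕ) (E : List (ℕ × ℕ)) : Bool :=
  decide (3 ≤ n) && ((List.range n).all (fun v => decide ((nbs n (redE n E) v).length = 2)) &&
    (List.range n).all fun v => memB v (reachE n (redE n E)))

/-- The edges that meet `ys` and are not in `S` are removed. -/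
def delE (E : List (ℕ × ℕ)) (ys : List ℕ) (S : List (ℕ × ℕ)) : List (ℕ × ℕ) :=
  E.filter fun e => (memB e S || memB (e.2, e.1) S) || (!memB e.1 ys && !memB e.2 ys)

end Pool.Agent.Work.MP_f63b47_lc.GD
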