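import Pool.Agent.Work.MP_f63b47_lc.GD.GDefs

/-!
# GD/Ext (size M-L): Hamiltonian paths in the extended gadget

`extF F a b N` has the vertices of `F` (numbers less than `r`) and a path `r, r + 1, …, r + N + 1`; `r` is joined to `a`, `r + N + 1` to `b`.
`ext_ham_a`: go along the path from `r` to `r + N + 1`, then to `b`, then along the Hamiltonian path of `F` from `b` to `c`. `ext_ham_b`: backwards from `r + N + 1` to `r`, then to `a`, then
from `a` to `c`. Convenient: first the lemma that `∃ p : G.Walk x y, p.IsHamiltonian` iff there is a list `l` without repetitions that contains all vertices, `l.IsChain G.Adj`, with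
first element `x` and last element `y` (from a walk take `support`; from a list build the walk by recursion), then work with lists: the old list mapped by `Fin.castLE`, preceded by
`(List.finRange (N + 2)).map fun t => r + t` or its reverse.
-/

set_option autoImplicit false

namespace Pool.Agent.Work.MP_f63b47_lc.GD

open SimpleGraph Pool.Agent.Work.MP_f63b47_lc


private theorem ham_of_list {V : Type} [DecidableEq V] {G : SimpleGraph V} (l : List V) {x y : V}
    (hc : l.IsChain G.Adj) (hn : l.Nodup) (hm : ∀ v, v ∈ l) (hx : l.head? = some x)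
    (hy : l.getLast? = some y) : ∃ p : G.Walk x y, p.IsHamiltonian := by
  have hne : l ≠ [] := by
    rintro rfl
    simp at hx
  have h1 : l.head hne = x := by
    rw [List.head?_eq_some_head hne] at hx
    exact Option.some.inj hx
  have h2 : l.getLast hne = y := by
    rw [List.getLast?_eq_some_getLast hne] at hy
    exact Option.some.inj hy
  subst h1
  subst h2
  refine ⟨Walk.ofSupport l hne hc, ?_⟩
  intro v
  rw [Walk.support_ofSupport]
  exact List.count_eq_one_of_mem hn (hm v)

/-- The new vertices. -/
private def nw (r N : ℕ) : List (Fin (r + N + 2)) :=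
  (List.finRange (N + 2)).map fun t : Fin (N + 2) => ⟨r + (t : ℕ), by have := t.2; omega⟩

private theorem nw_chain {r : ℕ} (F : SimpleGraph (Fin r)) (a b : Fin r) (N : ℕ) :
    (nw r N).IsChain (extF F a b N).Adj := by
  rw [List.isChain_iff_getElem]
  intro i hi
  have hi2 : i + 1 < N + 2 := by simpa [nw] using hi
  simp only [nw, List.getElem_map, List.getElem_finRange]
  rw [extF, fromRel_adj]
  refine ⟨?_, Or.inl (Or.inr (Or.inr (Or.inr ⟨?_, ?_⟩)))⟩
  · intro h
    have := congrArg Fin.val h
    simp at this
  · simp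
  · simp
    omega

private theorem nw_nodup (r N : ℕ) : (nw r N).Nodup := by
  refine List.Nodup.map ?_ (List.nodup_finRange _)
  intro s t h
  have := congrArg Fin.val h
  simp at this
  exact Fin.ext this

private theorem nw_head (r N : ℕ) : (nw r N).head? = some ⟨r, by omega⟩ := by
  simp [nw, List.finRange_succ]

private theorem nw_last (r N : ℕ) : (nw r N).getLast? = some ⟨r + N + 1, by omega⟩ := by
  simp [nw, List.finRange_succ_last]
  omega

private theorem mem_nw {r N : ℕ} (v : Fin (r + N + 2)) : v ∈ nw r N ↔ r ≤ (v : ℕ) := by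
  simp only [nw, List.mem_map, List.mem_finRange, true_and]
  constructor
  · rintro ⟨t, rfl⟩
    simp
  · intro h
    exact ⟨⟨v - r, by have := v.2; omega⟩, Fin.ext (by simp; omega)⟩

/-- The old vertices. -/
private def od {r : ℕ} (N : ℕ) (v : Fin r) : Fin (r + N + 2) := ⟨v, by have := v.2; omega⟩

private theorem od_inj {r N : ℕ} {u v : Fin r} (h : od N u = od N v) : u = v :=
  Fin.ext (Fin.mk.inj h)

private theorem od_chain {r : ℕ} {F : SimpleGraph (Fin r)} (a b : Fin r) (N : ℕ)
    {l : List (Fin r)} (h : l.IsChain F.Adj) :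
    (l.map (od N)).IsChain (extF F a b N).Adj := by
  rw [List.isChain_map]
  refine h.imp ?_
  intro u v huv
  rw [extF, fromRel_adj]
  refine ⟨?_, Or.inl (Or.inl ⟨u.2, v.2, huv⟩)⟩
  intro h
  exact huv.ne (od_inj h)

private theorem ext_main {r : ℕ} {F : SimpleGraph (Fin r)} {a b c z : Fin r} (N : ℕ)
    (l : List (Fin (r + N + 2))) (hl : l.IsChain (extF F a b N).Adj) (hn : l.Nodup)
    (hm : ∀ v, v ∈ l ↔ r ≤ (v : ℕ)) {x y : Fin (r + N + 2)} (hx : l.head? = some x)
    (hy : l.getLast? = some y) (hyz : (extF F a b N).Adj y (od N z))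
    (h : ∃ p : F.Walk z c, p.IsHamiltonian) :
    ∃ p : (extF F a b N).Walk x (od N c), p.IsHamiltonian := by
  obtain ⟨p, hp⟩ := h
  refine ham_of_list (l ++ p.support.map (od N)) ?_ ?_ ?_ ?_ ?_
  · rw [List.isChain_append]
    refine ⟨hl, od_chain a b N p.isChain_adj_support, ?_⟩
    intro u hu v hv
    rw [hy] at hu
    have h1 : (p.support.map (od N)).head? = some (od N z) := by
      rw [List.head?_map, List.head?_eq_some_head p.support_ne_nil, Walk.head_support]
      rfl
    rw [h1] at hv
    simp only [Option.mem_def, Option.some.injEq] at hu hv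
    rw [← hu, ← hv]
    exact hyz
  · rw [List.nodup_append]
    refine ⟨hn, ?_, ?_⟩
    · refine List.Nodup.map ?_ hp.isPath.support_nodup
      intro s t h
      exact od_inj h
    · intro u hu v hv
      rw [hm] at hu
      rw [List.mem_map] at hv
      obtain ⟨w, -, rfl⟩ := hv
      rintro rfl
      have := w.2
      simp only [od] at hu
      omega
  · intro v
    rw [List.mem_append, hm]
    rcases Nat.lt_or_ge (v : ℕ) r with h | h
    · right
      rw [List.mem_map]
      exact ⟨⟨v, h⟩, hp.mem_support _, rfl⟩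
    · exact Or.inl h
  · rw [List.head?_append, hx]
    rfl
  · rw [List.getLast?_append_of_ne_nil _ (by simp), List.getLast?_map,
      List.getLast?_eq_some_getLast p.support_ne_nil, Walk.getLast_support]
    rfl

theorem ext_ham_a {r : ℕ} {F : SimpleGraph (Fin r)} {a b c : Fin r} (N : ℕ)
    (h : ∃ p : F.Walk b c, p.IsHamiltonian) :
    ∃ p : (extF F a b N).Walk ⟨r, by omega⟩ ⟨c, by have := c.2; omega⟩, p.IsHamiltonian := by
  refine ext_main N (nw r N) (nw_chain F a b N) (nw_nodup r N) mem_nw (nw_head r N)
    (nw_last r N) ?_ h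
  rw [extF, fromRel_adj]
  refine ⟨?_, Or.inr (Or.inr (Or.inr (Or.inl ⟨rfl, rfl⟩)))⟩
  intro h
  have h1 : r + N + 1 = (b : ℕ) := Fin.mk.inj h
  have := b.2
  omega

theorem ext_ham_b {r : ℕ} {F : SimpleGraph (Fin r)} {a b c : Fin r} (N : ℕ)
    (h : ∃ p : F.Walk a c, p.IsHamiltonian) :
    ∃ p : (extF F a b N).Walk ⟨r + N + 1, by omega⟩ ⟨c, by have := c.2; omega⟩,
      p.IsHamiltonian := by
  refine ext_main N (nw r N).reverse ?_ (List.nodup_reverse.2 (nw_nodup r N)) ?_
    (x := ⟨r + N + 1, by omega⟩) (y := ⟨r, by omega⟩) ?_ ?_ ?_ h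
  · rw [List.isChain_reverse]
    exact (nw_chain F a b N).imp fun u v h => h.symm
  · intro v
    rw [List.mem_reverse, mem_nw]
  · rw [List.head?_reverse, nw_last]
  · rw [List.getLast?_reverse, nw_head]
  · rw [extF, fromRel_adj]
    refine ⟨?_, Or.inr (Or.inr (Or.inl ⟨rfl, rfl⟩))⟩
    intro h
    have h1 : r = (a : ℕ) := Fin.mk.inj h
    have := a.2
    omega

end Pool.Agent.Work.MP_f63b47_lc.GD
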