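import Pool.Agent.Work.MP_f63b47_lc.SubDefs

/-!
# GD/GDefs (FIXED: do not change; tell helper82 if something is wrong): graphs
-/

set_option autoImplicit false

namespace Pool.Agent.Work.MP_f63b47_lc.GD

open SimpleGraph Pool.Agent.Work.MP_f63b47_lc

/-- A finite graph, with vertices `0, …, n - 1`. -/
abbrev FG : Type := (n : ℕ) × SimpleGraph (Fin n)

/-- The cycles `C_3, …, C_g`. -/
def cycles (g : ℕ) : List FG := (List.range' 3 (g - 2)).map fun k => ⟨k, cycleGraph k⟩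

/-- The infinite comb: the vertices `(i, 0)`, `i` an integer, form a two-way infinite path, and an
infinite path `(i, 0), (i, 1), (i, 2), …` starts at each of them. -/
def Comb : SimpleGraph (ℤ × ℕ) :=
  SimpleGraph.fromRel fun x y =>
    (x.2 = 0 ∧ y.2 = 0 ∧ y.1 = x.1 + 1) ∨ (x.1 = y.1 ∧ y.2 = x.2 + 1)

/-- The full caterpillar: the vertices `inl 0, …, inl (j + 2)` form a path, and the leaf `inr i` is
joined to `inl (i + 1)`, for `i = 0, …, j`. -/
def BTree (j : ℕ) : SimpleGraph (Fin (j + 3) ⊕ Fin (j + 1)) :=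
  SimpleGraph.fromRel fun x y =>
    (∃ a b : Fin (j + 3), x = Sum.inl a ∧ y = Sum.inl b ∧ (a : ℕ) + 1 = b) ∨
    (∃ (a : Fin (j + 3)) (b : Fin (j + 1)), x = Sum.inl a ∧ y = Sum.inr b ∧ (a : ℕ) = b + 1)

/-- `F'` is a connected component of `F`. -/
def Comp (F F' : FG) : Prop := F'.2.Connected ∧ ∃ R : FG, Nonempty (F.2 ≃g F'.2 ⊕g R.2)

/-! ## auxiliary definitions -/

/-- The finite comb with `m` teeth, each with `r` vertices. -/
def FinComb (m r : ℕ) : SimpleGraph (Fin m × Fin r) :=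
  SimpleGraph.fromRel fun x y =>
    ((x.2 : ℕ) = 0 ∧ (y.2 : ℕ) = 0 ∧ (y.1 : ℕ) = x.1 + 1) ∨ (x.1 = y.1 ∧ (y.2 : ℕ) = x.2 + 1)

/-- The disjoint union of infinitely many `m`-suns. -/
def MSuns (m : ℕ) : SimpleGraph (ℕ × ZMod m × ℕ) :=
  SimpleGraph.fromRel fun x y => x.1 = y.1 ∧
    ((x.2.2 = 0 ∧ y.2.2 = 0 ∧ y.2.1 = x.2.1 + 1) ∨ (x.2.1 = y.2.1 ∧ y.2.2 = x.2.2 + 1))

/-- Two new vertices `r` and `r + N + 1` are joined to `a` and `b` and to each other by a path with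
`N` new vertices `r + 1, …, r + N`. -/
def extF {r : ℕ} (F : SimpleGraph (Fin r)) (a b : Fin r) (N : ℕ) : SimpleGraph (Fin (r + N + 2)) :=
  SimpleGraph.fromRel fun u v =>
    (∃ (hu : (u : ℕ) < r) (hv : (v : ℕ) < r), F.Adj ⟨u, hu⟩ ⟨v, hv⟩) ∨
    ((u : ℕ) = a ∧ (v : ℕ) = r) ∨ ((u : ℕ) = b ∧ (v : ℕ) = r + N + 1) ∨
    (r ≤ (u : ℕ) ∧ (v : ℕ) = u + 1)

/-- The vertex `x` has two neighbours different from `y` of degree at most two. -/
def Bad {V : Type} (G : SimpleGraph V) (x y : V) : Prop :=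
  ∃ a b, a ≠ b ∧ a ≠ y ∧ b ≠ y ∧ G.Adj x a ∧ G.Adj x b ∧
    (G.neighborSet a).ncard ≤ 2 ∧ (G.neighborSet b).ncard ≤ 2

/-- One round of the reduction: the edges `x y` for which `Bad x y` or `Bad y x` holds are
removed. -/
def Rd {V : Type} (G : SimpleGraph V) : SimpleGraph V where
  Adj x y := G.Adj x y ∧ ¬ Bad G x y ∧ ¬ Bad G y x
  symm := ⟨fun _ _ h => ⟨h.1.symm, h.2.2, h.2.1⟩⟩
  loopless := ⟨fun _ h => h.1.ne rfl⟩

/-- Nothing can be removed. -/
def Stab {V : Type} (G : SimpleGraph V) : Prop := ∀ x y, G.Adj x y → ¬ Bad G x y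

/-- All vertices have degree two. -/
def Two {V : Type} (C : SimpleGraph V) : Prop := ∀ v, (C.neighborSet v).ncard = 2

/-- No cycle of length at most `L`. -/
def NoCyc {V : Type} (G : SimpleGraph V) (L : ℕ) : Prop :=
  ∀ k, 3 ≤ k → k ≤ L → (cycleGraph k).Free G

/-- All edges of `G` that meet `Y` are removed, except those of `C`. -/
def Del {V : Type} (G C : SimpleGraph V) (Y : Set V) : SimpleGraph V where
  Adj u v := G.Adj u v ∧ (C.Adj u v ∨ (u ∉ Y ∧ v ∉ Y))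
  symm := ⟨fun _ _ h => ⟨h.1.symm, h.2.imp (fun h => h.symm) fun h => ⟨h.2, h.1⟩⟩⟩
  loopless := ⟨fun _ h => h.1.ne rfl⟩

end Pool.Agent.Work.MP_f63b47_lc.GD
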