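import Pool.Agent.Work.MP_f63b47_lc.GD.GDefs
import Pool.Agent.Work.MP_f63b47_lc.HT

/-!
# GD/HTSun (size M-L): the trees in the suns

The proof of `htree_free` in `Pool/Agent/Work/MP_f63b47_lc/HT.lean` (the case of the octagon) with `ZMod m` instead of `Fin 8`. Let `f` be a copy of `HTree j` in `MSuns m`. A vertex with three different
neighbours has height `0` (second lemma there); so `f 0` and `f j` have height `0`, hence (maximal height on the path) all `f i`, `i ≤ j`, have height `0` and are in one sun: `f i = (x, p i, 0)` with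
`p (i + 1) = p i ± 1`, and `p (i + 2) ≠ p i`, so `p i = p 0 + ε i` with `ε = 1` or `ε = -1` (induction). The three neighbours of `(x, p 0, 0)` are `(x, p 0 ± 1, 0)` and `(x, p 0, 1)`, and the
images of `1`, `j + 1`, `j + 2` are different neighbours, so `(x, p 0 - ε, 0)` is the image of `j + 1` or `j + 2`; similarly `(x, p 0 + ε (j + 1), 0)` is the image of `j + 3` or `j + 4`. So
the `j + 3` elements `p 0 - ε, p 0, …, p 0 + ε (j + 1)` of `ZMod m` are different and `j + 3 ≤ m`.
-/

set_option autoImplicit false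

namespace Pool.Agent.Work.MP_f63b47_lc.GD

open SimpleGraph Pool.Agent.Work.MP_f63b47_lc

/-- adjacency in `MSuns` in the form used for `Suns` -/
private theorem htSun_adj {m : ℕ} {x y : ℕ × ZMod m × ℕ} (h : (MSuns m).Adj x y) : x.1 = y.1 ∧
    ((x.2.2 = 0 ∧ y.2.2 = 0 ∧ (y.2.1 = x.2.1 + 1 ∨ x.2.1 = y.2.1 + 1)) ∨
      (x.2.1 = y.2.1 ∧ (y.2.2 = x.2.2 + 1 ∨ x.2.2 = y.2.2 + 1))) := by
  rw [MSuns, SimpleGraph.fromRel_adj] at h
  obtain ⟨-, ⟨h1, h2⟩ | ⟨h1, h2⟩⟩ := h
  · refine ⟨h1, ?_⟩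
    rcases h2 with ⟨h3, h4, h5⟩ | ⟨h3, h4⟩
    · exact Or.inl ⟨h3, h4, Or.inl h5⟩
    · exact Or.inr ⟨h3, Or.inl h4⟩
  · refine ⟨h1.symm, ?_⟩
    rcases h2 with ⟨h3, h4, h5⟩ | ⟨h3, h4⟩
    · exact Or.inl ⟨h4, h3, Or.inr h5⟩
    · exact Or.inr ⟨h3.symm, Or.inr h4⟩

private theorem htSun_pos {m : ℕ} {x y : ℕ × ZMod m × ℕ} (h : (MSuns m).Adj x y) (hx : 0 < x.2.2) :
    y = (x.1, x.2.1, x.2.2 - 1) ∨ y = (x.1, x.2.1, x.2.2 + 1) := by
  obtain ⟨h1, h2⟩ := htSun_adj h
  obtain ⟨a, i, s⟩ := x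
  obtain ⟨b, k, t⟩ := y
  simp only at h1 h2 hx ⊢
  rcases h2 with ⟨h3, -⟩ | ⟨h3, h4⟩
  · omega
  · subst h1; subst h3
    rcases h4 with h4 | h4
    · right; rw [h4]
    · left; rw [h4]; simp

private theorem htSun_up {m : ℕ} {x y : ℕ × ZMod m × ℕ} (h : (MSuns m).Adj x y) (hx : x.2.2 = 0)
    (hy : 0 < y.2.2) : y = (x.1, x.2.1, 1) := by
  obtain ⟨h1, h2⟩ := htSun_adj h
  obtain ⟨a, i, s⟩ := x
  obtain ⟨b, k, t⟩ := y
  simp only at h1 h2 hx hy ⊢
  rcases h2 with ⟨h3, h4, -⟩ | ⟨h3, h4⟩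
  · omega
  · subst h1; subst h3
    rcases h4 with h4 | h4
    · subst hx; rw [h4]
    · omega

private theorem htSun_three {m : ℕ} {x y z w : ℕ × ZMod m × ℕ} (h1 : (MSuns m).Adj x y) (h2 : (MSuns m).Adj x z)
    (h3 : (MSuns m).Adj x w) (n1 : y ≠ z) (n2 : y ≠ w) (n3 : z ≠ w) : x.2.2 = 0 := by
  by_contra h0
  have hp : 0 < x.2.2 := Nat.pos_of_ne_zero h0
  rcases htSun_pos h1 hp with a | a <;> rcases htSun_pos h2 hp with b | b <;>
    rcases htSun_pos h3 hp with c | c
  all_goals first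
    | exact n1 (a.trans b.symm)
    | exact n2 (a.trans c.symm)
    | exact n3 (b.trans c.symm)

theorem htree_msuns {j m : ℕ} (hj : 1 ≤ j) (hm : 3 ≤ m) (hjm : m < j + 3) :
    (HTree j).Free (MSuns m) := by
  rintro ⟨f⟩
  have finj : ∀ (a b : ℕ) (ha : a < j + 5) (hb : b < j + 5), a ≠ b → f ⟨a, ha⟩ ≠ f ⟨b, hb⟩ := by
    intro a b ha hb hab he
    have := f.injective he
    exact hab (by simpa using this)
  have fadj : ∀ (a b : ℕ) (ha : a < j + 5) (hb : b < j + 5),
      (a + 1 = b ∧ b ≤ j) ∨ (a = 0 ∧ (b = j + 1 ∨ b = j + 2)) ∨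
        (a = j ∧ (b = j + 3 ∨ b = j + 4)) → (MSuns m).Adj (f ⟨a, ha⟩) (f ⟨b, hb⟩) := by
    intro a b ha hb hab
    apply f.toHom.map_adj
    rw [HTree, SimpleGraph.fromRel_adj]
    refine ⟨?_, Or.inl hab⟩
    intro he
    have : a = b := by simpa using he
    omega
  have h0 : (f ⟨0, by omega⟩).2.2 = 0 := by
    refine htSun_three (fadj 0 1 (by omega) (by omega) (by omega))
      (fadj 0 (j + 1) (by omega) (by omega) (by omega))
      (fadj 0 (j + 2) (by omega) (by omega) (by omega)) ?_ ?_ ?_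
    all_goals (apply finj; omega)
  have hjj : (f ⟨j, by omega⟩).2.2 = 0 := by
    refine htSun_three (fadj (j - 1) j (by omega) (by omega) (by omega)).symm
      (fadj j (j + 3) (by omega) (by omega) (by omega))
      (fadj j (j + 4) (by omega) (by omega) (by omega)) ?_ ?_ ?_
    all_goals (apply finj; omega)
  -- all path vertices have height zero
  have hall : ∀ k (hk : k < j + 1), (f ⟨k, by omega⟩).2.2 = 0 := by
    obtain ⟨k, hk⟩ := Finite.exists_max (fun k : Fin (j + 1) => (f ⟨k, by omega⟩).2.2)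
    have hz : (f ⟨k, by omega⟩).2.2 = 0 := by
      by_contra hne
      have hp : 0 < (f ⟨k, by omega⟩).2.2 := Nat.pos_of_ne_zero hne
      have hk0 : (k : ℕ) ≠ 0 := by
        intro h
        apply hne
        simpa [h] using h0
      have hkj : (k : ℕ) ≠ j := by
        intro h
        apply hne
        simpa [h] using hjj
      have hk2 := k.2
      have a1 := fadj (k - 1) k (by omega) (by omega) (by omega)
      have a2 := fadj k (k + 1) (by omega) (by omega) (by omega)
      have m1 := hk ⟨k - 1, by omega⟩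
      have m2 := hk ⟨k + 1, by omega⟩
      simp only at m1 m2
      have e1 := htSun_pos a1.symm hp
      have e2 := htSun_pos a2 hp
      have e1' := e1.resolve_right (by
        intro h
        rw [h] at m1
        simp only at m1
        omega)
      have e2' := e2.resolve_right (by
        intro h
        rw [h] at m2
        simp only at m2
        omega)
      exact finj (k - 1) (k + 1) (by omega) (by omega) (by omega) (e1'.trans e2'.symm)
    intro i hi
    have := hk ⟨i, hi⟩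
    simp only at this
    omega
  -- all in the same sun
  have hsame : ∀ k (hk : k < j + 1), (f ⟨k, by omega⟩).1 = (f ⟨0, by omega⟩).1 := by
    intro k
    induction k with
    | zero => intro _; rfl
    | succ k ih =>
      intro hk
      rw [← ih (by omega)]
      exact (htSun_adj (fadj k (k + 1) (by omega) (by omega) (by omega))).1.symm
  -- a leaf of height zero at each end
  obtain ⟨u, hu, hu5, hu0⟩ : ∃ u, (u = j + 1 ∨ u = j + 2) ∧ ∃ h : u < j + 5,
      (f ⟨u, h⟩).2.2 = 0 := by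
    by_contra hcon
    push Not at hcon
    have p1 := Nat.pos_of_ne_zero (hcon (j + 1) (Or.inl rfl) (by omega))
    have p2 := Nat.pos_of_ne_zero (hcon (j + 2) (Or.inr rfl) (by omega))
    have q1 := htSun_up (fadj 0 (j + 1) (by omega) (by omega) (by omega)) h0 p1
    have q2 := htSun_up (fadj 0 (j + 2) (by omega) (by omega) (by omega)) h0 p2
    exact finj (j + 1) (j + 2) (by omega) (by omega) (by omega) (q1.trans q2.symm)
  obtain ⟨w, hw, hw5, hw0⟩ : ∃ w, (w = j + 3 ∨ w = j + 4) ∧ ∃ h : w < j + 5,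
      (f ⟨w, h⟩).2.2 = 0 := by
    by_contra hcon
    push Not at hcon
    have p1 := Nat.pos_of_ne_zero (hcon (j + 3) (Or.inl rfl) (by omega))
    have p2 := Nat.pos_of_ne_zero (hcon (j + 4) (Or.inr rfl) (by omega))
    have q1 := htSun_up (fadj j (j + 3) (by omega) (by omega) (by omega)) hjj p1
    have q2 := htSun_up (fadj j (j + 4) (by omega) (by omega) (by omega)) hjj p2
    exact finj (j + 3) (j + 4) (by omega) (by omega) (by omega) (q1.trans q2.symm)
  have hu1 : (f ⟨u, hu5⟩).1 = (f ⟨0, by omega⟩).1 :=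
    (htSun_adj (fadj 0 u (by omega) hu5 (by omega))).1.symm
  have hw1 : (f ⟨w, hw5⟩).1 = (f ⟨0, by omega⟩).1 := by
    rw [← hsame j (by omega)]
    exact (htSun_adj (fadj j w (by omega) hw5 (by omega))).1.symm
  -- the index function
  have hidx : ∀ k : Fin (j + 3), (if (k : ℕ) ≤ j then (k : ℕ) else if (k : ℕ) = j + 1 then u else w)
      < j + 5 := by
    intro k
    split_ifs <;> omega
  let g : Fin (j + 3) → ZMod m := fun k =>
    (f ⟨if (k : ℕ) ≤ j then (k : ℕ) else if (k : ℕ) = j + 1 then u else w, hidx k⟩).2.1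
  have hprop : ∀ k : Fin (j + 3),
      (f ⟨if (k : ℕ) ≤ j then (k : ℕ) else if (k : ℕ) = j + 1 then u else w, hidx k⟩).1
        = (f ⟨0, by omega⟩).1 ∧
      (f ⟨if (k : ℕ) ≤ j then (k : ℕ) else if (k : ℕ) = j + 1 then u else w, hidx k⟩).2.2 = 0 := by
    intro k
    by_cases h1 : (k : ℕ) ≤ j
    · simp only [h1, if_true]
      exact ⟨hsame k (by omega), hall k (by omega)⟩
    · by_cases h2 : (k : ℕ) = j + 1
      · have h3 : ¬ (j + 1 ≤ j) := by omega
        simp only [h2, h3, if_true, if_false]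
        exact ⟨hu1, hu0⟩
      · simp only [h1, h2, if_false]
        exact ⟨hw1, hw0⟩
  have hg : Function.Injective g := by
    intro a b hab
    have ha := hprop a
    have hb := hprop b
    by_contra hne
    have hne' : (a : ℕ) ≠ b := fun h => hne (Fin.ext h)
    refine finj _ _ (hidx a) (hidx b) ?_ ?_
    · have := a.2
      have := b.2
      split_ifs <;> omega
    · refine Prod.ext (ha.1.trans hb.1.symm) (Prod.ext hab (ha.2.trans hb.2.symm))
  have : NeZero m := ⟨by omega⟩
  have hcard := Fintype.card_le_of_injective g hg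
  rw [Fintype.card_fin, ZMod.card] at hcard
  omega

end Pool.Agent.Work.MP_f63b47_lc.GD
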