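import Pool.Agent.Work.MP_f63b47_lc.GD.GDefs

/-!
# GD/Keep (size S-M): a 2-factor survives the reduction

Let `C.Adj x y` and suppose `Bad G x y` with `a`, `b`. `C.neighborSet a ⊆ G.neighborSet a`, the first has two elements, the second at most two (and is finite), so
they are equal (`Set.eq_of_subset_of_ncard_le`); as `x` is a neighbour of `a` in `G` it is one in `C`. The same for `b`. So `y, a, b` are three different
neighbours of `x` in `C`, against `Two C`. By symmetry `¬ Bad G y x`.
`min_two`: `C.neighborSet v ⊆ G.neighborSet v`.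
-/

set_option autoImplicit false

namespace Pool.Agent.Work.MP_f63b47_lc.GD

open SimpleGraph Pool.Agent.Work.MP_f63b47_lc

private theorem keep_aux {V : Type} [Finite V] {G C : SimpleGraph V} (hC : C ≤ G) (h2 : Two C)
    {x y : V} (hxy : C.Adj x y) : ¬ Bad G x y := by
  rintro ⟨a, b, hab, hay, hby, hxa, hxb, ha, hb⟩
  have key : ∀ c, G.Adj x c → (G.neighborSet c).ncard ≤ 2 → C.Adj x c := by
    intro c hxc hc
    have hsub : C.neighborSet c ⊆ G.neighborSet c := fun z hz => hC hz
    have heq : C.neighborSet c = G.neighborSet c :=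
      Set.eq_of_subset_of_ncard_le hsub (by rw [h2 c]; exact hc) (Set.toFinite _)
    have h3 : x ∈ G.neighborSet c := hxc.symm
    rw [← heq] at h3
    exact C.symm.symm _ _ h3
  have h4 : ({y, a, b} : Set V) ⊆ C.neighborSet x := by
    intro z hz
    rcases hz with rfl | rfl | rfl
    · exact hxy
    · exact key _ hxa ha
    · exact key _ hxb hb
  have h5 : ({y, a, b} : Set V).ncard = 3 := by
    rw [Set.ncard_eq_three]
    exact ⟨y, a, b, hay.symm, hby.symm, hab, rfl⟩
  have h6 := Set.ncard_le_ncard h4 (Set.toFinite _)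
  rw [h5, h2 x] at h6
  omega

theorem keep {V : Type} [Finite V] {G C : SimpleGraph V} (hC : C ≤ G) (h2 : Two C) : C ≤ Rd G :=
  fun _ _ h => ⟨hC h, keep_aux hC h2 h, keep_aux hC h2 h.symm⟩

theorem min_two {V : Type} [Finite V] {G C : SimpleGraph V} (hC : C ≤ G) (h2 : Two C) (v : V) :
    2 ≤ (G.neighborSet v).ncard := by
  rw [← h2 v]
  exact Set.ncard_le_ncard (fun z hz => hC hz) (Set.toFinite _)

end Pool.Agent.Work.MP_f63b47_lc.GD
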