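import Pool.Agent.Work.MP_f63b47_lc.GD.GDefs

/-!
# GD/MComb (size M): small subgraphs of the disjoint union of m-suns lie in the comb

Let `f` be the injection, `q < m` vertices. For every copy `x` some vertex `(x, c x, 0)` of the `m`-gon is not in the image of `f` (there are `m` of them). A vertex `(x, i, s)` with
`d = (i - c x).val` (in `ZMod m`, `0 ≤ d < m`) goes to `(x * m + d, s)` (first coordinate an integer). For vertices with `s = 0` in the image of `f`: `d ≠ 0`. Injective: `x` and `d` are determined by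
`x * m + d`. Adjacency: if `s = t = 0` and `i' = i + 1` then `d' ≠ 0` and `d' = d + 1` (in `ZMod m`, `(u + 1).val = u.val + 1` unless it is `0`), so the images are `(z, 0)`, `(z + 1, 0)`; the
edges of the rays are clear.
-/

set_option autoImplicit false

namespace Pool.Agent.Work.MP_f63b47_lc.GD

open SimpleGraph Pool.Agent.Work.MP_f63b47_lc

private theorem val_succ {m : ℕ} [NeZero m] (hm : 1 < m) {u : ZMod m} (h : u + 1 ≠ 0) :
    (u + 1).val = u.val + 1 := by
  have hf : Fact (1 < m) := ⟨hm⟩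
  have h1 : (u + 1).val = (u.val + 1) % m := by
    rw [ZMod.val_add, ZMod.val_one]
  have h2 := ZMod.val_lt u
  have h3 : (u + 1).val ≠ 0 := fun h4 => h ((ZMod.val_eq_zero _).1 h4)
  by_cases h4 : u.val + 1 < m
  · rw [h1, Nat.mod_eq_of_lt h4]
  · have h5 : u.val + 1 = m := by omega
    rw [h1, h5, Nat.mod_self] at h3
    exact absurd rfl h3

private theorem inj_aux {m q : ℕ} [NeZero m] {F : SimpleGraph (Fin q)} (f : F.Copy (MSuns m))
    (c : ZMod m) {u v : Fin q}
    (h : (((f u).1 : ℤ) * m + (((f u).2.1 - c).val : ℤ), (f u).2.2) =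
        (((f v).1 : ℤ) * m + (((f v).2.1 - c).val : ℤ), (f v).2.2)) : u = v := by
  obtain ⟨h1, h2⟩ := Prod.mk.inj h
  have hu := ZMod.val_lt ((f u).2.1 - c)
  have hv := ZMod.val_lt ((f v).2.1 - c)
  have h3 : (f u).1 * m + ((f u).2.1 - c).val = (f v).1 * m + ((f v).2.1 - c).val := by
    exact_mod_cast h1
  have hm : 0 < m := lt_of_le_of_lt (Nat.zero_le _) hu
  have h4 : (f u).1 = (f v).1 := by
    have e1 : ((f u).1 * m + ((f u).2.1 - c).val) / m =
        ((f v).1 * m + ((f v).2.1 - c).val) / m := by rw [h3]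
    rw [add_comm, Nat.add_mul_div_right _ _ hm, Nat.div_eq_of_lt hu, zero_add,
      add_comm, Nat.add_mul_div_right _ _ hm, Nat.div_eq_of_lt hv, zero_add] at e1
    exact e1
  have h5 : ((f u).2.1 - c).val = ((f v).2.1 - c).val := by
    rw [h4] at h3
    exact Nat.add_left_cancel h3
  have h6 : (f u).2.1 = (f v).2.1 := sub_left_injective (ZMod.val_injective m h5)
  exact f.injective (Prod.ext h4 (Prod.ext h6 h2))

theorem msuns_comb {m q : ℕ} (hm : 3 ≤ m) (hq : q < m) (F : SimpleGraph (Fin q))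
    (h : F ⊑ MSuns m) : F ⊑ Comb := by
  have hne : NeZero m := ⟨by omega⟩
  obtain ⟨f⟩ := h
  have hc : ∃ c : ZMod m, ∀ u : Fin q, (f u).2.1 ≠ c := by
    by_contra hcon
    push Not at hcon
    have hs : Function.Surjective fun u : Fin q => (f u).2.1 := hcon
    have h1 := Fintype.card_le_of_surjective _ hs
    rw [ZMod.card, Fintype.card_fin] at h1
    omega
  obtain ⟨c, hc⟩ := hc
  have hz : ∀ u : Fin q, (f u).2.1 - c ≠ 0 := fun u => sub_ne_zero.2 (hc u)
  refine ⟨⟨⟨fun u => (((f u).1 : ℤ) * m + (((f u).2.1 - c).val : ℤ), (f u).2.2), ?_⟩, ?_⟩⟩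
  · intro u v huv
    have h1 : (MSuns m).Adj (f u) (f v) := f.toHom.map_adj huv
    have h1 := (SimpleGraph.fromRel_adj _ _ _).1 h1
    refine (SimpleGraph.fromRel_adj _ _ _).2 ?_
    have key : ∀ a b : Fin q, (f a).1 = (f b).1 ∧
        (((f a).2.2 = 0 ∧ (f b).2.2 = 0 ∧ (f b).2.1 = (f a).2.1 + 1) ∨
          ((f a).2.1 = (f b).2.1 ∧ (f b).2.2 = (f a).2.2 + 1)) →
        (((f a).2.2 = 0 ∧ (f b).2.2 = 0 ∧
          ((f b).1 : ℤ) * m + (((f b).2.1 - c).val : ℤ) =
            ((f a).1 : ℤ) * m + (((f a).2.1 - c).val : ℤ) + 1) ∨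
          (((f a).1 : ℤ) * m + (((f a).2.1 - c).val : ℤ) =
            ((f b).1 : ℤ) * m + (((f b).2.1 - c).val : ℤ) ∧ (f b).2.2 = (f a).2.2 + 1)) := by
      rintro a b ⟨e1, ⟨e2, e3, e4⟩ | ⟨e2, e3⟩⟩
      · refine Or.inl ⟨e2, e3, ?_⟩
        have e5 : (f b).2.1 - c = ((f a).2.1 - c) + 1 := by
          rw [e4]
          ring
        have e6 : ((f b).2.1 - c).val = ((f a).2.1 - c).val + 1 := by
          have h2 := val_succ (by omega) (u := (f a).2.1 - c) (by rw [← e5]; exact hz b)
          rw [e5]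
          exact h2
        rw [e6, e1]
        push_cast
        ring
      · refine Or.inr ⟨?_, e3⟩
        rw [e1, e2]
    have hne2 : ¬ ((((f u).1 : ℤ) * m + (((f u).2.1 - c).val : ℤ), (f u).2.2) =
        (((f v).1 : ℤ) * m + (((f v).2.1 - c).val : ℤ), (f v).2.2)) := by
      intro h2
      apply huv.ne
      exact inj_aux f c h2
    refine ⟨hne2, ?_⟩
    rcases h1.2 with h2 | h2
    · exact Or.inl (key u v h2)
    · exact Or.inr (key v u h2)
  · intro u v huv
    exact inj_aux f c huv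

end Pool.Agent.Work.MP_f63b47_lc.GD
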