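import Pool.Agent.Work.MP_f63b47_lc.GD.MSpec

/-!
# GD/MReach (size M): reachability

Let `S k` be the list after `k` rounds (`reachE n E = S n`). All elements of `S k` are reachable from `0` (induction, `adjB_iff`; the elements are less than `n`). `S k` contains all vertices
at distance at most `k` from `0` (induction; an element of `S k` stays in `S (k + 1)` as it is less than `n`). A reachable vertex is at distance less than `n` (`SimpleGraph.Walk.IsPath.length_lt`
with `Walk.toPath`, or `SimpleGraph.Reachable.exists_path…`).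
-/

set_option autoImplicit false

namespace Pool.Agent.Work.MP_f63b47_lc.GD

open SimpleGraph Pool.Agent.Work.PolyTime Pool.Agent.Work.MP_f63b47_lc

private def rs (n : ℕ) (E : List (ℕ × ℕ)) (S : List ℕ) : List ℕ :=
  (List.range n).filter fun v => memB v S || S.any fun u => adjB n E u v

private theorem rs_eq (n : ℕ) (E : List (ℕ × ℕ)) : reachE n E = (rs n E)^[n] [0] := by
  have h := List.foldl_const (rs n E) [0] (List.range n)
  rw [List.length_range] at h
  exact h

private theorem mem_rs {n : ℕ} {E : List (ℕ × ℕ)} {S : List ℕ} {v : ℕ} :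
    v ∈ rs n E S ↔ v < n ∧ (v ∈ S ∨ ∃ u ∈ S, adjB n E u v = true) := by
  unfold rs
  rw [List.mem_filter, List.mem_range, Bool.or_eq_true, memB_iff, List.any_eq_true]

private theorem rs_sound {n : ℕ} {E : List (ℕ × ℕ)} (hn : 0 < n) (k : ℕ) :
    ∀ v ∈ (rs n E)^[k] [0], ∃ hv : v < n, (graphOf n E).Reachable ⟨0, hn⟩ ⟨v, hv⟩ := by
  induction k with
  | zero =>
    intro v hv
    rw [Function.iterate_zero, id, List.mem_singleton] at hv
    subst hv
    exact ⟨hn, Reachable.refl _⟩
  | succ k ih =>
    intro v hv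
    rw [Function.iterate_succ_apply', mem_rs] at hv
    obtain ⟨h1, h2 | ⟨u, hu, h2⟩⟩ := hv
    · exact ih v h2
    · obtain ⟨hu1, hu2⟩ := ih u hu
      have h3 : (graphOf n E).Adj ⟨u, hu1⟩ ⟨v, h1⟩ := (adjB_iff ⟨u, hu1⟩ ⟨v, h1⟩).1 h2
      exact ⟨h1, hu2.trans h3.reachable⟩

private theorem rs_compl {n : ℕ} {E : List (ℕ × ℕ)} (hn : 0 < n) (k : ℕ) :
    ∀ (v : Fin n) (p : (graphOf n E).Walk v ⟨0, hn⟩), p.length ≤ k →
      (v : ℕ) ∈ (rs n E)^[k] [0] := by
  induction k with
  | zero =>
    intro v p hp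
    cases p with
    | nil => simp
    | cons h q => simp at hp
  | succ k ih =>
    intro v p hp
    rw [Function.iterate_succ_apply', mem_rs]
    refine ⟨v.2, ?_⟩
    cases p with
    | nil => exact Or.inl (ih _ Walk.nil (by simp))
    | cons h q =>
      rename_i w
      refine Or.inr ⟨w, ih w q ?_, ?_⟩
      · rw [Walk.length_cons] at hp
        omega
      · exact (adjB_iff w v).2 h.symm

theorem reachE_iff {n : ℕ} {E : List (ℕ × ℕ)} (hn : 0 < n) (v : Fin n) :
    (v : ℕ) ∈ reachE n E ↔ (graphOf n E).Reachable ⟨0, hn⟩ v := by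
  rw [rs_eq]
  constructor
  · intro h
    obtain ⟨_, h2⟩ := rs_sound hn n v h
    exact h2
  · intro h
    obtain ⟨p⟩ := h.symm
    have h1 := p.toPath.2.length_lt
    rw [Fintype.card_fin] at h1
    exact rs_compl hn n v p.toPath.1 h1.le

end Pool.Agent.Work.MP_f63b47_lc.GD
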