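import Pool.Agent.Work.MP_f63b47_lc.GD.MRed
import Pool.Agent.Work.MP_f63b47_lc.GD.MReach

/-!
# GD/MDec (size S-M): the test

Unfold `decE`; `nbs_length`, `reachE_iff` for the list `redE n E`; a graph on a nonempty set is preconnected iff all vertices are reachable from a given one.
-/

set_option autoImplicit false

namespace Pool.Agent.Work.MP_f63b47_lc.GD

open SimpleGraph Pool.Agent.Work.PolyTime Pool.Agent.Work.MP_f63b47_lc

theorem decE_iff {n : ℕ} {E : List (ℕ × ℕ)} : decE n E = true ↔
    3 ≤ n ∧ Two (graphOf n (redE n E)) ∧ (graphOf n (redE n E)).Preconnected := by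
  unfold decE
  rw [Bool.and_eq_true, Bool.and_eq_true, decide_eq_true_iff, List.all_eq_true, List.all_eq_true]
  constructor
  · rintro ⟨h3, h1, h2⟩
    refine ⟨h3, ?_, ?_⟩
    · intro v
      have h4 := h1 v (List.mem_range.mpr v.2)
      rw [decide_eq_true_iff, nbs_length] at h4
      exact h4
    · have key : ∀ v : Fin n, (graphOf n (redE n E)).Reachable ⟨0, by omega⟩ v := by
        intro v
        have h4 := h2 v (List.mem_range.mpr v.2)
        rw [memB_iff] at h4
        exact (reachE_iff (by omega) v).mp h4
      intro u v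
      exact (key u).symm.trans (key v)
  · rintro ⟨h3, h1, h2⟩
    refine ⟨h3, ?_, ?_⟩
    · intro v hv
      rw [decide_eq_true_iff]
      have h4 := nbs_length (E := redE n E) (⟨v, List.mem_range.mp hv⟩ : Fin n)
      rw [h1 ⟨v, List.mem_range.mp hv⟩] at h4
      exact h4
    · intro v hv
      rw [memB_iff]
      exact (reachE_iff (by omega) (⟨v, List.mem_range.mp hv⟩ : Fin n)).mpr (h2 _ _)

end Pool.Agent.Work.MP_f63b47_lc.GD
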