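import Pool.Agent.Work.MP_f63b47_lc.GD.Defs

/-!
# GD/MPT (size M): the test is computable in polynomial time

Use the rules of `Pool/Agent/Work/PolyTime` (`Typed`, `Lists`, `More`, `Pairs`): `PTime.filter`, `PTime.any`, `PTime.all`, `PTime.memB`, `PTime.natLt`, `PTime.natLe`, `PTime.eq`,
`PTime.length`, `PTime.range`, and `PTime.foldl` for `redE` and `reachE` (see its uses in `Sim.lean`, `Lists.lean`, `Blossom`): the size of the state is bounded by the size of `E`
(the rounds of `redE` only remove elements, `sz_filter_le` or so) and for `reachE` by the size of `List.range n` plus that of `[0]`. First prove `PTime` of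
`fun x : (ℕ × List (ℕ × ℕ)) × (ℕ × ℕ) => adjB x.1.1 x.1.2 x.2.1 x.2.2`, of `nbs`, `badB`, `stepE`. `delE` and the brute force test are in `AEnum`.
-/

set_option autoImplicit false

namespace Pool.Agent.Work.MP_f63b47_lc.GD

open SimpleGraph Pool.Agent.Work.PolyTime Pool.Agent.Work.MP_f63b47_lc

private theorem mp_sub {β : Type} [Code β] {l l' : List β} (h : l.Sublist l') : sz l ≤ sz l' := by
  induction h with
  | slnil => exact le_rfl
  | cons a _ ih => rw [sz_cons]; omega
  | cons_cons a _ ih => rw [sz_cons, sz_cons]; omega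

section

variable {α : Type} [Code α]

private theorem mp_adjB {n : α → ℕ} {E : α → List (ℕ × ℕ)} {u v : α → ℕ} (hn : PTime n)
    (hE : PTime E) (hu : PTime u) (hv : PTime v) :
    PTime (fun x => adjB (n x) (E x) (u x) (v x)) := by
  unfold adjB
  exact PTime.and (PTime.natLt hu hn) (PTime.and (PTime.natLt hv hn) (PTime.and
    (PTime.not (PTime.eq hu hv)) (PTime.or (PTime.memB (PTime.prodMk hu hv) hE)
      (PTime.memB (PTime.prodMk hv hu) hE))))

private theorem mp_nbs {n : α → ℕ} {E : α → List (ℕ × ℕ)} {u : α → ℕ} (hn : PTime n)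
    (hE : PTime E) (hu : PTime u) : PTime (fun x => nbs (n x) (E x) (u x)) := by
  unfold nbs
  refine PTime.filter (p := fun x v => adjB (n x) (E x) (u x) v) (PTime.range hn) ?_
  exact mp_adjB (hn.comp PTime.fst) (hE.comp PTime.fst) (hu.comp PTime.fst) PTime.snd

private theorem mp_badB {n : α → ℕ} {E : α → List (ℕ × ℕ)} {u v : α → ℕ} (hn : PTime n)
    (hE : PTime E) (hu : PTime u) (hv : PTime v) :
    PTime (fun x => badB (n x) (E x) (u x) (v x)) := by
  unfold badB
  refine PTime.natLe (PTime.const 2) (PTime.length ?_)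
  refine PTime.filter (p := fun x z => !decide (z = v x) &&
    decide ((nbs (n x) (E x) z).length ≤ 2)) (mp_nbs hn hE hu) ?_
  refine PTime.and (PTime.not (PTime.eq PTime.snd (hv.comp PTime.fst))) ?_
  exact PTime.natLe (PTime.length (mp_nbs (hn.comp PTime.fst) (hE.comp PTime.fst) PTime.snd))
    (PTime.const 2)

private theorem mp_stepE {n : α → ℕ} {E : α → List (ℕ × ℕ)} (hn : PTime n)
    (hE : PTime E) : PTime (fun x => stepE (n x) (E x)) := by
  unfold stepE
  refine PTime.filter (p := fun x (e : ℕ × ℕ) => !(badB (n x) (E x) e.1 e.2 ||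
    badB (n x) (E x) e.2 e.1)) hE ?_
  refine PTime.not (PTime.or ?_ ?_)
  · exact mp_badB (hn.comp PTime.fst) (hE.comp PTime.fst) (PTime.fst.comp PTime.snd)
      (PTime.snd.comp PTime.snd)
  · exact mp_badB (hn.comp PTime.fst) (hE.comp PTime.fst) (PTime.snd.comp PTime.snd)
      (PTime.fst.comp PTime.snd)

private theorem mp_redE {n : α → ℕ} {E : α → List (ℕ × ℕ)} (hn : PTime n)
    (hE : PTime E) : PTime (fun x => redE (n x) (E x)) := by
  unfold redE
  refine PTime.foldl (l := fun x => List.range (E x).length) (s := E)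
    (f := fun y : α × List (ℕ × ℕ) × ℕ => stepE (n y.1) y.2.1) (B := fun x => sz (E x))
    (PTime.range (PTime.length hE)) hE ?_ hE.sz_le ?_
  · exact mp_stepE (hn.comp PTime.fst) (by fun_prop)
  · intro x l' _
    have h : ∀ (l : List ℕ) (S : List (ℕ × ℕ)), sz (l.foldl (fun S _ => stepE (n x) S) S) ≤ sz S := by
      intro l
      induction l with
      | nil => intro S; exact le_rfl
      | cons a l ih =>
        intro S
        rw [List.foldl_cons]
        exact (ih _).trans (mp_sub List.filter_sublist)
    exact h l' (E x)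

private theorem mp_reachE {n : α → ℕ} {E : α → List (ℕ × ℕ)} (hn : PTime n)
    (hE : PTime E) : PTime (fun x => reachE (n x) (E x)) := by
  unfold reachE
  refine PTime.foldl (l := fun x => List.range (n x)) (s := fun _ => [0])
    (f := fun y : α × List ℕ × ℕ => (List.range (n y.1)).filter fun v =>
      memB v y.2.1 || y.2.1.any fun u => adjB (n y.1) (E y.1) u v)
    (B := fun x => sz (List.range (n x)) + sz [0]) (PTime.range hn) (PTime.const _) ?_
    ((PTime.range hn).sz_le.add (PB.const _)) ?_
  · refine PTime.filter (p := fun (y : α × List ℕ × ℕ) v =>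
      memB v y.2.1 || y.2.1.any fun u => adjB (n y.1) (E y.1) u v)
      (PTime.range (hn.comp PTime.fst)) ?_
    refine PTime.or (PTime.memB PTime.snd (by fun_prop)) ?_
    refine PTime.any (p := fun (y : (α × List ℕ × ℕ) × ℕ) u =>
      adjB (n y.1.1) (E y.1.1) u y.2) (by fun_prop) ?_
    refine mp_adjB ?_ ?_ PTime.snd ?_
    · exact hn.comp (f := fun y : ((α × List ℕ × ℕ) × ℕ) × ℕ => y.1.1.1) (by fun_prop)
    · exact hE.comp (f := fun y : ((α × List ℕ × ℕ) × ℕ) × ℕ => y.1.1.1) (by fun_prop)
    · fun_prop
  · intro x l' _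
    have h : ∀ (l : List ℕ) (S : List ℕ), sz S ≤ sz (List.range (n x)) + sz [0] →
        sz (l.foldl (fun S _ => (List.range (n x)).filter fun v =>
          memB v S || S.any fun u => adjB (n x) (E x) u v) S) ≤
        sz (List.range (n x)) + sz [0] := by
      intro l
      induction l with
      | nil => intro S hS; exact hS
      | cons a l ih =>
        intro S _
        rw [List.foldl_cons]
        refine ih _ ?_
        exact (mp_sub List.filter_sublist).trans (Nat.le_add_right _ _)
    exact h l' [0] (Nat.le_add_left _ _)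

private theorem mp_decE {n : α → ℕ} {E : α → List (ℕ × ℕ)} (hn : PTime n)
    (hE : PTime E) : PTime (fun x => decE (n x) (E x)) := by
  unfold decE
  refine PTime.and (PTime.natLe (PTime.const 3) hn) (PTime.and ?_ ?_)
  · refine PTime.all (p := fun x v => decide ((nbs (n x) (redE (n x) (E x)) v).length = 2))
      (PTime.range hn) ?_
    exact PTime.eq (PTime.length (mp_nbs (hn.comp PTime.fst) ((mp_redE hn hE).comp PTime.fst)
      PTime.snd)) (PTime.const 2)
  · refine PTime.all (p := fun x v => memB v (reachE (n x) (redE (n x) (E x))))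
      (PTime.range hn) ?_
    exact PTime.memB PTime.snd ((mp_reachE hn (mp_redE hn hE)).comp PTime.fst)

end

theorem ptime_adjB : PTime (fun x : (ℕ × List (ℕ × ℕ)) × (ℕ × ℕ) =>
    adjB x.1.1 x.1.2 x.2.1 x.2.2) :=
  mp_adjB (by fun_prop) (by fun_prop) (by fun_prop) (by fun_prop)

theorem ptime_decE : PTime (fun x : ℕ × List (ℕ × ℕ) => decE x.1 x.2) :=
  mp_decE PTime.fst PTime.snd

end Pool.Agent.Work.MP_f63b47_lc.GD
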