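import Pool.Agent.Work.MP_f63b47_lc.GD.MSpec
import Pool.Agent.Work.MP_f63b47_lc.GD.Keep

/-!
# GD/MRed (size S-M): all rounds

`redE n E` is `(stepE n)^[E.length] E`. A round either removes an element of the list or changes nothing, and then nothing changes any more; by induction: if `stepE n` applied to
the `k`-th list changes it then the length of the `k`-th list is at most `E.length - k`. So `stepE n (redE n E) = redE n E`. `stab_redE`: `graphOf_stepE` gives
`Rd (graphOf n (redE n E)) = graphOf n (redE n E)`, so no edge is `Bad`. `redE_le`: each round gives a subgraph. `keep_redE`: `keep` in each round.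
-/

set_option autoImplicit false

namespace Pool.Agent.Work.MP_f63b47_lc.GD

open SimpleGraph Pool.Agent.Work.PolyTime Pool.Agent.Work.MP_f63b47_lc

private theorem mr_foldl {α β : Type} (f : α → α) (l : List β) (x : α) :
    l.foldl (fun y _ => f y) x = f^[l.length] x := by
  induction l generalizing x with
  | nil => rfl
  | cons b l ih =>
    rw [List.foldl_cons, ih, List.length_cons, Function.iterate_succ_apply]

private theorem redE_eq (n : ℕ) (E : List (ℕ × ℕ)) : redE n E = (stepE n)^[E.length] E := by
  rw [redE, mr_foldl, List.length_range]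

private theorem mr_le (n : ℕ) (E : List (ℕ × ℕ)) : (stepE n E).length ≤ E.length :=
  List.length_filter_le _ _

private theorem mr_eq (n : ℕ) (E : List (ℕ × ℕ)) (h : (stepE n E).length = E.length) :
    stepE n E = E :=
  List.Sublist.eq_of_length List.filter_sublist h

private theorem mr_iter (n : ℕ) (E : List (ℕ × ℕ)) (k : ℕ) :
    stepE n ((stepE n)^[k] E) = (stepE n)^[k] E ∨ ((stepE n)^[k] E).length + k ≤ E.length := by
  induction k with
  | zero => exact Or.inr (le_of_eq rfl)
  | succ k ih =>
    rcases ih with ih | ih
    · left
      rw [Function.iterate_succ_apply', ih, ih]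
    · by_cases h : (stepE n ((stepE n)^[k] E)).length = ((stepE n)^[k] E).length
      · left
        have h2 := mr_eq n _ h
        rw [Function.iterate_succ_apply', h2, h2]
      · right
        have h3 := mr_le n ((stepE n)^[k] E)
        rw [Function.iterate_succ_apply']
        omega

private theorem mr_fix (n : ℕ) (E : List (ℕ × ℕ)) : stepE n (redE n E) = redE n E := by
  rw [redE_eq]
  rcases mr_iter n E E.length with h | h
  · exact h
  · have h2 : ((stepE n)^[E.length] E) = [] := List.eq_nil_of_length_eq_zero (by omega)
    rw [h2]
    rfl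

theorem stab_redE (n : ℕ) (E : List (ℕ × ℕ)) : Stab (graphOf n (redE n E)) := by
  intro x y hxy
  have h1 := graphOf_stepE n (redE n E)
  rw [mr_fix] at h1
  rw [h1] at hxy
  exact hxy.2.1

private theorem mr_step_le (n : ℕ) (E : List (ℕ × ℕ)) : graphOf n (stepE n E) ≤ graphOf n E := by
  rw [graphOf_stepE]
  intro x y hxy
  exact hxy.1

theorem redE_le (n : ℕ) (E : List (ℕ × ℕ)) : graphOf n (redE n E) ≤ graphOf n E := by
  rw [redE_eq]
  generalize E.length = k
  induction k with
  | zero => exact le_refl _
  | succ k ih =>
    rw [Function.iterate_succ_apply']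
    exact (mr_step_le n _).trans ih

theorem keep_redE {n : ℕ} {E : List (ℕ × ℕ)} {C : SimpleGraph (Fin n)} (hC : C ≤ graphOf n E)
    (h2 : Two C) : C ≤ graphOf n (redE n E) := by
  rw [redE_eq]
  generalize E.length = k
  induction k with
  | zero => exact hC
  | succ k ih =>
    rw [Function.iterate_succ_apply', graphOf_stepE]
    exact keep ih h2

end Pool.Agent.Work.MP_f63b47_lc.GD
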