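import Pool.Agent.Work.MP_f63b47_lc.GD.Defs

/-!
# GD/MSpec (size M): the test functions on graphs given by lists

* `adjB_iff`: unfold (`graphOf`, `SimpleGraph.fromRel_adj`, `memB_iff`).
* `nbs_length`: `nbs n E u` is a list without repetitions; its elements are the numbers of the neighbours (`adjB_iff`; `List.toFinset_card_of_nodup`,
  `Set.ncard_coe_finset`, an injection `Fin n → ℕ`).
* `badB_iff`: a list without repetitions has length at least two iff it has two different elements; `nbs_length`.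
* `graphOf_stepE`: `(u, v) ∈ stepE n E ∨ (v, u) ∈ stepE n E` for `u ≠ v`: the condition of the filter is symmetric.
-/

set_option autoImplicit false

namespace Pool.Agent.Work.MP_f63b47_lc.GD

open SimpleGraph Pool.Agent.Work.PolyTime Pool.Agent.Work.MP_f63b47_lc

theorem adjB_iff {n : ℕ} {E : List (ℕ × ℕ)} (u v : Fin n) :
    adjB n E u v = true ↔ (graphOf n E).Adj u v := by
  have hu := u.isLt
  have hv := v.isLt
  unfold adjB graphOf
  rw [SimpleGraph.fromRel_adj]
  simp only [hu, hv, decide_true, Bool.true_and, Bool.and_eq_true, Bool.not_eq_true',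
    decide_eq_false_iff_not, Bool.or_eq_true, memB_iff, Fin.val_inj, ne_eq]

private theorem mem_nbs {n : ℕ} {E : List (ℕ × ℕ)} (u : Fin n) (z : ℕ) :
    z ∈ nbs n E u ↔ ∃ v : Fin n, (v : ℕ) = z ∧ (graphOf n E).Adj u v := by
  unfold nbs
  rw [List.mem_filter, List.mem_range]
  constructor
  · rintro ⟨h1, h2⟩
    exact ⟨⟨z, h1⟩, rfl, (adjB_iff u ⟨z, h1⟩).1 h2⟩
  · rintro ⟨v, rfl, h⟩
    exact ⟨v.isLt, (adjB_iff u v).2 h⟩

theorem nbs_length {n : ℕ} {E : List (ℕ × ℕ)} (u : Fin n) :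
    (nbs n E u).length = ((graphOf n E).neighborSet u).ncard := by
  have h1 : (nbs n E u).Nodup := List.nodup_range.filter _
  have h2 : ((nbs n E u).toFinset : Set ℕ) = Fin.val '' ((graphOf n E).neighborSet u) := by
    ext z
    rw [Finset.mem_coe, List.mem_toFinset, mem_nbs]
    constructor
    · rintro ⟨v, rfl, hv⟩
      exact ⟨v, hv, rfl⟩
    · rintro ⟨v, hv, rfl⟩
      exact ⟨v, rfl, hv⟩
  rw [← List.toFinset_card_of_nodup h1, ← Set.ncard_coe_finset, h2,
    Set.ncard_image_of_injective _ Fin.val_injective]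

theorem badB_iff {n : ℕ} {E : List (ℕ × ℕ)} (x y : Fin n) :
    badB n E x y = true ↔ Bad (graphOf n E) x y := by
  unfold badB
  rw [decide_eq_true_iff]
  set T := (nbs n E x).filter fun z =>
    !decide (z = (y : ℕ)) && decide ((nbs n E z).length ≤ 2) with hT
  have hnd : T.Nodup := (List.nodup_range.filter _).filter _
  have hmem : ∀ z, z ∈ T ↔ ∃ v : Fin n, (v : ℕ) = z ∧ (graphOf n E).Adj x v ∧ v ≠ y ∧
      ((graphOf n E).neighborSet v).ncard ≤ 2 := by
    intro z
    rw [hT, List.mem_filter, mem_nbs]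
    constructor
    · rintro ⟨⟨v, rfl, hv⟩, h2⟩
      rw [Bool.and_eq_true, Bool.not_eq_true', decide_eq_false_iff_not, decide_eq_true_iff,
        nbs_length] at h2
      exact ⟨v, rfl, hv, fun h => h2.1 (congrArg Fin.val h), h2.2⟩
    · rintro ⟨v, rfl, hv, h1, h2⟩
      refine ⟨⟨v, rfl, hv⟩, ?_⟩
      rw [Bool.and_eq_true, Bool.not_eq_true', decide_eq_false_iff_not, decide_eq_true_iff,
        nbs_length]
      exact ⟨fun h => h1 (Fin.ext h), h2⟩
  have h3 : 2 ≤ T.length ↔ 1 < T.toFinset.card := by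
    rw [List.toFinset_card_of_nodup hnd]
    exact Iff.rfl
  rw [h3, Finset.one_lt_card]
  constructor
  · rintro ⟨a, ha, b, hb, hab⟩
    rw [List.mem_toFinset, hmem] at ha hb
    obtain ⟨a', rfl, ha1, ha2, ha3⟩ := ha
    obtain ⟨b', rfl, hb1, hb2, hb3⟩ := hb
    exact ⟨a', b', fun h => hab (congrArg Fin.val h), ha2, hb2, ha1, hb1, ha3, hb3⟩
  · rintro ⟨a, b, hab, ha2, hb2, ha1, hb1, ha3, hb3⟩
    refine ⟨a, ?_, b, ?_, fun h => hab (Fin.ext h)⟩
    · rw [List.mem_toFinset, hmem]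
      exact ⟨a, rfl, ha1, ha2, ha3⟩
    · rw [List.mem_toFinset, hmem]
      exact ⟨b, rfl, hb1, hb2, hb3⟩

theorem graphOf_stepE (n : ℕ) (E : List (ℕ × ℕ)) :
    graphOf n (stepE n E) = Rd (graphOf n E) := by
  ext u v
  have h1 : ∀ a b : Fin n, ((a : ℕ), (b : ℕ)) ∈ stepE n E ↔
      ((a : ℕ), (b : ℕ)) ∈ E ∧ ¬ Bad (graphOf n E) a b ∧ ¬ Bad (graphOf n E) b a := by
    intro a b
    unfold stepE
    rw [List.mem_filter, Bool.not_eq_true', Bool.or_eq_false_iff, ← badB_iff, ← badB_iff,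
      Bool.not_eq_true, Bool.not_eq_true]
  unfold graphOf at h1 ⊢
  rw [SimpleGraph.fromRel_adj, h1, h1]
  show _ ↔ (SimpleGraph.fromRel fun u v : Fin n => ((u : ℕ), (v : ℕ)) ∈ E).Adj u v ∧ _ ∧ _
  rw [SimpleGraph.fromRel_adj]
  tauto

end Pool.Agent.Work.MP_f63b47_lc.GD
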