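import Pool.Agent.Work.MP_f63b47_lc.GD.SunMap
import Pool.Agent.Work.MP_f63b47_lc.GD.FreeL

/-!
# GD/NPMain (size S-M): NP-completeness for 2n-gons

`inNP_hc`, and `hard_hc` with the gadgets `fun p => if p = 0 then nest N k else oneGadget`, `k = n - 4`, `N` greater than the numbers of vertices of all members of `L`; `gsuns_msuns`.
-/

set_option autoImplicit false

namespace Pool.Agent.Work.MP_f63b47_lc.GD

open SimpleGraph Pool.Agent.Work.PolyTime Pool.Agent.Work.MP_f63b47_lc

private theorem exists_bound (L : List FG) : ∃ N, ∀ F ∈ L, F.1 < N := by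
  induction L with
  | nil => exact ⟨0, fun F hF => absurd hF (List.not_mem_nil)⟩
  | cons F L ih =>
    obtain ⟨N, h3⟩ := ih
    refine ⟨N + F.1 + 1, ?_⟩
    intro F' hF'
    rcases List.mem_cons.mp hF' with rfl | h
    · omega
    · have := h3 F' h
      omega

theorem np_of_msuns {n : ℕ} (hn : 4 ≤ n) (L : List FG) (h : ∀ F ∈ L, F.2.Free (MSuns (2 * n))) :
    NPComplete (HC L) := by
  refine ⟨inNP_hc L, ?_⟩
  obtain ⟨N, hN⟩ := exists_bound L
  refine hard_hc (fun p => if p = 0 then nest N (n - 4) else oneGadget) L ?_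
  intro F hF hc
  have h1 := gsuns_msuns (k := n - 4) (N := N) (hN F hF) F.2 hc
  have h2 : 2 * (n - 4) + 8 = 2 * n := by omega
  rw [h2] at h1
  exact h F hF h1

end Pool.Agent.Work.MP_f63b47_lc.GD
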