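import Pool.Agent.Work.MP_f63b47_lc.GD.PMain
import Pool.Agent.Work.MP_f63b47_lc.GD.NPMain
import Pool.Agent.Work.MP_f63b47_lc.GD.CombIn
import Pool.Agent.Work.MP_f63b47_lc.GD.Compress
import Pool.Agent.Work.MP_f63b47_lc.GD.MComb
import Pool.Agent.Work.MP_f63b47_lc.GD.CycComb
import Pool.Agent.Work.MP_f63b47_lc.GD.Cyc

/-!
# GD/MainA (size S-M): large girth

* First statement: choose `n ≥ 4` with `2 n` greater than `g` and the numbers of vertices of all members of `L`; `np_of_msuns` for `L ++ cycles g`: a member contained in `MSuns (2 n)` has fewer than `2 n` vertices, so it is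
  contained in `Comb` (`msuns_comb`), excluded by hypothesis or `cyc_comb`.
* Second statement: `inP_of_struct`: let `v` have degree at least three; `min_two`, `comb_in` with `m = r = F.1` (`nocyc_of`), `comb_fin`: `F` is contained in `G`.
-/

set_option autoImplicit false

namespace Pool.Agent.Work.MP_f63b47_lc.GD

open SimpleGraph Pool.Agent.Work.PolyTime Pool.Agent.Work.MP_f63b47_lc

private theorem exists_big (L : List FG) (g : ℕ) : ∃ n, 4 ≤ n ∧ g < 2 * n ∧ ∀ F ∈ L, F.1 < 2 * n := by
  induction L with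
  | nil => exact ⟨g + 4, by omega, by omega, fun F hF => absurd hF (List.not_mem_nil)⟩
  | cons F L ih =>
    obtain ⟨n, h1, h2, h3⟩ := ih
    refine ⟨n + F.1, by omega, by omega, ?_⟩
    intro F' hF'
    rcases List.mem_cons.mp hF' with rfl | h
    · omega
    · have := h3 F' h
      omega

theorem large_girth (L : List FG) :
    ((∀ F ∈ L, F.2.Free Comb) → ∀ g, NPComplete (HC (L ++ cycles g))) ∧
    ∀ F ∈ L, F.2 ⊑ Comb → ∀ g, 3 * F.1 ≤ g → InP (HC (L ++ cycles g)) := by
  constructor
  · intro hL g
    obtain ⟨n, h1, h2, h3⟩ := exists_big L g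
    refine np_of_msuns h1 _ ?_
    intro F hF hc
    rcases List.mem_append.mp hF with h | h
    · exact hL F h (msuns_comb (by omega) (h3 F h) F.2 hc)
    · obtain ⟨k, hk3, hkg, rfl⟩ := mem_cycles.mp h
      exact cyc_comb hk3 (msuns_comb (by omega) (by omega) (cycleGraph k) hc)
  · intro F hF hFc g hg
    refine inP_of_struct _ ?_
    intro n G C hfree hs hC h2 v
    by_contra hv
    have hv3 : 3 ≤ (G.neighborSet v).ncard := by omega
    have hno : NoCyc G (F.1 + 2 * F.1) :=
      nocyc_of (fun F' hF' => hfree F' (List.mem_append.mpr (Or.inr hF'))) (by omega)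
    have h4 := comb_in hs (min_two hC h2) hv3 F.1 F.1 hno
    exact hfree F (List.mem_append.mpr (Or.inl hF)) ((comb_fin F.2 hFc).trans h4)

end Pool.Agent.Work.MP_f63b47_lc.GD
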