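import Pool.Agent.Work.MP_f63b47_lc.GD.OddB
import Pool.Agent.Work.MP_f63b47_lc.GD.WalkD
import Pool.Agent.Work.MP_f63b47_lc.GD.Keep

/-!
# GD/OddC (size M-L): the case of odd j

Suppose `BTree j` is not contained in `G`. `big_next`, `big_walk` give a walk `w` of vertices of degree at least three starting at `v`; `odd_close` for `w 0, …, w j`: the common
neighbour `z`. `w 0` has two neighbours of degree at least three (`big_next` with `p = w 1`: one different from `w 1`), by `odd_third` it is `z`: so `z` has degree at least three. Define `y i` for `i ≤ j` as `w i` and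
`y (j + 1) = z`, extended periodically with period `j + 2` (`y i = y (i % (j + 2))`); consecutive ones are adjacent and `y (i + 2) ≠ y i` (`z ≠ w 1`, `z ≠ w (j - 1)`,
`w j ≠ w 0`, …), all have degree at least three. For every `i` the walk `y i, y (i + 1), …, y (i + j)` satisfies the hypotheses of `odd_close`, and `y (i + j + 1)` is a common
neighbour of its ends, so it is the one; the degree of `y i` is three, its neighbours are `y (i + 1)`, `y (i + j + 1)` and a third one `u i` which has degree at most two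
in `G` (`odd_third`). As in `keep` the edge from `y i` to `u i` is in `C`. So exactly one of the edges `y i y (i + 1)`, `y i y (i + j + 1)` is in `C` (`Two C`). Let `c i` be `1` if
`y i y (i + 1)` is in `C` and `0` otherwise: `c i + c (i + j + 1) = 1`, and `c (i + j + 1) = c (i - 1)` for `i ≥ 1`, so `c i = 1 - c (i - 1)`, hence `c (j + 2) = 1 - c 0` as `j + 2` is odd; but
`c (j + 2) = c 0` by periodicity. Contradiction.
-/

set_option autoImplicit false

namespace Pool.Agent.Work.MP_f63b47_lc.GD

open SimpleGraph Pool.Agent.Work.MP_f63b47_lc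

private theorem three_two {V : Type} [Finite V] {G C : SimpleGraph V} (hC : C ≤ G) (h2 : Two C)
    {x a b u : V} (hx : (G.neighborSet x).ncard = 3) (ha : G.Adj x a) (hb : G.Adj x b)
    (hu : G.Adj x u) (hab : a ≠ b) (hau : a ≠ u) (hbu : b ≠ u)
    (hu2 : (G.neighborSet u).ncard ≤ 2) : C.Adj x a ↔ ¬ C.Adj x b := by
  have hfin : ∀ S : Set V, S.Finite := fun S => Set.toFinite S
  have h3 : ({a, b, u} : Set V).ncard = 3 :=
    Set.ncard_eq_three.2 ⟨a, b, u, hab, hau, hbu, rfl⟩
  have hsub : ({a, b, u} : Set V) ⊆ G.neighborSet x := by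
    rintro t (rfl | rfl | rfl)
    · exact ha
    · exact hb
    · exact hu
  have heq : ({a, b, u} : Set V) = G.neighborSet x :=
    Set.eq_of_subset_of_ncard_le hsub (by rw [hx, h3]) (hfin _)
  have hCu : C.neighborSet u = G.neighborSet u :=
    Set.eq_of_subset_of_ncard_le (fun t ht => hC ht) (by rw [h2 u]; exact hu2) (hfin _)
  have hxu : C.Adj x u := by
    have h4 : x ∈ C.neighborSet u := by
      rw [hCu]
      exact hu.symm
    exact SimpleGraph.Adj.symm h4
  have h5 := h2 x
  constructor
  · intro h6 h7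
    have h8 : ({a, b, u} : Set V) ⊆ C.neighborSet x := by
      rintro t (rfl | rfl | rfl)
      · exact h6
      · exact h7
      · exact hxu
    have h9 := Set.ncard_le_ncard h8 (hfin _)
    omega
  · intro h6
    by_contra h7
    have h8 : C.neighborSet x ⊆ {u} := by
      intro t ht
      have h9 : t ∈ ({a, b, u} : Set V) := by
        rw [heq]
        exact hC ht
      rcases h9 with rfl | rfl | rfl
      · exact absurd ht h7
      · exact absurd ht h6
      · rfl
    have h9 := Set.ncard_le_ncard h8 (hfin _)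
    rw [Set.ncard_singleton] at h9
    omega

theorem odd_in {V : Type} [Finite V] {G C : SimpleGraph V} (hs : Stab G) (hC : C ≤ G)
    (h2 : Two C) {v : V} (hv : 3 ≤ (G.neighborSet v).ncard) {j : ℕ} (hj : 5 ≤ j) (hodd : Odd j)
    (hG : NoCyc G (j + 1)) : BTree j ⊑ G := by
  by_contra hcon
  have hB : (BTree j).Free G := hcon
  obtain ⟨q, -, hq1, hq2⟩ := big_next hs hv v
  obtain ⟨w, -, -, hw1, hw2, hw3⟩ := big_walk hs hv hq2 hq1
  obtain ⟨z, hz, hz1, hz2, -, -⟩ := odd_close hj hG hB w (fun i _ => hw1 i) (fun i _ => hw2 i)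
    (fun i _ => hw3 i)
  obtain ⟨hz0, hzj⟩ := (hz z).2 rfl
  have hz3 : 3 ≤ (G.neighborSet z).ncard := by
    obtain ⟨q', h4, h5, h6⟩ := big_next hs (hw3 0) (w 1)
    by_cases h7 : q' = z
    · rw [← h7]
      exact h6
    · have := odd_third hj hG hB w (fun i _ => hw1 i) (fun i _ => hw2 i) (fun i _ => hw3 i) hz0
        hzj h5 h4 h7
      omega
  have hw0j : w 0 ≠ w j := by
    intro h
    have := nb_inj G hG w (fun i _ => hw1 i) (fun i _ => hw2 i) 0 j (by omega) (by omega) h
    omega
  -- the closed walk of length `j + 2`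
  obtain ⟨b, hb1, hb2⟩ : ∃ b : ℕ → V, (∀ r, r ≤ j → b r = w r) ∧ b (j + 1) = z :=
    ⟨fun r => if r ≤ j then w r else z, fun r hr => if_pos hr, if_neg (by omega)⟩
  have ha' : ∀ r, r < j + 2 → G.Adj (b r) (b ((r + 1) % (j + 2))) := by
    intro r hr
    rcases lt_trichotomy r j with h | h | h
    · rw [Nat.mod_eq_of_lt (by omega), hb1 r h.le, hb1 (r + 1) h]
      exact hw1 r
    · rw [Nat.mod_eq_of_lt (by omega), h, hb1 j le_rfl, hb2]
      exact hzj
    · have e : r = j + 1 := by omega
      rw [e, Nat.mod_self, hb2, hb1 0 (Nat.zero_le _)]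
      exact hz0.symm
  have hb' : ∀ r, r < j + 2 → b ((r + 2) % (j + 2)) ≠ b r := by
    intro r hr
    rcases lt_or_ge (r + 2) (j + 2) with h | h
    · rw [Nat.mod_eq_of_lt h]
      rcases lt_or_ge (r + 2) (j + 1) with h' | h'
      · rw [hb1 r (by omega), hb1 (r + 2) (by omega)]
        exact hw2 r
      · have e : r + 2 = j + 1 := by omega
        have e' : r = j - 1 := by omega
        rw [e, hb2, hb1 r (by omega), e']
        exact hz2
    · rcases h.eq_or_lt with h' | h'
      · have e : r = j := by omega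
        rw [e, Nat.mod_self, hb1 0 (Nat.zero_le _), hb1 j le_rfl]
        exact hw0j
      · have e : r = j + 1 := by omega
        have e2 : (r + 2) % (j + 2) = 1 := by
          rw [e, show j + 1 + 2 = 1 + (j + 2) by ring, Nat.add_mod_right,
            Nat.mod_eq_of_lt (by omega)]
        rw [e2, e, hb2, hb1 1 (by omega)]
        exact hz1.symm
  have hc' : ∀ r, r < j + 2 → 3 ≤ (G.neighborSet (b r)).ncard := by
    intro r hr
    rcases lt_or_ge r (j + 1) with h | h
    · rw [hb1 r (by omega)]
      exact hw3 r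
    · have e : r = j + 1 := by omega
      rw [e, hb2]
      exact hz3
  obtain ⟨y, hy⟩ : ∃ y : ℕ → V, ∀ i, y i = b (i % (j + 2)) := ⟨fun i => b (i % (j + 2)), fun _ => rfl⟩
  have hpos : 0 < j + 2 := by omega
  have hper : ∀ i, y (i + (j + 2)) = y i := by
    intro i
    rw [hy, hy, Nat.add_mod_right]
  have hya : ∀ i, G.Adj (y i) (y (i + 1)) := by
    intro i
    rw [hy, hy, ← Nat.mod_add_mod]
    exact ha' _ (Nat.mod_lt _ hpos)
  have hyb : ∀ i, y (i + 2) ≠ y i := by
    intro i
    rw [hy, hy, ← Nat.mod_add_mod]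
    exact hb' _ (Nat.mod_lt _ hpos)
  have hyc : ∀ i, 3 ≤ (G.neighborSet (y i)).ncard := by
    intro i
    rw [hy]
    exact hc' _ (Nat.mod_lt _ hpos)
  have key : ∀ i, (C.Adj (y i) (y (i + 1)) ↔ ¬ C.Adj (y i) (y (i + (j + 1)))) := by
    intro i
    obtain ⟨z', h4, h5, -, h6, -⟩ := odd_close hj hG hB (fun t => y (i + t))
      (fun t _ => hya (i + t)) (fun t _ => hyb (i + t)) (fun t _ => hyc (i + t))
    have e1 : G.Adj (y (i + j)) (y (i + (j + 1))) := hya (i + j)
    have e2 : G.Adj (y i) (y (i + (j + 1))) := by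
      have h7 := hya (i + (j + 1))
      have h8 : y (i + (j + 1) + 1) = y i := hper i
      rw [h8] at h7
      exact h7.symm
    have e3 : y (i + (j + 1)) = z' := (h4 _).1 ⟨e2, e1⟩
    have e4 : y (i + (j + 1)) ≠ y (i + 1) := by
      rw [e3]
      exact h5
    obtain ⟨u, h7, h8, h9⟩ := next_of_three (hyc i) (y (i + 1)) (y (i + (j + 1)))
    have h10 := odd_third hj hG hB (fun t => y (i + t)) (fun t _ => hya (i + t))
      (fun t _ => hyb (i + t)) (fun t _ => hyc (i + t)) e2 e1 h9 h7 h8
    exact three_two hC h2 h6 (hya i) e2 h9 e4.symm h7.symm h8.symm h10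
  have hstep : ∀ k, (C.Adj (y (k + 1)) (y (k + 1 + 1)) ↔ ¬ C.Adj (y k) (y (k + 1))) := by
    intro k
    rw [key (k + 1)]
    have e : y (k + 1 + (j + 1)) = y k := by
      have e1 : k + 1 + (j + 1) = k + (j + 2) := by ring
      rw [e1, hper]
    rw [e, C.adj_comm (y (k + 1)) (y k)]
  have hev : ∀ m, (C.Adj (y (2 * m)) (y (2 * m + 1)) ↔ C.Adj (y 0) (y 1)) := by
    intro m
    induction m with
    | zero => exact Iff.rfl
    | succ m ih =>
      have e : 2 * (m + 1) = 2 * m + 1 + 1 := by ring
      rw [e, hstep, hstep, not_not, ih]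
  obtain ⟨m, hm⟩ := hodd
  have h11 := hstep (2 * (m + 1))
  rw [hev (m + 1)] at h11
  have e1 : 2 * (m + 1) + 1 = 0 + (j + 2) := by omega
  have e2 : 2 * (m + 1) + 1 + 1 = 1 + (j + 2) := by omega
  rw [e2, e1, hper, hper] at h11
  exact absurd h11 (by tauto)

end Pool.Agent.Work.MP_f63b47_lc.GD
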