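import Pool.Agent.Work.MP_f63b47_lc.GD.PMain
import Pool.Agent.Work.MP_f63b47_lc.GD.NPMain
import Pool.Agent.Work.MP_f63b47_lc.GD.BIn
import Pool.Agent.Work.MP_f63b47_lc.GD.OddC
import Pool.Agent.Work.MP_f63b47_lc.GD.MComb
import Pool.Agent.Work.MP_f63b47_lc.GD.CycComb
import Pool.Agent.Work.MP_f63b47_lc.GD.HTSun
import Pool.Agent.Work.MP_f63b47_lc.GD.Cyc

/-!
# GD/MainB (size S-M): the exact threshold

* First statement: `m = 2 n`, `n ≥ 4`; `np_of_msuns`: if `F` is contained in `MSuns m` then so is `HTree j`, against `htree_msuns` (`m < j + 3`); the cycles of length at most `g < m`: `msuns_comb`, `cyc_comb`.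
* Second statement: `inP_of_struct`: let `v` have degree at least three. If `j + 2 ≤ g`: `btree_in`. Otherwise `j` is odd and `g = j + 1`, `5 ≤ j` (if `j` is even then `m = j + 2` is excluded, so `j + 2 < 8`, but then `6 ≤ g`
  gives `j + 2 ≤ g`; if `j` is odd then `m = j + 1` is excluded: either `j + 1 ≤ g` or `j + 1 < 8`, and in the second case `g ≥ 6`, `j ∈ {1, 3, 5}`): `odd_in`. So `BTree j`, hence `F`, is contained in `G`.
-/

set_option autoImplicit false

namespace Pool.Agent.Work.MP_f63b47_lc.GD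

open SimpleGraph Pool.Agent.Work.PolyTime Pool.Agent.Work.MP_f63b47_lc

theorem girth_sharp {j g : ℕ} (hj : 1 ≤ j) (h6 : 6 ≤ j ∨ 6 ≤ g) (F : FG) (h1 : HTree j ⊑ F.2)
    (h2 : F.2 ⊑ BTree j) :
    ((∃ m, Even m ∧ 8 ≤ m ∧ g < m ∧ m ≤ j + 2) → NPComplete (HC (F :: cycles g))) ∧
    ((¬ ∃ m, Even m ∧ 8 ≤ m ∧ g < m ∧ m ≤ j + 2) → InP (HC (F :: cycles g))) := by
  constructor
  · rintro ⟨m, ⟨n, hn⟩, h8, hgm, hmj⟩
    have hm : m = 2 * n := by omega
    refine np_of_msuns (n := n) (by omega) _ ?_
    intro F' hF' hc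
    rcases List.mem_cons.mp hF' with rfl | h
    · exact htree_msuns hj (m := 2 * n) (by omega) (by omega) (h1.trans hc)
    · obtain ⟨k, hk3, hkg, rfl⟩ := mem_cycles.mp h
      exact cyc_comb hk3 (msuns_comb (by omega) (by omega) (cycleGraph k) hc)
  · intro hno
    refine inP_of_struct _ ?_
    intro n G C hfree hs hC hT v
    by_contra hv
    have hv3 : 3 ≤ (G.neighborSet v).ncard := by omega
    have hcyc : ∀ l ≤ g, NoCyc G l := fun l hl =>
      nocyc_of (fun F' hF' => hfree F' (List.mem_cons_of_mem _ hF')) hl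
    have hB : BTree j ⊑ G := by
      by_cases hjg : j + 2 ≤ g
      · exact btree_in hs hv3 (hcyc _ hjg)
      · rcases Nat.even_or_odd j with he | ho
        · exfalso
          by_cases h8 : 8 ≤ j + 2
          · refine hno ⟨j + 2, ?_, h8, by omega, le_refl _⟩
            exact he.add (by decide)
          · obtain ⟨c, hc⟩ := he
            omega
        · by_cases h8 : 8 ≤ j + 1
          · by_cases hg : g < j + 1
            · exfalso
              refine hno ⟨j + 1, ?_, h8, hg, by omega⟩
              exact ho.add_odd (by decide)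
            · exact odd_in hs hC hT hv3 (by omega) ho (hcyc _ (by omega))
          · have h5 : j ≠ 6 := by
              rintro rfl
              exact absurd ho (by decide)
            exact odd_in hs hC hT hv3 (by omega) ho (hcyc _ (by omega))
    exact hfree F List.mem_cons_self (h2.trans hB)

end Pool.Agent.Work.MP_f63b47_lc.GD
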