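import Pool.Agent.Work.MP_f63b47_lc.GD.GDefs

/-!
# GD/NB (size M): walks without backtracking in a graph without short cycles

Suppose `w i = w j` for some `i < j ≤ L`; choose such a pair with `j - i` minimal. Then `w` is injective on `i, …, j - 1`. `k = j - i` is not `1`
(adjacent vertices are different) and not `2` (`h2`), so `3 ≤ k ≤ L`. The map `Fin k → V`, `t ↦ w (i + t)`, is injective and sends adjacent vertices of
`cycleGraph k` to adjacent vertices: two vertices `u`, `v` of `cycleGraph k` are adjacent iff `u - v = 1` or `v - u = 1` in `Fin k` (`cycleGraph_adj'`, …), i.e. iff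
their numbers differ by one or are `0` and `k - 1`, and `w (j - 1)` is adjacent to `w j = w i`. So `cycleGraph k` is contained in `G`, against `hG`.
-/

set_option autoImplicit false

namespace Pool.Agent.Work.MP_f63b47_lc.GD

open SimpleGraph Pool.Agent.Work.MP_f63b47_lc

private theorem nb_fin {d : ℕ} {u v : Fin d} (h : (u - v).val = 1) :
    (u : ℕ) = v + 1 ∨ ((u : ℕ) = 0 ∧ (v : ℕ) + 1 = d) := by
  rcases le_or_gt v u with h1 | h1
  · rw [Fin.coe_sub_iff_le.2 h1] at h
    left
    omega
  · rw [Fin.coe_sub_iff_lt.2 h1] at h
    right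
    have h2 := u.isLt
    have h3 := v.isLt
    have h4 : (u : ℕ) < v := h1
    omega

private theorem nb_aux {V : Type} (G : SimpleGraph V) {L : ℕ} (hG : NoCyc G L) (w : ℕ → V)
    (h1 : ∀ i < L, G.Adj (w i) (w (i + 1))) (h2 : ∀ i, i + 2 ≤ L → w (i + 2) ≠ w i) :
    ∀ d, ∀ i, 0 < d → i + d ≤ L → w i ≠ w (i + d) := by
  intro d
  induction d using Nat.strong_induction_on with
  | _ d ih =>
    intro i hd hL heq
    rcases Nat.lt_or_ge d 3 with h3 | h3
    · have h4 : d = 1 ∨ d = 2 := by omega
      rcases h4 with rfl | rfl
      · exact (h1 i (by omega)).ne heq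
      · exact h2 i hL heq.symm
    · apply hG d h3 (by omega)
      have hadj : ∀ u v : Fin d, (u - v).val = 1 → G.Adj (w (i + u)) (w (i + v)) := by
        intro u v huv
        rcases nb_fin huv with h5 | ⟨h5, h6⟩
        · rw [h5, ← add_assoc]
          exact (h1 (i + v) (by have := u.isLt; omega)).symm
        · rw [h5, add_zero, heq]
          have h7 : i + d = i + (v : ℕ) + 1 := by omega
          rw [h7]
          exact (h1 (i + v) (by omega)).symm
      refine ⟨⟨⟨fun t : Fin d => w (i + t), ?_⟩, ?_⟩⟩
      · intro u v huv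
        rw [cycleGraph_adj'] at huv
        rcases huv with h5 | h5
        · exact hadj u v h5
        · exact (hadj v u h5).symm
      · intro u v huv
        have huv' : w (i + u) = w (i + v) := huv
        apply Fin.ext
        have hu := u.isLt
        have hv := v.isLt
        rcases lt_trichotomy (u : ℕ) (v : ℕ) with h5 | h5 | h5
        · exfalso
          have h6 : i + (v : ℕ) = i + u + (v - u) := by omega
          rw [h6] at huv'
          exact ih (v - u) (by omega) (i + u) (by omega) (by omega) huv'
        · exact h5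
        · exfalso
          have h6 : i + (u : ℕ) = i + v + (u - v) := by omega
          rw [h6] at huv'
          exact ih (u - v) (by omega) (i + v) (by omega) (by omega) huv'.symm

theorem nb_inj {V : Type} (G : SimpleGraph V) {L : ℕ} (hG : NoCyc G L) (w : ℕ → V)
    (h1 : ∀ i < L, G.Adj (w i) (w (i + 1))) (h2 : ∀ i, i + 2 ≤ L → w (i + 2) ≠ w i)
    (i j : ℕ) (hi : i ≤ L) (hj : j ≤ L) (h : w i = w j) : i = j := by
  rcases lt_trichotomy i j with h5 | h5 | h5
  · exfalso
    have h6 : j = i + (j - i) := by omega
    rw [h6] at h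
    exact nb_aux G hG w h1 h2 (j - i) i (by omega) (by omega) h
  · exact h5
  · exfalso
    have h6 : i = j + (i - j) := by omega
    rw [h6] at h
    exact nb_aux G hG w h1 h2 (i - j) j (by omega) (by omega) h.symm

end Pool.Agent.Work.MP_f63b47_lc.GD
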