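import Pool.Agent.Work.MP_f63b47_lc.GD.GDefs

/-!
# GD/NearA (size M): a connected subgraph that meets the middle of Y is a piece of the cycle

`φ` is a copy of `F₂` in `Del G C Y` with `φ u₀ = e i₀`, and `Y` contains `e (i₀ + t)` for all integers `|t| ≤ b`. Choose walks in `F₂` from `u₀` to `u` (connected, a path has length at most `b - 1`). By induction
on the length `l ≤ b - 1`: `φ u = e (i₀ + t)` for some integer `|t| ≤ l`: the last step goes from a vertex `e (i₀ + t)` of `Y`, so in `Del G C Y` it is an edge of `C`, to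
`e (i₀ + t ± 1)`. So `τ u` exists. If `F₂.Adj u v`: the same argument gives `C.Adj (φ u) (φ v)`, so `τ v = τ u ± 1` in `ZMod n`; as `|τ v - τ u ∓ 1| ≤ 2 b - 1 < n` it holds in the
integers.
-/

set_option autoImplicit false

namespace Pool.Agent.Work.MP_f63b47_lc.GD

open SimpleGraph Pool.Agent.Work.MP_f63b47_lc

private theorem cadj {n : ℕ} {G C : SimpleGraph (Fin n)} {Y : Set (Fin n)} {x y : Fin n}
    (h : (Del G C Y).Adj x y) (hy : y ∈ Y) : C.Adj x y := by
  rcases h.2 with h1 | h1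
  · exact h1
  · exact absurd hy h1.2

private theorem walk_seg {b n : ℕ} {F₂ : SimpleGraph (Fin b)}
    {G C : SimpleGraph (Fin n)} (e : ZMod n ≃ Fin n)
    (he : ∀ i j, C.Adj (e i) (e j) ↔ j = i + 1 ∨ i = j + 1) (Y : Set (Fin n))
    (φ : Fin b → Fin n) (hφ : ∀ u v, F₂.Adj u v → (Del G C Y).Adj (φ u) (φ v))
    (i₀ : ZMod n) (hY : ∀ t : ℤ, |t| ≤ (b : ℤ) → e (i₀ + (t : ZMod n)) ∈ Y)
    {u u₀ : Fin b} (p : F₂.Walk u u₀) : φ u₀ = e i₀ → p.length ≤ b →
      ∃ t : ℤ, |t| ≤ (p.length : ℤ) ∧ φ u = e (i₀ + (t : ZMod n)) := by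
  induction p with
  | nil =>
    intro h0 _
    exact ⟨0, by simp, by simpa using h0⟩
  | cons hadj p ih =>
    intro h0 hlen
    rw [SimpleGraph.Walk.length_cons] at hlen
    obtain ⟨t, ht, hv⟩ := ih h0 (by omega)
    have hYt : e (i₀ + (t : ZMod n)) ∈ Y := hY t (by omega)
    have hC : C.Adj (φ _) (φ _) := cadj (hφ _ _ hadj) (by rw [hv]; exact hYt)
    rw [hv] at hC
    obtain ⟨i', hi'⟩ : ∃ i', e i' = φ _ := ⟨e.symm (φ _), e.apply_symm_apply _⟩
    rw [← hi', he] at hC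
    rcases hC with h1 | h1
    · refine ⟨t - 1, ?_, ?_⟩
      · rw [SimpleGraph.Walk.length_cons]
        push_cast
        rw [abs_le] at ht ⊢
        constructor <;> linarith [ht.1, ht.2]
      · rw [← hi']
        congr 1
        have h2 : i' = i₀ + (t : ZMod n) - 1 := by rw [h1, add_sub_cancel_right]
        rw [h2]
        push_cast
        ring
    · refine ⟨t + 1, ?_, ?_⟩
      · rw [SimpleGraph.Walk.length_cons]
        push_cast
        rw [abs_le] at ht ⊢
        constructor <;> linarith [ht.1, ht.2]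
      · rw [← hi']
        congr 1
        rw [h1]
        push_cast
        ring

private theorem zero_of {n : ℕ} {z : ℤ} (h : (z : ZMod n) = 0) (hz : |z| < (n : ℤ)) : z = 0 :=
  Int.eq_zero_of_abs_lt_dvd ((ZMod.intCast_zmod_eq_zero_iff_dvd _ _).1 h) hz

theorem near_seg {b n : ℕ} {F₂ : SimpleGraph (Fin b)} (hF : F₂.Connected)
    {G C : SimpleGraph (Fin n)} (e : ZMod n ≃ Fin n)
    (he : ∀ i j, C.Adj (e i) (e j) ↔ j = i + 1 ∨ i = j + 1) (hn : 2 * b < n) (Y : Set (Fin n))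
    (φ : Fin b → Fin n) (hφ : ∀ u v, F₂.Adj u v → (Del G C Y).Adj (φ u) (φ v)) (u₀ : Fin b)
    (i₀ : ZMod n) (h0 : φ u₀ = e i₀)
    (hY : ∀ t : ℤ, |t| ≤ (b : ℤ) → e (i₀ + (t : ZMod n)) ∈ Y) :
    ∃ τ : Fin b → ℤ, (∀ u, |τ u| + 1 ≤ (b : ℤ) ∧ φ u = e (i₀ + (τ u : ZMod n))) ∧
      ∀ u v, F₂.Adj u v → τ v = τ u + 1 ∨ τ u = τ v + 1 := by
  classical
  have hnz : (2 * b : ℤ) < n := by exact_mod_cast hn
  have hex : ∀ u, ∃ t : ℤ, |t| + 1 ≤ (b : ℤ) ∧ φ u = e (i₀ + (t : ZMod n)) := by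
    intro u
    obtain ⟨p, hp⟩ := (hF.preconnected u u₀).exists_isPath
    have hlen : p.length < b := by
      have h1 := hp.length_lt
      rwa [Fintype.card_fin] at h1
    obtain ⟨t, ht, hu⟩ := walk_seg e he Y φ hφ i₀ hY p h0 hlen.le
    refine ⟨t, ?_, hu⟩
    have h2 : (p.length : ℤ) < b := by exact_mod_cast hlen
    omega
  choose τ hτ using hex
  refine ⟨τ, hτ, fun u v huv => ?_⟩
  have hYv : φ v ∈ Y := by
    rw [(hτ v).2]
    exact hY _ (by have := (hτ v).1; omega)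
  have hC := cadj (hφ u v huv) hYv
  rw [(hτ u).2, (hτ v).2, he] at hC
  have b1 := (hτ u).1
  have b2 := (hτ v).1
  have b3 := abs_le.1 (show |τ u| ≤ (b : ℤ) - 1 by linarith)
  have b4 := abs_le.1 (show |τ v| ≤ (b : ℤ) - 1 by linarith)
  rcases hC with h1 | h1
  · left
    have h2 : ((τ v - τ u - 1 : ℤ) : ZMod n) = 0 := by
      push_cast
      have h3 : (τ v : ZMod n) = τ u + 1 := by
        rw [add_assoc] at h1
        exact add_left_cancel h1
      rw [h3]
      ring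
    have h4 := zero_of h2 (by rw [abs_lt]; constructor <;> linarith [b3.1, b3.2, b4.1, b4.2])
    omega
  · right
    have h2 : ((τ u - τ v - 1 : ℤ) : ZMod n) = 0 := by
      push_cast
      have h3 : (τ u : ZMod n) = τ v + 1 := by
        rw [add_assoc] at h1
        exact add_left_cancel h1
      rw [h3]
      ring
    have h4 := zero_of h2 (by rw [abs_lt]; constructor <;> linarith [b3.1, b3.2, b4.1, b4.2])
    omega

end Pool.Agent.Work.MP_f63b47_lc.GD
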