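import Pool.Agent.Work.MP_f63b47_lc.GD.NearA

/-!
# GD/NearB (size M-L): the reduced graph does not contain the component

Let `g` be a copy of `F₁` in `G`, `X` its image, `Y = {e (i + t) : e i ∈ X, |t| ≤ b}`, `card Y ≤ a (2 b + 1)`. Suppose `φ` is a copy of `F₂` in `Del G C Y`. If its image does not meet `X` then `g` and `φ` give a copy of
`F₁ ⊕g F₂` in `G`, excluded. Otherwise `near_seg` gives `τ`, injective as `φ` is. There is `j₀` such that `e (j₀ + t) ∉ X` for all integers `|t| ≤ b`: the `j₀` which are excluded are those of the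
form `i - t` with `e i ∈ X`, `|t| ≤ b`, at most `a (2 b + 1) < n` of them. `ψ u = e (j₀ + τ u)` is injective (`|τ u - τ v| < n`), sends edges to edges of `C ≤ G` and avoids `X`; so `g` and `ψ` give a copy of
`F₁ ⊕g F₂` in `G`. Contradiction.
-/

set_option autoImplicit false

namespace Pool.Agent.Work.MP_f63b47_lc.GD

open SimpleGraph Pool.Agent.Work.MP_f63b47_lc

private theorem combine {a b n : ℕ} {F₁ : SimpleGraph (Fin a)} {F₂ : SimpleGraph (Fin b)}
    {G : SimpleGraph (Fin n)} (g : Fin a → Fin n) (ψ : Fin b → Fin n)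
    (hg : Function.Injective g) (hψ : Function.Injective ψ)
    (hgE : ∀ u v, F₁.Adj u v → G.Adj (g u) (g v)) (hψE : ∀ u v, F₂.Adj u v → G.Adj (ψ u) (ψ v))
    (hd : ∀ u v, g u ≠ ψ v) : (F₁ ⊕g F₂) ⊑ G := by
  refine ⟨⟨⟨Sum.elim g ψ, ?_⟩, ?_⟩⟩
  · rintro (u | u) (v | v) h
    · exact hgE u v (by simpa using h)
    · exact absurd h (by simp)
    · exact absurd h (by simp)
    · exact hψE u v (by simpa using h)
  · exact hg.sumElim hψ hd

theorem near {a b n : ℕ} {F₁ : SimpleGraph (Fin a)} {F₂ : SimpleGraph (Fin b)}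
    (hF : F₂.Connected) {G C : SimpleGraph (Fin n)} (hC : C ≤ G) (e : ZMod n ≃ Fin n)
    (he : ∀ i j, C.Adj (e i) (e j) ↔ j = i + 1 ∨ i = j + 1)
    (hn : (a + 1) * (2 * b + 2) < n) (h1 : F₁ ⊑ G) (h : (F₁ ⊕g F₂).Free G) :
    ∃ Y : Finset (Fin n), Y.card ≤ a * (2 * b + 1) ∧ F₂.Free (Del G C Y) := by
  classical
  have hexp : (a + 1) * (2 * b + 2) = a * (2 * b + 1) + a + 2 * b + 2 := by ring
  haveI : NeZero n := ⟨by omega⟩
  obtain ⟨g⟩ := h1
  obtain ⟨X, hX⟩ : ∃ X : Finset (Fin n), X = Finset.univ.image g := ⟨_, rfl⟩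
  have hXc : X.card ≤ a := by
    rw [hX]
    refine Finset.card_image_le.trans ?_
    simp
  have hgX : ∀ u, g u ∈ X := fun u => by rw [hX]; exact Finset.mem_image_of_mem _ (Finset.mem_univ u)
  obtain ⟨I, hI⟩ : ∃ I : Finset ℤ, I = Finset.Icc (-(b : ℤ)) b := ⟨_, rfl⟩
  have hIc : I.card = 2 * b + 1 := by
    rw [hI, Int.card_Icc]
    omega
  have hIm : ∀ t : ℤ, |t| ≤ (b : ℤ) → t ∈ I := by
    intro t ht
    rw [hI, Finset.mem_Icc]
    exact abs_le.1 ht
  have hcard : (X ×ˢ I).card ≤ a * (2 * b + 1) := by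
    rw [Finset.card_product, hIc]
    exact Nat.mul_le_mul_right _ hXc
  refine ⟨(X ×ˢ I).image fun p => e (e.symm p.1 + (p.2 : ZMod n)),
    Finset.card_image_le.trans hcard, ?_⟩
  rintro ⟨φ⟩
  by_cases hmeet : ∃ u₀, φ u₀ ∈ X
  · obtain ⟨u₀, hu₀⟩ := hmeet
    obtain ⟨τ, hτ1, hτ2⟩ := near_seg hF e he (by omega)
      (((X ×ˢ I).image fun p => e (e.symm p.1 + (p.2 : ZMod n)) : Finset (Fin n)) : Set (Fin n))
      φ (fun u v huv => φ.toHom.map_rel huv) u₀ (e.symm (φ u₀)) (e.apply_symm_apply _).symm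
      (fun t ht => by
        rw [Finset.mem_coe, Finset.mem_image]
        exact ⟨(φ u₀, t), Finset.mem_product.2 ⟨hu₀, hIm t ht⟩, rfl⟩)
    obtain ⟨j₀, hj₀⟩ : ∃ j₀ : ZMod n, j₀ ∉ (X ×ˢ I).image fun p => e.symm p.1 - (p.2 : ZMod n) := by
      by_contra hcon
      push Not at hcon
      have h2 : (Finset.univ : Finset (ZMod n)) ⊆
          (X ×ˢ I).image fun p => e.symm p.1 - (p.2 : ZMod n) := fun j _ => hcon j
      have h3 := (Finset.card_le_card h2).trans (Finset.card_image_le.trans hcard)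
      rw [Finset.card_univ, ZMod.card] at h3
      omega
    have hav : ∀ t : ℤ, |t| ≤ (b : ℤ) → e (j₀ + (t : ZMod n)) ∉ X := by
      intro t ht hmem
      apply hj₀
      rw [Finset.mem_image]
      refine ⟨(e (j₀ + (t : ZMod n)), t), Finset.mem_product.2 ⟨hmem, hIm t ht⟩, ?_⟩
      show e.symm (e (j₀ + (t : ZMod n))) - (t : ZMod n) = j₀
      rw [e.symm_apply_apply, add_sub_cancel_right]
    have hτb : ∀ u, |τ u| ≤ (b : ℤ) := fun u => by
      have := (hτ1 u).1
      omega
    have hτi : Function.Injective τ := by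
      intro u v huv
      apply φ.injective
      show φ u = φ v
      rw [(hτ1 u).2, (hτ1 v).2, huv]
    refine h (combine g (fun u => e (j₀ + (τ u : ZMod n))) g.injective ?_
      (fun u v huv => g.toHom.map_rel huv) ?_ ?_)
    · intro u v huv
      apply hτi
      have h2 : ((τ u : ℤ) : ZMod n) = ((τ v : ℤ) : ZMod n) := add_left_cancel (e.injective huv)
      have h3 : ((τ u - τ v : ℤ) : ZMod n) = 0 := by
        push_cast
        rw [h2, sub_self]
      have h4 : (n : ℤ) ∣ τ u - τ v := (ZMod.intCast_zmod_eq_zero_iff_dvd _ _).1 h3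
      have h5 := (hτ1 u).1
      have h6 := (hτ1 v).1
      have h7 : |τ u - τ v| < (n : ℤ) := by
        have h8 := abs_sub (τ u) (τ v)
        have h9 : (2 * b + 2 : ℤ) < n := by
          have : 2 * b + 2 < n := by omega
          exact_mod_cast this
        omega
      have h10 := Int.eq_zero_of_abs_lt_dvd h4 h7
      omega
    · intro u v huv
      apply hC
      rw [he]
      rcases hτ2 u v huv with h2 | h2
      · left
        rw [h2]
        push_cast
        ring
      · right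
        rw [h2]
        push_cast
        ring
    · intro u v huv
      exact hav (τ v) (hτb v) (huv ▸ hgX u)
  · push Not at hmeet
    refine h (combine g φ g.injective φ.injective (fun u v huv => g.toHom.map_rel huv)
      (fun u v huv => (φ.toHom.map_rel huv).1) ?_)
    intro u v huv
    exact hmeet v (huv ▸ hgX u)

end Pool.Agent.Work.MP_f63b47_lc.GD
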