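import Pool.Agent.Work.MP_f63b47_lc.GD.Ext
import Pool.Agent.Work.MP_f63b47_lc.SubCor

/-!
# GD/Nest (size S): the nested gadget

`Gadget.ext` and `nest` are definitions (do not change them). `nest_r`, `nest_c`: induction. The others by `rfl`.
-/

set_option autoImplicit false

namespace Pool.Agent.Work.MP_f63b47_lc.GD

open SimpleGraph Pool.Agent.Work.MP_f63b47_lc

/-- The extended gadget. -/
def Gadget.ext (G : Gadget) (N : ℕ) : Gadget where
  r := G.r + N + 2
  F := extF G.F G.a G.b N
  a := ⟨G.r, by omega⟩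
  b := ⟨G.r + N + 1, by omega⟩
  c := ⟨G.c, by have := G.c.2; omega⟩
  ha := ext_ham_a N G.hb
  hb := ext_ham_b N G.ha

/-- The gadget with one vertex extended `k` times. -/
def nest (N : ℕ) : ℕ → Gadget
  | 0 => oneGadget
  | k + 1 => Gadget.ext (nest N k) N

theorem nest_r (N k : ℕ) : (nest N k).r = 1 + k * (N + 2) := by
  induction k with
  | zero => simp [nest, oneGadget]
  | succ k ih =>
    show (nest N k).r + N + 2 = _
    rw [ih]
    ring

theorem nest_c (N k : ℕ) : ((nest N k).c : ℕ) = 0 := by
  induction k with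
  | zero => simp [nest, oneGadget]
  | succ k ih =>
    show ((nest N k).c : ℕ) = _
    exact ih

theorem nest_a (N k : ℕ) : ((nest N (k + 1)).a : ℕ) = (nest N k).r := rfl

theorem nest_b (N k : ℕ) : ((nest N (k + 1)).b : ℕ) = (nest N k).r + N + 1 := rfl

end Pool.Agent.Work.MP_f63b47_lc.GD
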