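import Pool.Agent.Work.MP_f63b47_lc.GD.GDefs

/-!
# GD/StabN (size S-M): neighbours in a stable graph

`big_next`: `x` has degree at least three. Suppose all neighbours of `x` different from `p` have degree at most two. There are at least two of them, `a ≠ b`
(`Set.ncard_diff_singleton_le` or so), and there is a neighbour `y` of `x` different from `a` and `b`. Then `Bad G x y` (`a`, `b` are neighbours of `x` of degree at most two,
different from `y`), against `Stab G`. (A neighbour of degree not at most two has degree at least three.)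
`next_of_two`, `next_of_three`: a set with at least two (three) elements has an element different from one (two) given ones.
-/

set_option autoImplicit false

namespace Pool.Agent.Work.MP_f63b47_lc.GD

open SimpleGraph Pool.Agent.Work.MP_f63b47_lc

private theorem n3 {V : Type} [Finite V] {G : SimpleGraph V} {x : V}
    (hx : 3 ≤ (G.neighborSet x).ncard) (p p' : V) : ∃ q, q ≠ p ∧ q ≠ p' ∧ G.Adj x q := by
  have h1 : ({p, p'} : Set V).ncard ≤ 2 := by
    have h2 := Set.ncard_insert_le p ({p'} : Set V)
    rw [Set.ncard_singleton] at h2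
    exact h2
  obtain ⟨q, hq, hn⟩ := Set.exists_mem_notMem_of_ncard_lt_ncard
    (s := ({p, p'} : Set V)) (t := G.neighborSet x) (by omega) (Set.toFinite _)
  rw [Set.mem_insert_iff, Set.mem_singleton_iff, not_or] at hn
  exact ⟨q, hn.1, hn.2, hq⟩

theorem big_next {V : Type} [Finite V] {G : SimpleGraph V} (hs : Stab G) {x : V}
    (hx : 3 ≤ (G.neighborSet x).ncard) (p : V) :
    ∃ q, q ≠ p ∧ G.Adj x q ∧ 3 ≤ (G.neighborSet q).ncard := by
  by_contra hcon
  push Not at hcon
  obtain ⟨a, hap, -, ha⟩ := n3 hx p p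
  obtain ⟨b, hbp, hba, hb⟩ := n3 hx p a
  obtain ⟨y, hya, hyb, hy⟩ := n3 hx a b
  have h1 := hcon a hap ha
  have h2 := hcon b hbp hb
  exact hs x y hy ⟨a, b, hba.symm, hya.symm, hyb.symm, ha, hb, by omega, by omega⟩

theorem next_of_two {V : Type} [Finite V] {G : SimpleGraph V} {x : V}
    (hx : 2 ≤ (G.neighborSet x).ncard) (p : V) : ∃ q, q ≠ p ∧ G.Adj x q := by
  obtain ⟨q, hq, hn⟩ := Set.exists_mem_notMem_of_ncard_lt_ncard
    (s := ({p} : Set V)) (t := G.neighborSet x) (by rw [Set.ncard_singleton]; omega)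
    (Set.toFinite _)
  exact ⟨q, hn, hq⟩

theorem next_of_three {V : Type} [Finite V] {G : SimpleGraph V} {x : V}
    (hx : 3 ≤ (G.neighborSet x).ncard) (p p' : V) : ∃ q, q ≠ p ∧ q ≠ p' ∧ G.Adj x q := by
  exact n3 hx p p'

end Pool.Agent.Work.MP_f63b47_lc.GD
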