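import Pool.Agent.Work.MP_f63b47_lc.GD.NB
import Pool.Agent.Work.MP_f63b47_lc.GD.StabN

/-!
# GD/OddA (size M-L): a path of vertices of degree at least three closes up

Let `A` = the neighbours of `w 0` different from `w 1`, `B` = the neighbours of `w j` different from `w (j - 1)`; both have at least two elements. For `0 < i < j` choose a
neighbour `q i` of `w i` different from `w (i - 1)` and `w (i + 1)` (`next_of_three`). By `nb_inj` (length at most `j + 1`) the vertices `w 0, …, w j`, the `q i`, the elements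
of `A` and the elements of `B` are all different, except that an element of `A` may be equal to an element of `B`: walks `w i, …, w i'` (length at most `j`);
`a, w 0, …, w i` (at most `j + 1`); `a, w 0, …, w i, q i` (`i ≤ j - 1`: at most `j + 1`); `w i', …, w i, q i` (at most `j`); `q i, w i, …, w i', q i'` (at most `j`);
and the mirror images for `B`; two elements of `A` are different neighbours of `w 0`.
* If `A ∪ B` has at least four elements then there are `a ≠ a'` in `A` and `b ≠ b'` in `B`, all four different (Hall; by hand: take `A` and `B` of size at least two; if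
  `A ∩ B` is empty it is clear; otherwise count), and `BTree j` is contained in `G`: `inl 0 ↦ a`, `inl (i + 1) ↦ w i`, `inl (j + 2) ↦ b`, `inr 0 ↦ a'`, `inr i ↦ q i`
  (`0 < i < j`), `inr j ↦ b'`. Excluded. So `card (A ∪ B) ≤ 3`.
* `A ∩ B` has at most one element: two common neighbours `z ≠ z'` of `w 0 ≠ w j` give the closed walk `w 0, z, w j, z', w 0` without backtracking of length
  `4 ≤ j + 1`.
So `card A + card B = card (A ∪ B) + card (A ∩ B) ≤ 4`, hence `card A = card B = 2`, `card (A ∩ B) = 1`. Note `w 1` is not a neighbour of `w j` and `w (j - 1)` is not a neighbour of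
`w 0` (walks of length `j`: `w 1, …, w j, w 1` closed), so the common neighbours of `w 0` and `w j` are those in `A ∩ B`.
-/

set_option autoImplicit false

namespace Pool.Agent.Work.MP_f63b47_lc.GD

open SimpleGraph Pool.Agent.Work.MP_f63b47_lc

private theorem noCyc_mono {V : Type} {G : SimpleGraph V} {L L' : ℕ} (h : L' ≤ L)
    (hG : NoCyc G L) : NoCyc G L' := fun k h3 hk => hG k h3 (hk.trans h)

/-- `s` is a neighbour of `w i` outside of the walk -/
private def Hang {V : Type} (G : SimpleGraph V) (w : ℕ → V) (j i : ℕ) (s : V) : Prop :=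
  G.Adj (w i) s ∧ (i < j → s ≠ w (i + 1)) ∧ (0 < i → s ≠ w (i - 1))

private theorem walk_inj {V : Type} {G : SimpleGraph V} {j : ℕ}
    (hG : NoCyc G (j + 1)) (w : ℕ → V)
    (h1 : ∀ i < j, G.Adj (w i) (w (i + 1))) (h2 : ∀ i, i + 2 ≤ j → w (i + 2) ≠ w i)
    {i i' : ℕ} (hi : i ≤ j) (hi' : i' ≤ j) (h : w i = w i') : i = i' :=
  nb_inj G (noCyc_mono (Nat.le_succ j) hG) w h1 h2 i i' hi hi' h

private theorem hang_up {V : Type} {G : SimpleGraph V} {j : ℕ}
    (hG : NoCyc G (j + 1)) (w : ℕ → V)
    (h1 : ∀ i < j, G.Adj (w i) (w (i + 1))) (h2 : ∀ i, i + 2 ≤ j → w (i + 2) ≠ w i)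
    {i i' : ℕ} (hi : i ≤ i') (hi' : i' ≤ j) {s : V} (hs : Hang G w j i s) : s ≠ w i' := by
  intro he
  have key := nb_inj G (noCyc_mono (by omega : i' - i + 1 ≤ j + 1) hG)
    (fun t => if t = 0 then s else w (i + (t - 1))) ?_ ?_ 0 (i' - i + 1) (by omega) le_rfl ?_
  · omega
  · intro t ht
    rcases Nat.eq_zero_or_pos t with rfl | ht0
    · simpa using hs.1.symm
    · simp only [ht0.ne', if_false, Nat.succ_ne_zero]
      have e : i + (t + 1 - 1) = i + (t - 1) + 1 := by omega
      rw [e]
      exact h1 _ (by omega)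
  · intro t ht
    rcases Nat.eq_zero_or_pos t with rfl | ht0
    · simp only [if_true]
      rw [if_neg (by omega)]
      have e : i + (0 + 2 - 1) = i + 1 := by omega
      rw [e]
      exact (hs.2.1 (by omega)).symm
    · rw [if_neg ht0.ne', if_neg (by omega)]
      have e : i + (t + 2 - 1) = i + (t - 1) + 2 := by omega
      rw [e]
      exact h2 _ (by omega)
  · simp only [if_true]
    rw [if_neg (by omega), he]
    congr 1
    omega

private theorem hang_down {V : Type} {G : SimpleGraph V} {j : ℕ}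
    (hG : NoCyc G (j + 1)) (w : ℕ → V)
    (h1 : ∀ i < j, G.Adj (w i) (w (i + 1))) (h2 : ∀ i, i + 2 ≤ j → w (i + 2) ≠ w i)
    {i i' : ℕ} (hi : i ≤ i') (hi' : i' ≤ j) {s : V} (hs : Hang G w j i' s) : s ≠ w i := by
  intro he
  have key := nb_inj G (noCyc_mono (by omega : i' - i + 1 ≤ j + 1) hG)
    (fun t => if t ≤ i' - i then w (i + t) else s) ?_ ?_ 0 (i' - i + 1) (by omega) le_rfl ?_
  · omega
  · intro t ht
    rw [if_pos (by omega)]
    by_cases h : t + 1 ≤ i' - i
    · rw [if_pos h]
      exact h1 _ (by omega)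
    · rw [if_neg h]
      have e : i + t = i' := by omega
      rw [e]
      exact hs.1
  · intro t ht
    have e0 : t ≤ i' - i := by omega
    by_cases h : t + 2 ≤ i' - i
    · rw [if_pos h, if_pos e0]
      exact h2 (i + t) (by omega)
    · rw [if_neg h, if_pos e0]
      have e : i + t = i' - 1 := by omega
      rw [e]
      exact hs.2.2 (by omega)
  · rw [if_pos (by omega), if_neg (by omega), he]
    congr 1

private theorem hang_ne {V : Type} {G : SimpleGraph V} {j : ℕ}
    (hG : NoCyc G (j + 1)) (w : ℕ → V)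
    (h1 : ∀ i < j, G.Adj (w i) (w (i + 1))) (h2 : ∀ i, i + 2 ≤ j → w (i + 2) ≠ w i)
    {i k : ℕ} (hi : i ≤ j) (hk : k ≤ j) {s : V} (hs : Hang G w j i s) : s ≠ w k := by
  rcases le_total i k with h | h
  · exact hang_up hG w h1 h2 h hk hs
  · exact hang_down hG w h1 h2 h hi hs

private theorem hang_hang {V : Type} {G : SimpleGraph V} {j : ℕ}
    (hG : NoCyc G (j + 1)) (w : ℕ → V)
    (h1 : ∀ i < j, G.Adj (w i) (w (i + 1))) (h2 : ∀ i, i + 2 ≤ j → w (i + 2) ≠ w i)
    {i i' : ℕ} (hi : i < i') (hi' : i' ≤ j) (hl : i' - i + 1 ≤ j) {s e : V}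
    (hs : Hang G w j i s) (he : Hang G w j i' e) : s ≠ e := by
  intro hse
  have key := nb_inj G (noCyc_mono (by omega : i' - i + 2 ≤ j + 1) hG)
    (fun t => if t = 0 then s else if t ≤ i' - i + 1 then w (i + (t - 1)) else e) ?_ ?_ 0
    (i' - i + 2) (by omega) le_rfl ?_
  · omega
  · intro t ht
    rcases Nat.eq_zero_or_pos t with rfl | ht0
    · simpa using hs.1.symm
    · rw [if_neg ht0.ne', if_pos (by omega), if_neg (Nat.succ_ne_zero t)]
      by_cases h : t + 1 ≤ i' - i + 1
      · rw [if_pos h]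
        have e : i + (t + 1 - 1) = i + (t - 1) + 1 := by omega
        rw [e]
        exact h1 _ (by omega)
      · rw [if_neg h]
        have e : i + (t - 1) = i' := by omega
        rw [e]
        exact he.1
  · intro t ht
    rcases Nat.eq_zero_or_pos t with rfl | ht0
    · rw [if_neg (by omega), if_pos (by omega), if_pos rfl]
      have e : i + (0 + 2 - 1) = i + 1 := by omega
      rw [e]
      exact (hs.2.1 (by omega)).symm
    · rw [if_neg (by omega), if_neg ht0.ne', if_pos (by omega : t ≤ i' - i + 1)]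
      by_cases h : t + 2 ≤ i' - i + 1
      · rw [if_pos h]
        have e : i + (t + 2 - 1) = i + (t - 1) + 2 := by omega
        rw [e]
        exact h2 _ (by omega)
      · rw [if_neg h]
        have e : i + (t - 1) = i' - 1 := by omega
        rw [e]
        exact he.2.2 (by omega)
  · rw [if_pos rfl, if_neg (by omega), if_neg (by omega)]
    exact hse

/-- the embedding of the caterpillar -/
private theorem no_four {V : Type} {G : SimpleGraph V} {j : ℕ} (hj : 5 ≤ j)
    (hG : NoCyc G (j + 1)) (hB : (BTree j).Free G) (w : ℕ → V)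
    (h1 : ∀ i < j, G.Adj (w i) (w (i + 1))) (h2 : ∀ i, i + 2 ≤ j → w (i + 2) ≠ w i)
    (q : ℕ → V) (hq : ∀ i, 0 < i → i < j → Hang G w j i (q i)) {a a' b b' : V}
    (ha : Hang G w j 0 a) (ha' : Hang G w j 0 a') (hb : Hang G w j j b)
    (hb' : Hang G w j j b') (haa : a ≠ a') (hbb : b ≠ b') (hab : a ≠ b) (hab' : a ≠ b')
    (ha'b : a' ≠ b) (ha'b' : a' ≠ b') : False := by
  apply hB
  -- the two maps
  set fl : ℕ → V := fun k => if k = 0 then a else if k ≤ j + 1 then w (k - 1) else b with hfl
  set fr : ℕ → V := fun k => if k = 0 then a' else if k < j then q k else b' with hfr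
  have fl0 : fl 0 = a := rfl
  have flm : ∀ k, 0 < k → k ≤ j + 1 → fl k = w (k - 1) := by
    intro k hk hk'
    simp only [hfl]
    rw [if_neg hk.ne', if_pos hk']
  have fle : ∀ k, j + 1 < k → fl k = b := by
    intro k hk
    simp only [hfl]
    rw [if_neg (by omega), if_neg (by omega)]
  have fr0 : fr 0 = a' := rfl
  have frm : ∀ k, 0 < k → k < j → fr k = q k := by
    intro k hk hk'
    simp only [hfr]
    rw [if_neg hk.ne', if_pos hk']
  have fre : ∀ k, j ≤ k → fr k = b' := by
    intro k hk
    simp only [hfr]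
    rw [if_neg (by omega), if_neg (by omega)]
  have hfrH : ∀ k, k ≤ j → Hang G w j k (fr k) := by
    intro k hk
    rcases Nat.eq_zero_or_pos k with rfl | hk0
    · exact ha'
    · rcases hk.eq_or_lt with rfl | hk1
      · rw [fre _ le_rfl]
        exact hb'
      · rw [frm k hk0 hk1]
        exact hq k hk0 hk1
  have hll : ∀ k k', k < k' → k' ≤ j + 2 → fl k ≠ fl k' := by
    intro k k' hkk hk'
    rcases Nat.eq_zero_or_pos k with rfl | hk0
    · rw [fl0]
      by_cases h : k' ≤ j + 1
      · rw [flm k' hkk h]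
        exact hang_ne hG w h1 h2 (Nat.zero_le _) (by omega) ha
      · rw [fle k' (by omega)]
        exact hab
    · rw [flm k hk0 (by omega)]
      by_cases h : k' ≤ j + 1
      · rw [flm k' (by omega) h]
        intro h3
        have := walk_inj hG w h1 h2 (by omega) (by omega) h3
        omega
      · rw [fle k' (by omega)]
        exact (hang_ne hG w h1 h2 le_rfl (by omega) hb).symm
  have hrr : ∀ k k', k < k' → k' ≤ j → fr k ≠ fr k' := by
    intro k k' hkk hk'
    by_cases h : k' - k + 1 ≤ j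
    · exact hang_hang hG w h1 h2 hkk hk' h (hfrH k (by omega)) (hfrH k' hk')
    · have e1 : k = 0 := by omega
      have e2 : k' = j := by omega
      rw [e1, e2, fr0, fre j le_rfl]
      exact ha'b'
  have hlr : ∀ k k', k ≤ j + 2 → k' ≤ j → fl k ≠ fr k' := by
    intro k k' hk hk'
    rcases Nat.eq_zero_or_pos k with rfl | hk0
    · rw [fl0]
      rcases Nat.eq_zero_or_pos k' with rfl | hk'0
      · exact haa
      · rcases hk'.eq_or_lt with rfl | hk1
        · rw [fre _ le_rfl]
          exact hab'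
        · exact hang_hang hG w h1 h2 hk'0 hk' (by omega) ha (hfrH k' hk')
    · by_cases h : k ≤ j + 1
      · rw [flm k hk0 h]
        exact (hang_ne hG w h1 h2 hk' (by omega) (hfrH k' hk')).symm
      · rw [fle k (by omega)]
        rcases Nat.eq_zero_or_pos k' with rfl | hk'0
        · exact ha'b.symm
        · rcases hk'.eq_or_lt with rfl | hk1
          · rw [fre _ le_rfl]
            exact hbb
          · exact (hang_hang hG w h1 h2 hk1 le_rfl (by omega) (hfrH k' hk') hb).symm
  have hadj : ∀ x y : Fin (j + 3) ⊕ Fin (j + 1),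
      ((∃ a b : Fin (j + 3), x = Sum.inl a ∧ y = Sum.inl b ∧ (a : ℕ) + 1 = b) ∨
      (∃ (a : Fin (j + 3)) (b : Fin (j + 1)), x = Sum.inl a ∧ y = Sum.inr b ∧ (a : ℕ) = b + 1)) →
      G.Adj (Sum.elim (fun k : Fin (j + 3) => fl k) (fun k : Fin (j + 1) => fr k) x)
        (Sum.elim (fun k : Fin (j + 3) => fl k) (fun k : Fin (j + 1) => fr k) y) := by
    rintro x y (⟨u, v, rfl, rfl, huv⟩ | ⟨u, v, rfl, rfl, huv⟩)
    · show G.Adj (fl u) (fl v)
      have hu := u.2
      have hv := v.2
      rcases Nat.eq_zero_or_pos (u : ℕ) with h0 | h0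
      · rw [h0, fl0, flm v (by omega) (by omega)]
        have e : (v : ℕ) - 1 = 0 := by omega
        rw [e]
        exact ha.1.symm
      · rw [flm u h0 (by omega)]
        by_cases h : (v : ℕ) ≤ j + 1
        · rw [flm v (by omega) h]
          have e : (v : ℕ) - 1 = (u : ℕ) - 1 + 1 := by omega
          rw [e]
          exact h1 _ (by omega)
        · rw [fle v (by omega)]
          have e : (u : ℕ) - 1 = j := by omega
          rw [e]
          exact hb.1
    · show G.Adj (fl u) (fr v)
      have hu := u.2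
      have hv := v.2
      rw [flm u (by omega) (by omega)]
      have e : (u : ℕ) - 1 = v := by omega
      rw [e]
      exact (hfrH v (by omega)).1
  refine ⟨⟨⟨Sum.elim (fun k : Fin (j + 3) => fl k) (fun k : Fin (j + 1) => fr k), ?_⟩, ?_⟩⟩
  · intro x y hxy
    rcases hxy.2 with h | h
    · exact hadj x y h
    · exact (hadj y x h).symm
  · intro x y hxy
    rcases x with x | x <;> rcases y with y | y
    · have hx := x.2
      have hy := y.2
      have h : fl x = fl y := hxy
      rcases lt_trichotomy (x : ℕ) y with h3 | h3 | h3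
      · exact absurd h (hll _ _ h3 (by omega))
      · rw [Fin.ext h3]
      · exact absurd h.symm (hll _ _ h3 (by omega))
    · have hx := x.2
      have hy := y.2
      have h : fl x = fr y := hxy
      exact absurd h (hlr _ _ (by omega) (by omega))
    · have hx := x.2
      have hy := y.2
      have h : fr x = fl y := hxy
      exact absurd h.symm (hlr _ _ (by omega) (by omega))
    · have hx := x.2
      have hy := y.2
      have h : fr x = fr y := hxy
      rcases lt_trichotomy (x : ℕ) y with h3 | h3 | h3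
      · exact absurd h (hrr _ _ h3 (by omega))
      · rw [Fin.ext h3]
      · exact absurd h.symm (hrr _ _ h3 (by omega))

theorem odd_close {V : Type} [Finite V] {G : SimpleGraph V} {j : ℕ} (hj : 5 ≤ j)
    (hG : NoCyc G (j + 1)) (hB : (BTree j).Free G) (w : ℕ → V)
    (h1 : ∀ i < j, G.Adj (w i) (w (i + 1))) (h2 : ∀ i, i + 2 ≤ j → w (i + 2) ≠ w i)
    (h3 : ∀ i ≤ j, 3 ≤ (G.neighborSet (w i)).ncard) :
    ∃ z, (∀ u, G.Adj (w 0) u ∧ G.Adj (w j) u ↔ u = z) ∧ z ≠ w 1 ∧ z ≠ w (j - 1) ∧
      (G.neighborSet (w 0)).ncard = 3 ∧ (G.neighborSet (w j)).ncard = 3 := by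
  classical
  have hq : ∃ q : ℕ → V, ∀ i, 0 < i → i < j → Hang G w j i (q i) := by
    have : ∀ i, ∃ s, 0 < i → i < j → Hang G w j i s := by
      intro i
      by_cases h : 0 < i ∧ i < j
      · obtain ⟨s, hs1, hs2, hs3⟩ := next_of_three (h3 i h.2.le) (w (i + 1)) (w (i - 1))
        exact ⟨s, fun _ _ => ⟨hs3, fun _ => hs1, fun _ => hs2⟩⟩
      · exact ⟨w 0, fun h4 h5 => absurd ⟨h4, h5⟩ h⟩
    choose q hq using this
    exact ⟨q, hq⟩
  obtain ⟨q, hq⟩ := hq
  set A : Set V := G.neighborSet (w 0) \ {w 1} with hA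
  set B : Set V := G.neighborSet (w j) \ {w (j - 1)} with hBd
  have hAH : ∀ a ∈ A, Hang G w j 0 a := fun a ha =>
    ⟨ha.1, fun _ => ha.2, fun h => absurd h (lt_irrefl 0)⟩
  have hBH : ∀ b ∈ B, Hang G w j j b := fun b hb =>
    ⟨hb.1, fun h => absurd h (lt_irrefl j), fun _ => hb.2⟩
  have hfin : ∀ S : Set V, S.Finite := fun S => Set.toFinite S
  have hA1 : A.ncard + 1 = (G.neighborSet (w 0)).ncard := by
    rw [hA]
    exact Set.ncard_sdiff_singleton_add_one (h1 0 (by omega)) (hfin _)
  have hB1 : B.ncard + 1 = (G.neighborSet (w j)).ncard := by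
    rw [hBd]
    refine Set.ncard_sdiff_singleton_add_one ?_ (hfin _)
    have h := h1 (j - 1) (by omega)
    have e : j - 1 + 1 = j := by omega
    rw [e] at h
    exact h.symm
  have hA2 : 1 < A.ncard := by
    have := h3 0 (Nat.zero_le _)
    omega
  have hB2 : 1 < B.ncard := by
    have := h3 j le_rfl
    omega
  have hw0j : w 0 ≠ w j := fun h => by
    have := walk_inj hG w h1 h2 (Nat.zero_le j) le_rfl h
    omega
  -- at most one common neighbour
  have hcommon : ∀ z z', G.Adj (w 0) z → G.Adj (w j) z → G.Adj (w 0) z' → G.Adj (w j) z' →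
      z = z' := by
    intro z z' hz1 hz2 hz3 hz4
    by_contra hne
    have key := nb_inj G (noCyc_mono (by omega : 4 ≤ j + 1) hG)
      (fun t => if t = 0 then w 0 else if t = 1 then z else if t = 2 then w j else
        if t = 3 then z' else w 0) ?_ ?_ 0 4 (by norm_num) le_rfl (by simp)
    · norm_num at key
    · intro i hi
      interval_cases i
      · simpa using hz1
      · simpa using hz2.symm
      · simpa using hz4
      · simpa using hz3.symm
    · intro i hi
      have hi' : i ≤ 2 := by omega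
      interval_cases i
      · simpa using hw0j.symm
      · simpa using Ne.symm hne
      · simpa using hw0j
  have hno : ∀ a ∈ A, ∀ a' ∈ A, ∀ b ∈ B, ∀ b' ∈ B, a ≠ a' → b ≠ b' → a ≠ b → a ≠ b' → a' ≠ b →
      a' ≠ b' → False := fun a ha a' ha' b hb b' hb' e1 e2 e3 e4 e5 e6 =>
    no_four hj hG hB w h1 h2 q hq (hAH a ha) (hAH a' ha') (hBH b hb) (hBH b' hb') e1 e2 e3 e4 e5
      e6
  -- a common element
  obtain ⟨z, hzA, hzB⟩ : ∃ z, z ∈ A ∧ z ∈ B := by
    by_contra hcon
    push Not at hcon
    obtain ⟨a, a', ha, ha', haa⟩ := (Set.one_lt_ncard_iff (hfin _)).1 hA2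
    obtain ⟨b, b', hb, hb', hbb⟩ := (Set.one_lt_ncard_iff (hfin _)).1 hB2
    refine hno a ha a' ha' b hb b' hb' haa hbb ?_ ?_ ?_ ?_
    · intro h
      exact hcon a ha (h ▸ hb)
    · intro h
      exact hcon a ha (h ▸ hb')
    · intro h
      exact hcon a' ha' (h ▸ hb)
    · intro h
      exact hcon a' ha' (h ▸ hb')
  have hAz : ∀ a ∈ A, a ≠ z → a ∉ B := fun a ha haz hb =>
    haz (hcommon a z ha.1 hb.1 hzA.1 hzB.1)
  have hA3 : A.ncard = 2 := by
    by_contra hne
    have h4 : 1 < (A \ {z}).ncard := by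
      have := Set.ncard_sdiff_singleton_add_one hzA (hfin _)
      omega
    obtain ⟨a, a', ha, ha', haa⟩ := (Set.one_lt_ncard_iff (hfin _)).1 h4
    obtain ⟨b, b', hb, hb', hbb⟩ := (Set.one_lt_ncard_iff (hfin _)).1 hB2
    have e1 := hAz a ha.1 ha.2
    have e2 := hAz a' ha'.1 ha'.2
    refine hno a ha.1 a' ha'.1 b hb b' hb' haa hbb ?_ ?_ ?_ ?_
    · intro h
      exact e1 (h ▸ hb)
    · intro h
      exact e1 (h ▸ hb')
    · intro h
      exact e2 (h ▸ hb)
    · intro h
      exact e2 (h ▸ hb')
  have hB3 : B.ncard = 2 := by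
    by_contra hne
    have h4 : 1 < (B \ {z}).ncard := by
      have := Set.ncard_sdiff_singleton_add_one hzB (hfin _)
      omega
    obtain ⟨b, b', hb, hb', hbb⟩ := (Set.one_lt_ncard_iff (hfin _)).1 h4
    obtain ⟨a, a', ha, ha', haa⟩ := (Set.one_lt_ncard_iff (hfin _)).1 hA2
    have e1 : b ∉ A := fun h => hAz b h hb.2 hb.1
    have e2 : b' ∉ A := fun h => hAz b' h hb'.2 hb'.1
    refine hno a ha a' ha' b hb.1 b' hb'.1 haa hbb ?_ ?_ ?_ ?_
    · intro h
      exact e1 (h ▸ ha)
    · intro h
      exact e2 (h ▸ ha)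
    · intro h
      exact e1 (h ▸ ha')
    · intro h
      exact e2 (h ▸ ha')
  refine ⟨z, fun u => ⟨fun hu => hcommon u z hu.1 hu.2 hzA.1 hzB.1, ?_⟩, hzA.2, hzB.2, ?_, ?_⟩
  · rintro rfl
    exact ⟨hzA.1, hzB.1⟩
  · rw [← hA1, hA3]
  · rw [← hB1, hB3]

end Pool.Agent.Work.MP_f63b47_lc.GD
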