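import Pool.Agent.Work.MP_f63b47_lc.GD.OddA

/-!
# GD/OddB (size M): the third neighbour has degree at most two

Let `z` be the common neighbour of `w 0` and `w j`, `u` a neighbour of `w 0` different from `w 1` and `z`, and suppose `u` has degree at least three. The walk
`u, w 0, …, w (j - 1)` satisfies the hypotheses of `odd_close`; let `z'` be the common neighbour of `u` and `w (j - 1)`: `z' ≠ w 0`. The walk
`u, z', w (j - 1), w j, z, w 0, u` is closed, of length `6 ≤ j + 1`, and has no backtracking, against `nb_inj`: `u ≠ w (j - 1)` (walk of length `j`); `z' ≠ w j`: otherwise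
`u, w j, z, w 0, u` is a closed walk without backtracking of length 4 (`u ≠ z`, `w j ≠ w 0`); `w (j - 1) ≠ z`; `w j ≠ w 0`; `z ≠ u`; `w 0 ≠ z'`.
-/

set_option autoImplicit false

namespace Pool.Agent.Work.MP_f63b47_lc.GD

open SimpleGraph Pool.Agent.Work.MP_f63b47_lc

private theorem noCyc_mono {V : Type} {G : SimpleGraph V} {L L' : ℕ} (h : L' ≤ L)
    (hG : NoCyc G L) : NoCyc G L' := fun k h3 hk => hG k h3 (hk.trans h)

theorem odd_third {V : Type} [Finite V] {G : SimpleGraph V} {j : ℕ} (hj : 5 ≤ j)
    (hG : NoCyc G (j + 1)) (hB : (BTree j).Free G) (w : ℕ → V)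
    (h1 : ∀ i < j, G.Adj (w i) (w (i + 1))) (h2 : ∀ i, i + 2 ≤ j → w (i + 2) ≠ w i)
    (h3 : ∀ i ≤ j, 3 ≤ (G.neighborSet (w i)).ncard) {z u : V} (hz : G.Adj (w 0) z)
    (hz' : G.Adj (w j) z) (hu : G.Adj (w 0) u) (hu1 : u ≠ w 1) (huz : u ≠ z) :
    (G.neighborSet u).ncard ≤ 2 := by
  by_contra hcon
  have hu3 : 3 ≤ (G.neighborSet u).ncard := by omega
  have hinj : ∀ i i', i ≤ j → i' ≤ j → w i = w i' → i = i' := fun i i' hi hi' h =>
    nb_inj G (noCyc_mono (Nat.le_succ j) hG) w h1 h2 i i' hi hi' h
  -- the walk starting with `u`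
  have k1 : ∀ i < j + 1, G.Adj ((fun t => if t = 0 then u else w (t - 1)) i)
      ((fun t => if t = 0 then u else w (t - 1)) (i + 1)) := by
    intro i hi
    rcases Nat.eq_zero_or_pos i with rfl | h0
    · simpa using hu.symm
    · show G.Adj (if i = 0 then u else w (i - 1)) (if i + 1 = 0 then u else w (i + 1 - 1))
      rw [if_neg h0.ne', if_neg (by omega)]
      have h4 := h1 (i - 1) (by omega)
      have e : i - 1 + 1 = i + 1 - 1 := by omega
      rwa [e] at h4
  have k2 : ∀ i, i + 2 ≤ j + 1 → (fun t => if t = 0 then u else w (t - 1)) (i + 2) ≠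
      (fun t => if t = 0 then u else w (t - 1)) i := by
    intro i hi
    show (if i + 2 = 0 then u else w (i + 2 - 1)) ≠ (if i = 0 then u else w (i - 1))
    rw [if_neg (by omega)]
    rcases Nat.eq_zero_or_pos i with rfl | h0
    · rw [if_pos rfl]
      exact hu1.symm
    · rw [if_neg h0.ne']
      have h4 := h2 (i - 1) (by omega)
      have e : i - 1 + 2 = i + 2 - 1 := by omega
      rwa [e] at h4
  have hinj' : ∀ i i', i ≤ j + 1 → i' ≤ j + 1 → (fun t => if t = 0 then u else w (t - 1)) i =
      (fun t => if t = 0 then u else w (t - 1)) i' → i = i' := fun i i' hi hi' h =>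
    nb_inj G hG _ k1 k2 i i' hi hi' h
  have huw : ∀ i, i ≤ j → u ≠ w i := by
    intro i hi h
    have h4 := hinj' 0 (i + 1) (by omega) (by omega) (by simpa using h)
    omega
  obtain ⟨z', hz1, hz2, hz3, -, -⟩ := odd_close hj hG hB (fun t => if t = 0 then u else w (t - 1))
    (fun i hi => k1 i (by omega)) (fun i hi => k2 i (by omega)) (by
      intro i hi
      show 3 ≤ (G.neighborSet (if i = 0 then u else w (i - 1))).ncard
      rcases Nat.eq_zero_or_pos i with rfl | h0
      · rw [if_pos rfl]
        exact hu3
      · rw [if_neg h0.ne']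
        exact h3 _ (by omega))
  obtain ⟨hz4, hz5⟩ := (hz1 z').2 rfl
  have hz4' : G.Adj u z' := by simpa using hz4
  have hz5' : G.Adj (w (j - 1)) z' := by
    rwa [if_neg (by omega : ¬ j = 0)] at hz5
  have hz2' : z' ≠ w 0 := by simpa using hz2
  have hw0j : w 0 ≠ w j := fun h => by
    have := hinj 0 j (Nat.zero_le j) le_rfl h
    omega
  have hwj : G.Adj (w (j - 1)) (w j) := by
    have h4 := h1 (j - 1) (by omega)
    have e : j - 1 + 1 = j := by omega
    rwa [e] at h4
  -- `z'` is not `w j`
  have hz'j : z' ≠ w j := by
    intro he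
    rw [he] at hz4'
    have key := nb_inj G (noCyc_mono (by omega : 4 ≤ j + 1) hG)
      (fun t => if t = 0 then u else if t = 1 then w j else if t = 2 then z else
        if t = 3 then w 0 else u) ?_ ?_ 0 4 (by norm_num) le_rfl (by simp)
    · norm_num at key
    · intro i hi
      interval_cases i
      · simpa using hz4'
      · simpa using hz'
      · simpa using hz.symm
      · simpa using hu
    · intro i hi
      have hi' : i ≤ 2 := by omega
      interval_cases i
      · simpa using huz.symm
      · simpa using hw0j
      · simpa using huz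
  -- `z` is not `w (j - 1)`
  have hzj : z ≠ w (j - 1) := by
    intro he
    rw [he] at hz
    have key := nb_inj G (noCyc_mono (by omega : j ≤ j + 1) hG)
      (fun t => if t < j then w t else w 0) ?_ ?_ 0 j (by omega) le_rfl ?_
    · omega
    · intro i hi
      rw [if_pos hi]
      by_cases h : i + 1 < j
      · rw [if_pos h]
        exact h1 i hi
      · rw [if_neg h]
        have e : i = j - 1 := by omega
        rw [e]
        exact hz.symm
    · intro i hi
      have hi' : i < j := by omega
      by_cases h : i + 2 < j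
      · rw [if_pos h, if_pos hi']
        exact h2 i (by omega)
      · rw [if_neg h, if_pos hi']
        intro h5
        have := hinj 0 i (by omega) (by omega) h5
        omega
    · rw [if_pos (by omega), if_neg (lt_irrefl j)]
  have key := nb_inj G (noCyc_mono (by omega : 6 ≤ j + 1) hG)
    (fun t => if t = 0 then u else if t = 1 then z' else if t = 2 then w (j - 1) else
      if t = 3 then w j else if t = 4 then z else if t = 5 then w 0 else u) ?_ ?_ 0 6
      (by norm_num) le_rfl (by simp)
  · norm_num at key
  · intro i hi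
    interval_cases i
    · simpa using hz4'
    · simpa using hz5'.symm
    · simpa using hwj
    · simpa using hz'
    · simpa using hz.symm
    · simpa using hu
  · intro i hi
    have hi' : i ≤ 4 := by omega
    interval_cases i
    · simpa using (huw (j - 1) (by omega)).symm
    · simpa using hz'j.symm
    · simpa using hzj
    · simpa using hw0j
    · simpa using huz

end Pool.Agent.Work.MP_f63b47_lc.GD
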