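import Pool.Agent.Work.MP_f63b47_lc.GD.MDec
import Pool.Agent.Work.MP_f63b47_lc.GD.MPT
import Pool.Agent.Work.MP_f63b47_lc.GD.FreeL
import Pool.Agent.Work.MP_f63b47_lc.Ham

/-!
# GD/PMain (size M): polynomial time from the structure of stable graphs

`inP_hc` with the test `t x && decE x.1 x.2`, `t` from `free_test`. Soundness: `decE_iff` and `hasHamCycle_iff` (file `Ham`) with `F = graphOf n (redE n E)`, `redE_le`. Completeness: `graphOf n E`
has a Hamiltonian cycle, so `3 ≤ n` and there is `C ≤ graphOf n E` with `Two C`, preconnected (`hasHamCycle_iff`). `R = graphOf n (redE n E)` contains `C` (`keep_redE`), is stable (`stab_redE`) and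
contains no member of `L` (it is a subgraph, `redE_le`), so by `h` its degrees are at most two; as `C ≤ R` has all degrees two, `R = C` (`Set.eq_of_subset_of_ncard_le`).
-/

set_option autoImplicit false

namespace Pool.Agent.Work.MP_f63b47_lc.GD

open SimpleGraph Pool.Agent.Work.PolyTime Pool.Agent.Work.MP_f63b47_lc

theorem inP_of_struct (L : List FG)
    (h : ∀ (n : ℕ) (G C : SimpleGraph (Fin n)), (∀ F ∈ L, F.2.Free G) → Stab G → C ≤ G → Two C →
      ∀ v, (G.neighborSet v).ncard ≤ 2) : InP (HC L) := by
  obtain ⟨t, ht, htt⟩ := free_test L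
  refine inP_hc L (fun x => t x && decE x.1 x.2) (PTime.and ht ptime_decE) ?_
  intro n E
  show (t (n, E) && decE n E) = true ↔ _
  rw [Bool.and_eq_true, htt, decE_iff]
  refine and_congr_right fun hfree => ?_
  change ∀ F ∈ L, F.2.Free (graphOf n E) at hfree
  constructor
  · rintro ⟨h3, hT, hP⟩
    haveI : Nonempty (Fin n) := ⟨⟨0, by omega⟩⟩
    exact (hasHamCycle_iff _).mpr ⟨_, redE_le n E, hT, hP⟩
  · intro hH
    have hn3 : 3 ≤ n := by
      obtain ⟨l, h1, h2, -⟩ := hasHamCycle_graphOf.mp hH
      exact h2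
    haveI : Nonempty (Fin n) := ⟨⟨0, by omega⟩⟩
    obtain ⟨C, hC, hT, hP⟩ := (hasHamCycle_iff _).mp hH
    have hCR : C ≤ graphOf n (redE n E) := keep_redE hC hT
    have hdeg := h n (graphOf n (redE n E)) C
      (fun F hF hc => hfree F hF (hc.mono_right (redE_le n E))) (stab_redE n E) hCR hT
    have heq : C = graphOf n (redE n E) := by
      refine le_antisymm hCR ?_
      intro u v huv
      have h1 : C.neighborSet u = (graphOf n (redE n E)).neighborSet u := by
        refine Set.eq_of_subset_of_ncard_le (fun w hw => hCR hw) ?_ (Set.toFinite _)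
        rw [hT u]
        exact hdeg u
      have h2 : v ∈ (graphOf n (redE n E)).neighborSet u := huv
      rw [← h1] at h2
      exact h2
    rw [← heq]
    exact ⟨hn3, hT, hP⟩

end Pool.Agent.Work.MP_f63b47_lc.GD
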