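import Pool.Agent.Work.MP_f63b47_lc.GD.Nest

/-!
# GD/Pos (size M-L): the nested gadget without one vertex of each long path lies in the comb

`pos` is a definition (do not change it). The gadget `nest N k` has the vertex `c = 0` and for each `j < k` a block of `N + 2` vertices `1 + j (N + 2) + t`, `t = 0, …, N + 1`, a path from
the `j`-th vertex `a` (`t = 0`) to the `j`-th vertex `b` (`t = N + 1`). `c` goes to `(0, 0)`, the part of the path before the removed vertex `t = cut j` goes to the tooth of the comb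
in column `-(j + 1)`, the part after it to the tooth in column `j + 1`. All by induction on `k` (for `k + 1`: a vertex less than `(nest N k).r = 1 + k (N + 2)` is old, the others are in the new block).
* `pos_adj`: `(nest N (k + 1)).F = extF (nest N k).F (nest N k).a (nest N k).b N`; old edges: induction; the edge from the old `a` to the vertex `t = 0`: `pos_a`
  for `k` (and `(0, 0)` for `k = 0`) and `(-(k + 1), 0)`; similarly `b`; consecutive vertices of the block are on the same side of the removed vertex.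
* `pos_col`, `pos_col_zero`, `pos_inj`: the columns `± (j + 1)` of different blocks are different and not `0`.
-/

set_option autoImplicit false

namespace Pool.Agent.Work.MP_f63b47_lc.GD

open SimpleGraph Pool.Agent.Work.MP_f63b47_lc

/-- The place of the vertex number `s` of the nested gadget in the comb. -/
def pos (N : ℕ) (cut : ℕ → ℕ) : ℕ → ℕ → ℤ × ℕ
  | 0, _ => (0, 0)
  | k + 1, s => if s < 1 + k * (N + 2) then pos N cut k s else
      if s - (1 + k * (N + 2)) < cut k then (-(k + 1 : ℤ), s - (1 + k * (N + 2)))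
      else ((k + 1 : ℤ), N + 1 - (s - (1 + k * (N + 2))))

/-- The vertex `s` is not removed. -/
def NotCut (N : ℕ) (cut : ℕ → ℕ) (k s : ℕ) : Prop := ∀ j < k, s ≠ 1 + j * (N + 2) + cut j

private theorem pos_old {N : ℕ} {cut : ℕ → ℕ} {k s : ℕ} (h : s < 1 + k * (N + 2)) :
    pos N cut (k + 1) s = pos N cut k s := by
  rw [pos, if_pos h]

private theorem pos_new1 {N : ℕ} {cut : ℕ → ℕ} {k s : ℕ} (h : 1 + k * (N + 2) ≤ s)
    (h2 : s - (1 + k * (N + 2)) < cut k) :
    pos N cut (k + 1) s = (-(k + 1 : ℤ), s - (1 + k * (N + 2))) := by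
  rw [pos, if_neg (by omega), if_pos h2]

private theorem pos_new2 {N : ℕ} {cut : ℕ → ℕ} {k s : ℕ} (h : 1 + k * (N + 2) ≤ s)
    (h2 : cut k ≤ s - (1 + k * (N + 2))) :
    pos N cut (k + 1) s = ((k + 1 : ℤ), N + 1 - (s - (1 + k * (N + 2)))) := by
  rw [pos, if_neg (by omega), if_neg (by omega)]

private theorem blk {N j k : ℕ} (h : j < k) : j * (N + 2) + (N + 2) ≤ k * (N + 2) := by
  have := Nat.mul_le_mul_right (N + 2) h
  calc j * (N + 2) + (N + 2) = (j + 1) * (N + 2) := by ring
    _ ≤ k * (N + 2) := this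

private theorem nc_a {N : ℕ} {cut : ℕ → ℕ} (hc : ∀ j, 1 ≤ cut j ∧ cut j ≤ N) (k : ℕ) :
    NotCut N cut (k + 1) (1 + k * (N + 2)) := by
  intro j hj
  have h1 := hc j
  rcases Nat.lt_succ_iff_lt_or_eq.1 hj with h | h
  · have := blk (N := N) h
    omega
  · subst h
    omega

private theorem nc_b {N : ℕ} {cut : ℕ → ℕ} (hc : ∀ j, 1 ≤ cut j ∧ cut j ≤ N) (k : ℕ) :
    NotCut N cut (k + 1) (1 + k * (N + 2) + N + 1) := by
  intro j hj
  have h1 := hc j
  rcases Nat.lt_succ_iff_lt_or_eq.1 hj with h | h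
  · have := blk (N := N) h
    omega
  · subst h
    omega

private theorem comb_h (i : ℤ) : Comb.Adj (i, 0) (i + 1, 0) := by
  rw [Comb, fromRel_adj]
  refine ⟨?_, Or.inl (Or.inl ⟨rfl, rfl, rfl⟩)⟩
  intro h
  have := congrArg Prod.fst h
  simp at this

private theorem comb_v (i : ℤ) (n : ℕ) : Comb.Adj (i, n) (i, n + 1) := by
  rw [Comb, fromRel_adj]
  refine ⟨?_, Or.inl (Or.inr ⟨rfl, rfl⟩)⟩
  intro h
  have := congrArg Prod.snd h
  simp at this

private theorem nc_le {N : ℕ} {cut : ℕ → ℕ} {k s : ℕ} (h : NotCut N cut (k + 1) s) :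
    NotCut N cut k s := fun j hj => h j (by omega)

theorem pos_zero (N : ℕ) (cut : ℕ → ℕ) (k : ℕ) : pos N cut k 0 = (0, 0) := by
  induction k with
  | zero => rfl
  | succ k ih => rw [pos_old (by omega), ih]

theorem pos_a {N : ℕ} {cut : ℕ → ℕ} (hc : ∀ j, 1 ≤ cut j ∧ cut j ≤ N) (k : ℕ) :
    pos N cut k (nest N k).a = (-(k : ℤ), 0) ∧ NotCut N cut k (nest N k).a := by
  rcases k with _ | k
  · exact ⟨by simp [pos], fun j hj => absurd hj (by omega)⟩
  · rw [nest_a, nest_r]
    refine ⟨?_, nc_a hc k⟩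
    rw [pos_new1 le_rfl (by have := hc k; omega)]
    simp

theorem pos_b {N : ℕ} {cut : ℕ → ℕ} (hc : ∀ j, 1 ≤ cut j ∧ cut j ≤ N) (k : ℕ) :
    pos N cut k (nest N k).b = ((k : ℤ), 0) ∧ NotCut N cut k (nest N k).b := by
  rcases k with _ | k
  · exact ⟨by simp [pos], fun j hj => absurd hj (by omega)⟩
  · rw [nest_b, nest_r]
    refine ⟨?_, nc_b hc k⟩
    rw [pos_new2 (by omega) (by have := hc k; omega)]
    refine Prod.ext ?_ ?_
    · simp
    · simp only
      omega

theorem pos_col {N : ℕ} {cut : ℕ → ℕ} (k s : ℕ) : |(pos N cut k s).1| ≤ (k : ℤ) := by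
  induction k with
  | zero => simp [pos]
  | succ k ih =>
    rcases Nat.lt_or_ge s (1 + k * (N + 2)) with h | h
    · rw [pos_old h]
      push_cast
      linarith
    · rcases Nat.lt_or_ge (s - (1 + k * (N + 2))) (cut k) with h2 | h2
      · rw [pos_new1 h h2]
        simp only [abs_neg]
        push_cast
        rw [abs_of_nonneg (by positivity)]
      · rw [pos_new2 h h2]
        simp only
        push_cast
        rw [abs_of_nonneg (by positivity)]

theorem pos_col_zero {N : ℕ} {cut : ℕ → ℕ} {k s : ℕ} (hs : s < 1 + k * (N + 2))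
    (h : (pos N cut k s).1 = 0) : s = 0 := by
  induction k with
  | zero => omega
  | succ k ih =>
    rcases Nat.lt_or_ge s (1 + k * (N + 2)) with h1 | h1
    · rw [pos_old h1] at h
      exact ih h1 h
    · exfalso
      rcases Nat.lt_or_ge (s - (1 + k * (N + 2))) (cut k) with h2 | h2
      · rw [pos_new1 h1 h2] at h
        simp only at h
        omega
      · rw [pos_new2 h1 h2] at h
        simp only at h
        omega

private theorem pos_adj_aux {N : ℕ} {cut : ℕ → ℕ} (hc : ∀ j, 1 ≤ cut j ∧ cut j ≤ N) {k : ℕ}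
    (ih : ∀ {s t : ℕ} (hs : s < (nest N k).r) (ht : t < (nest N k).r)
      (_ : (nest N k).F.Adj ⟨s, hs⟩ ⟨t, ht⟩)
      (_ : NotCut N cut k s) (_ : NotCut N cut k t), Comb.Adj (pos N cut k s) (pos N cut k t))
    {s t : ℕ} (ht : t < (nest N (k + 1)).r)
    (h : (∃ (hu : s < (nest N k).r) (hv : t < (nest N k).r), (nest N k).F.Adj ⟨s, hu⟩ ⟨t, hv⟩) ∨
      (s = ((nest N k).a : ℕ) ∧ t = (nest N k).r) ∨
      (s = ((nest N k).b : ℕ) ∧ t = (nest N k).r + N + 1) ∨
      ((nest N k).r ≤ s ∧ t = s + 1))
    (h1 : NotCut N cut (k + 1) s) (h2 : NotCut N cut (k + 1) t) :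
    Comb.Adj (pos N cut (k + 1) s) (pos N cut (k + 1) t) := by
  rcases h with ⟨hu, hv, h⟩ | ⟨h3, h4⟩ | ⟨h3, h4⟩ | ⟨h3, h4⟩
  · have hu2 := hu
    have hv2 := hv
    rw [nest_r] at hu2 hv2
    rw [pos_old hu2, pos_old hv2]
    exact ih hu hv h (nc_le h1) (nc_le h2)
  · subst h3
    have h5 : ((nest N k).a : ℕ) < 1 + k * (N + 2) := (nest_r N k) ▸ (nest N k).a.2
    rw [nest_r] at h4
    rw [pos_old h5, (pos_a hc k).1, h4, pos_new1 le_rfl (by have := hc k; omega)]
    have h6 := (comb_h (-((k : ℤ) + 1))).symm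
    have h7 : -((k : ℤ) + 1) + 1 = -(k : ℤ) := by ring
    rw [h7] at h6
    rw [Nat.sub_self]
    exact h6
  · subst h3
    have h5 : ((nest N k).b : ℕ) < 1 + k * (N + 2) := (nest_r N k) ▸ (nest N k).b.2
    rw [nest_r] at h4
    rw [pos_old h5, (pos_b hc k).1, h4, pos_new2 (by omega) (by have := hc k; omega)]
    have h6 := comb_h (k : ℤ)
    have h7 : N + 1 - (1 + k * (N + 2) + N + 1 - (1 + k * (N + 2))) = 0 := by omega
    rw [h7]
    exact h6
  · rw [nest_r] at h3 ht
    subst h4
    have h5 : s + 1 < 1 + k * (N + 2) + (N + 2) := by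
      have : 1 + (k + 1) * (N + 2) = 1 + k * (N + 2) + (N + 2) := by ring
      omega
    have h6 := h1 k (by omega)
    have h7 := h2 k (by omega)
    rcases Nat.lt_or_ge (s - (1 + k * (N + 2))) (cut k) with h8 | h8
    · rw [pos_new1 h3 h8, pos_new1 (by omega) (by omega)]
      have h9 := comb_v (-(k + 1 : ℤ)) (s - (1 + k * (N + 2)))
      have h10 : s + 1 - (1 + k * (N + 2)) = s - (1 + k * (N + 2)) + 1 := by omega
      rw [h10]
      exact h9
    · rw [pos_new2 h3 h8, pos_new2 (by omega) (by omega)]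
      have h9 := (comb_v (k + 1 : ℤ) (N + 1 - (s + 1 - (1 + k * (N + 2))))).symm
      have h10 : N + 1 - (s + 1 - (1 + k * (N + 2))) + 1 = N + 1 - (s - (1 + k * (N + 2))) := by
        omega
      rw [h10] at h9
      exact h9

theorem pos_adj {N : ℕ} {cut : ℕ → ℕ} (hc : ∀ j, 1 ≤ cut j ∧ cut j ≤ N) {k s t : ℕ}
    (hs : s < (nest N k).r) (ht : t < (nest N k).r) (h : (nest N k).F.Adj ⟨s, hs⟩ ⟨t, ht⟩)
    (h1 : NotCut N cut k s) (h2 : NotCut N cut k t) :
    Comb.Adj (pos N cut k s) (pos N cut k t) := by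
  induction k generalizing s t with
  | zero => exact False.elim h
  | succ k ih =>
    have h3 : (extF (nest N k).F (nest N k).a (nest N k).b N).Adj ⟨s, hs⟩ ⟨t, ht⟩ := h
    rw [extF, fromRel_adj] at h3
    rcases h3.2 with h4 | h4
    · exact pos_adj_aux hc ih ht h4 h1 h2
    · exact (pos_adj_aux hc ih hs h4 h2 h1).symm

theorem pos_inj {N : ℕ} {cut : ℕ → ℕ} (hc : ∀ j, 1 ≤ cut j ∧ cut j ≤ N) {k s t : ℕ}
    (hs : s < 1 + k * (N + 2)) (ht : t < 1 + k * (N + 2)) (h1 : NotCut N cut k s)
    (h2 : NotCut N cut k t) (h : pos N cut k s = pos N cut k t) : s = t := by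
  induction k generalizing s t with
  | zero => omega
  | succ k ih =>
    have e1 : 1 + (k + 1) * (N + 2) = 1 + k * (N + 2) + (N + 2) := by ring
    have key : ∀ {u v : ℕ}, u < 1 + k * (N + 2) → 1 + k * (N + 2) ≤ v →
        pos N cut (k + 1) u ≠ pos N cut (k + 1) v := by
      intro u v hu hv he
      rw [pos_old hu] at he
      have h3 := pos_col (N := N) (cut := cut) k u
      rcases Nat.lt_or_ge (v - (1 + k * (N + 2))) (cut k) with h4 | h4
      · rw [pos_new1 hv h4] at he
        rw [he] at h3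
        simp only [abs_neg] at h3
        rw [abs_of_nonneg (by positivity)] at h3
        omega
      · rw [pos_new2 hv h4] at he
        rw [he] at h3
        simp only at h3
        rw [abs_of_nonneg (by positivity)] at h3
        omega
    rcases Nat.lt_or_ge s (1 + k * (N + 2)) with h3 | h3
    · rcases Nat.lt_or_ge t (1 + k * (N + 2)) with h4 | h4
      · rw [pos_old h3, pos_old h4] at h
        exact ih h3 h4 (nc_le h1) (nc_le h2) h
      · exact absurd h (key h3 h4)
    · rcases Nat.lt_or_ge t (1 + k * (N + 2)) with h4 | h4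
      · exact absurd h.symm (key h4 h3)
      · rcases Nat.lt_or_ge (s - (1 + k * (N + 2))) (cut k) with h5 | h5
        · rcases Nat.lt_or_ge (t - (1 + k * (N + 2))) (cut k) with h6 | h6
          · rw [pos_new1 h3 h5, pos_new1 h4 h6] at h
            have := congrArg Prod.snd h
            simp only at this
            omega
          · rw [pos_new1 h3 h5, pos_new2 h4 h6] at h
            have := congrArg Prod.fst h
            simp only at this
            omega
        · rcases Nat.lt_or_ge (t - (1 + k * (N + 2))) (cut k) with h6 | h6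
          · rw [pos_new2 h3 h5, pos_new1 h4 h6] at h
            have := congrArg Prod.fst h
            simp only at this
            omega
          · rw [pos_new2 h3 h5, pos_new2 h4 h6] at h
            have := congrArg Prod.snd h
            simp only at this
            omega

end Pool.Agent.Work.MP_f63b47_lc.GD
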