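import Pool.Agent.Work.MP_f63b47_lc.GD.Pos

/-!
# GD/SunMap (size M-L): small subgraphs of the suns with a nested gadget lie in the suns of a (2 k + 8)-gon

Let `f` be the injection of the vertices of `F` (there are `q < N`). For every copy `x` of the sun and every `j < k` some vertex `(x, 0, 1 + j (N + 2) + t)` with `1 ≤ t ≤ N` is not in the image of `f`
(there are `N > q` of them): `cut x j = t` (for `j ≥ k` put `cut x j = 1`). Let `m = 2 k + 8`. Map `(x, 0, s)` with `s < (nest N k).r` to `(x, (pos s).1, (pos s).2)` (the first coordinate of `pos` as an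
element of `ZMod m`), `(x, 0, s)` with `s ≥ r` to `(x, 0, s - r + 1)`, and `(x, p, s)` with `p = 1, …, 7` to `(x, k + p, s)`. The columns `-k, …, k, k + 1, …, k + 7` are different in `ZMod m`, and
`k + 7 + 1 = -k`. Vertices in the image of `f` are not removed, so on them the map is injective (`pos_inj`, `pos_col`, `pos_col_zero`) and respects adjacency (`pos_adj`; a `Comb`-edge
goes to an edge of `MSuns m`; the edges between gadgets: `b` of the gadget `0` is at `(k, 0)`, `a` at `(-k, 0)`; the gadgets `1, …, 7` have one vertex; the attached path of the gadget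
`0` starts at `c = 0`, which is at `(0, 0)`).
-/

set_option autoImplicit false

namespace Pool.Agent.Work.MP_f63b47_lc.GD

open SimpleGraph Pool.Agent.Work.MP_f63b47_lc

private theorem ms_v (m x : ℕ) (c : ZMod m) (n : ℕ) : (MSuns m).Adj (x, c, n) (x, c, n + 1) := by
  rw [MSuns, fromRel_adj]
  refine ⟨?_, Or.inl ⟨rfl, Or.inr ⟨rfl, rfl⟩⟩⟩
  intro h
  have h1 := congrArg (fun z : ℕ × ZMod m × ℕ => z.2.2) h
  simp at h1

private theorem ms_h {m : ℕ} (hm : 1 < m) (x : ℕ) (c d : ZMod m) (h : d = c + 1) :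
    (MSuns m).Adj (x, c, 0) (x, d, 0) := by
  subst h
  rw [MSuns, fromRel_adj]
  refine ⟨?_, Or.inl ⟨rfl, Or.inl ⟨rfl, rfl, rfl⟩⟩⟩
  intro h
  have h1 := congrArg (fun z : ℕ × ZMod m × ℕ => z.2.1) h
  haveI : Fact (1 < m) := ⟨hm⟩
  simp at h1

private theorem comb_ms {m : ℕ} (hm : 1 < m) (x : ℕ) {u v : ℤ × ℕ} (h : Comb.Adj u v) :
    (MSuns m).Adj (x, (u.1 : ZMod m), u.2) (x, (v.1 : ZMod m), v.2) := by
  have key : ∀ u v : ℤ × ℕ, ((u.2 = 0 ∧ v.2 = 0 ∧ v.1 = u.1 + 1) ∨ (u.1 = v.1 ∧ v.2 = u.2 + 1)) →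
      (MSuns m).Adj (x, (u.1 : ZMod m), u.2) (x, (v.1 : ZMod m), v.2) := by
    rintro ⟨a, b⟩ ⟨c, d⟩ (⟨h1, h2, h3⟩ | ⟨h1, h2⟩)
    · simp only at h1 h2 h3
      subst h1 h2 h3
      exact ms_h hm x _ _ (by push_cast; rfl)
    · simp only at h1 h2
      subst h1 h2
      exact ms_v m x _ _
  rw [Comb, fromRel_adj] at h
  rcases h.2 with h | h
  · exact key u v h
  · exact (key v u h).symm

/-- The place of a vertex of the sun in the sun of the larger cycle. -/
private def phi (k N : ℕ) (cut : ℕ → ℕ) (p : Fin 8) (s : ℕ) : ℤ × ℕ :=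
  if p = 0 then (if s < 1 + k * (N + 2) then pos N cut k s else (0, s - (1 + k * (N + 2)) + 1))
  else ((k : ℤ) + (p : ℕ), s)

private theorem phi_zero1 {k N : ℕ} {cut : ℕ → ℕ} {s : ℕ} (h : s < 1 + k * (N + 2)) :
    phi k N cut 0 s = pos N cut k s := by
  rw [phi, if_pos rfl, if_pos h]

private theorem phi_zero2 {k N : ℕ} {cut : ℕ → ℕ} {s : ℕ} (h : 1 + k * (N + 2) ≤ s) :
    phi k N cut 0 s = (0, s - (1 + k * (N + 2)) + 1) := by
  rw [phi, if_pos rfl, if_neg (by omega)]

private theorem phi_pos {k N : ℕ} {cut : ℕ → ℕ} {p : Fin 8} {s : ℕ} (h : p ≠ 0) :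
    phi k N cut p s = ((k : ℤ) + (p : ℕ), s) := by
  rw [phi, if_neg h]

private theorem phi_col0 {k N : ℕ} {cut : ℕ → ℕ} (s : ℕ) :
    -(k : ℤ) ≤ (phi k N cut 0 s).1 ∧ (phi k N cut 0 s).1 ≤ k := by
  rcases Nat.lt_or_ge s (1 + k * (N + 2)) with h | h
  · rw [phi_zero1 h]
    exact abs_le.1 (pos_col k s)
  · rw [phi_zero2 h]
    simp

private theorem phi_col {k N : ℕ} {cut : ℕ → ℕ} (p : Fin 8) (s : ℕ) :
    -(k : ℤ) ≤ (phi k N cut p s).1 ∧ (phi k N cut p s).1 ≤ k + 7 := by
  by_cases h : p = 0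
  · subst h
    have := phi_col0 (k := k) (N := N) (cut := cut) s
    omega
  · rw [phi_pos h]
    have := p.2
    simp only
    omega

private theorem phi_inj {k N : ℕ} {cut : ℕ → ℕ} (hc : ∀ j, 1 ≤ cut j ∧ cut j ≤ N) {p q : Fin 8}
    {s t : ℕ} (h1 : p = 0 → NotCut N cut k s) (h2 : q = 0 → NotCut N cut k t)
    (h : phi k N cut p s = phi k N cut q t) : p = q ∧ s = t := by
  by_cases hp : p = 0
  · by_cases hq : q = 0
    · subst hp hq
      refine ⟨rfl, ?_⟩
      rcases Nat.lt_or_ge s (1 + k * (N + 2)) with h3 | h3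
      · rcases Nat.lt_or_ge t (1 + k * (N + 2)) with h4 | h4
        · rw [phi_zero1 h3, phi_zero1 h4] at h
          exact pos_inj hc h3 h4 (h1 rfl) (h2 rfl) h
        · rw [phi_zero1 h3, phi_zero2 h4] at h
          have h5 := pos_col_zero h3 (by rw [h])
          subst h5
          rw [pos_zero] at h
          have := congrArg Prod.snd h
          simp only at this
          omega
      · rcases Nat.lt_or_ge t (1 + k * (N + 2)) with h4 | h4
        · rw [phi_zero2 h3, phi_zero1 h4] at h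
          have h5 := pos_col_zero h4 (by rw [← h])
          subst h5
          rw [pos_zero] at h
          have := congrArg Prod.snd h
          simp only at this
          omega
        · rw [phi_zero2 h3, phi_zero2 h4] at h
          have := congrArg Prod.snd h
          simp only at this
          omega
    · exfalso
      subst hp
      have h3 := phi_col0 (k := k) (N := N) (cut := cut) s
      rw [h, phi_pos hq] at h3
      have : (q : ℕ) ≠ 0 := fun h => hq (Fin.ext h)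
      simp only at h3
      omega
  · by_cases hq : q = 0
    · exfalso
      subst hq
      have h3 := phi_col0 (k := k) (N := N) (cut := cut) t
      rw [← h, phi_pos hp] at h3
      have : (p : ℕ) ≠ 0 := fun h => hp (Fin.ext h)
      simp only at h3
      omega
    · rw [phi_pos hp, phi_pos hq] at h
      have h3 := congrArg Prod.fst h
      have h4 := congrArg Prod.snd h
      simp only at h3 h4
      exact ⟨Fin.ext (by omega), h4⟩

/-- The gadgets. -/
private def gd (N k : ℕ) (p : Fin 8) : Gadget := if p = 0 then nest N k else oneGadget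

private theorem gd0 (N k : ℕ) : gd N k 0 = nest N k := rfl

private theorem gd1 (N k : ℕ) {p : Fin 8} (h : p ≠ 0) : gd N k p = oneGadget := by
  rw [gd, if_neg h]

private theorem gd_b0 (N k : ℕ) {p : Fin 8} (h : p ≠ 0) : ((gd N k p).b : ℕ) = 0 := by
  rw [gd1 N k h]
  rfl

private theorem gd_a0 (N k : ℕ) {p : Fin 8} (h : p ≠ 0) : ((gd N k p).a : ℕ) = 0 := by
  rw [gd1 N k h]
  rfl

private theorem eq7 : ∀ p : Fin 8, p + 1 = 0 → p = 7 := by decide

private theorem val1 : ∀ p : Fin 8, p + 1 ≠ 0 → ((p + 1 : Fin 8) : ℕ) = p + 1 := by decide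

private theorem phi_b {k N : ℕ} {cut : ℕ → ℕ} (hc : ∀ j, 1 ≤ cut j ∧ cut j ≤ N) (p : Fin 8) :
    phi k N cut p (gd N k p).b = ((k : ℤ) + (p : ℕ), 0) := by
  by_cases h : p = 0
  · subst h
    rw [gd0, phi_zero1 ((nest_r N k) ▸ (nest N k).b.2), (pos_b hc k).1]
    simp
  · rw [phi_pos h, gd_b0 N k h]

private theorem phi_a {k N : ℕ} {cut : ℕ → ℕ} (hc : ∀ j, 1 ≤ cut j ∧ cut j ≤ N) (p : Fin 8) :
    phi k N cut p (gd N k p).a = (if p = 0 then (-(k : ℤ), 0) else ((k : ℤ) + (p : ℕ), 0)) := by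
  by_cases h : p = 0
  · subst h
    rw [gd0, phi_zero1 ((nest_r N k) ▸ (nest N k).a.2), (pos_a hc k).1, if_pos rfl]
  · rw [phi_pos h, if_neg h, gd_a0 N k h]

private theorem oct_adj {k N : ℕ} {cut : ℕ → ℕ} (hc : ∀ j, 1 ≤ cut j ∧ cut j ≤ N) (x : ℕ)
    {p q : Fin 8} {s t : ℕ} (h : OctE (gd N k) p s q t) :
    (MSuns (2 * k + 8)).Adj
      (x, ((phi k N cut p s).1 : ZMod (2 * k + 8)), (phi k N cut p s).2)
      (x, ((phi k N cut q t).1 : ZMod (2 * k + 8)), (phi k N cut q t).2) := by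
  obtain ⟨h1, h2, h3⟩ := h
  rw [h2, h3, phi_b hc, phi_a hc]
  by_cases h4 : q = 0
  · rw [if_pos h4]
    have h5 : p = 7 := by
      rw [h1] at h4
      exact eq7 p h4
    subst h5
    refine ms_h (by omega) x _ _ ?_
    have h6 : (((2 * k + 8 : ℕ) : ℤ) : ZMod (2 * k + 8)) = 0 := by
      rw [Int.cast_natCast]
      exact ZMod.natCast_self _
    have h7 : (-(k : ℤ)) + ((2 * k + 8 : ℕ) : ℤ) = ((k : ℤ) + ((7 : Fin 8) : ℕ)) + 1 := by
      push_cast
      have : (((7 : Fin 8) : ℕ) : ℤ) = 7 := rfl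
      rw [this]
      ring
    have h8 := congrArg (fun z : ℤ => (z : ZMod (2 * k + 8))) h7
    simp only [Int.cast_add (-(k : ℤ)) _, h6, add_zero] at h8
    rw [h8]
    push_cast
    rfl
  · rw [if_neg h4]
    refine ms_h (by omega) x _ _ ?_
    have h5 : (q : ℕ) = p + 1 := by
      subst h1
      exact val1 p h4
    rw [h5]
    push_cast
    ring

private theorem ray_adj {k N : ℕ} {cut : ℕ → ℕ} (hc : ∀ j, 1 ≤ cut j ∧ cut j ≤ N) (x : ℕ)
    {p : Fin 8} {s t : ℕ} (h1 : p = 0 → NotCut N cut k s) (h2 : p = 0 → NotCut N cut k t)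
    (h : (gd N k p).Ray.Adj s t) :
    (MSuns (2 * k + 8)).Adj
      (x, ((phi k N cut p s).1 : ZMod (2 * k + 8)), (phi k N cut p s).2)
      (x, ((phi k N cut p t).1 : ZMod (2 * k + 8)), (phi k N cut p t).2) := by
  by_cases hp : p = 0
  · subst hp
    rw [gd0] at h
    have hr := nest_r N k
    have hcc : ∀ t, t = (nest N k).r → (MSuns (2 * k + 8)).Adj
        (x, ((phi k N cut 0 0).1 : ZMod (2 * k + 8)), (phi k N cut 0 0).2)
        (x, ((phi k N cut 0 t).1 : ZMod (2 * k + 8)), (phi k N cut 0 t).2) := by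
      intro t ht
      rw [ht, hr, phi_zero1 (by omega), phi_zero2 le_rfl, pos_zero, Nat.sub_self]
      exact ms_v _ x _ 0
    have hrr : ∀ s, (nest N k).r ≤ s → (MSuns (2 * k + 8)).Adj
        (x, ((phi k N cut 0 s).1 : ZMod (2 * k + 8)), (phi k N cut 0 s).2)
        (x, ((phi k N cut 0 (s + 1)).1 : ZMod (2 * k + 8)), (phi k N cut 0 (s + 1)).2) := by
      intro s hs
      rw [hr] at hs
      rw [phi_zero2 hs, phi_zero2 (by omega)]
      have : s + 1 - (1 + k * (N + 2)) = s - (1 + k * (N + 2)) + 1 := by omega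
      rw [this]
      exact ms_v _ x _ _
    rcases h with ⟨hs, ht, h⟩ | ⟨h3, h4⟩ | ⟨h3, h4⟩ | ⟨h3, h4⟩ | ⟨h3, h4⟩
    · have := comb_ms (m := 2 * k + 8) (by omega) x (pos_adj hc hs ht h (h1 rfl) (h2 rfl))
      rw [phi_zero1 (by omega), phi_zero1 (by omega)]
      exact this
    · rw [nest_c] at h3
      rw [h3]
      exact hcc t h4
    · rw [nest_c] at h3
      rw [h3]
      exact (hcc s h4).symm
    · rw [h4]
      exact hrr s h3
    · rw [h4]
      exact (hrr t h3).symm
  · rw [gd1 N k hp] at h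
    rw [phi_pos hp, phi_pos hp]
    have h3 : t = s + 1 ∨ s = t + 1 := by
      rcases h with ⟨hs, ht, h⟩ | ⟨h3, h4⟩ | ⟨h3, h4⟩ | ⟨h3, h4⟩ | ⟨h3, h4⟩
      · exact False.elim h
      · simp [oneGadget] at h3 h4
        omega
      · simp [oneGadget] at h3 h4
        omega
      · exact Or.inl h4
      · exact Or.inr h4
    rcases h3 with rfl | rfl
    · exact ms_v _ x _ _
    · exact (ms_v _ x _ _).symm

private theorem exists_cut {q N : ℕ} (hq : q < N) (f : Fin q → ℕ × Fin 8 × ℕ)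
    (x j : ℕ) : ∃ t, (1 ≤ t ∧ t ≤ N) ∧ ∀ i, f i ≠ (x, 0, 1 + j * (N + 2) + t) := by
  by_contra hcon
  push Not at hcon
  have h1 : ∀ t : Fin N, ∃ i, f i = (x, 0, 1 + j * (N + 2) + (t + 1)) := fun t =>
    hcon (t + 1) ⟨by omega, by have := t.2; omega⟩
  choose e he using h1
  have h2 : Function.Injective e := by
    intro a b hab
    have h3 := he a
    rw [hab, he b] at h3
    have h4 := congrArg (fun z : ℕ × Fin 8 × ℕ => z.2.2) h3
    simp only at h4
    exact Fin.ext (by omega)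
  have h3 := Fintype.card_le_of_injective e h2
  rw [Fintype.card_fin, Fintype.card_fin] at h3
  omega

theorem gsuns_msuns {k N q : ℕ} (hq : q < N) (F : SimpleGraph (Fin q))
    (h : F ⊑ GSuns fun p => if p = 0 then nest N k else oneGadget) : F ⊑ MSuns (2 * k + 8) := by
  obtain ⟨f⟩ := h
  have h0 := exists_cut hq (fun i => f i)
  choose cut hcut hf using h0
  have hnc : ∀ i, (f i).2.1 = 0 → NotCut N (cut (f i).1) k (f i).2.2 := by
    intro i hi j _ h
    refine hf (f i).1 j i (Prod.ext rfl (Prod.ext hi h))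
  refine ⟨⟨⟨fun i => ((f i).1, ((phi k N (cut (f i).1) (f i).2.1 (f i).2.2).1 : ZMod (2 * k + 8)),
    (phi k N (cut (f i).1) (f i).2.1 (f i).2.2).2), ?_⟩, ?_⟩⟩
  · intro i j hij
    have h1 : (GSuns (gd N k)).Adj (f i) (f j) := f.toHom.map_adj hij
    obtain ⟨h2, h3⟩ := h1
    change (MSuns (2 * k + 8)).Adj
      ((f i).1, ((phi k N (cut (f i).1) (f i).2.1 (f i).2.2).1 : ZMod (2 * k + 8)),
        (phi k N (cut (f i).1) (f i).2.1 (f i).2.2).2)
      ((f j).1, ((phi k N (cut (f j).1) (f j).2.1 (f j).2.2).1 : ZMod (2 * k + 8)),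
        (phi k N (cut (f j).1) (f j).2.1 (f j).2.2).2)
    rw [← h2]
    have hj := hnc j
    rw [← h2] at hj
    rcases h3 with h3 | h3 | ⟨h3, h4⟩
    · exact oct_adj (hcut _) _ h3
    · exact (oct_adj (hcut _) _ h3).symm
    · rw [← h3] at hj ⊢
      exact ray_adj (hcut _) _ (hnc i) hj h4
  · intro i j hij
    have h1 := congrArg (fun z : ℕ × ZMod (2 * k + 8) × ℕ => z.1) hij
    have h2 := congrArg (fun z : ℕ × ZMod (2 * k + 8) × ℕ => z.2.1) hij
    have h3 := congrArg (fun z : ℕ × ZMod (2 * k + 8) × ℕ => z.2.2) hij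
    change (f i).1 = (f j).1 at h1
    change ((phi k N (cut (f i).1) (f i).2.1 (f i).2.2).1 : ZMod (2 * k + 8)) =
      ((phi k N (cut (f j).1) (f j).2.1 (f j).2.2).1 : ZMod (2 * k + 8)) at h2
    change (phi k N (cut (f i).1) (f i).2.1 (f i).2.2).2 =
      (phi k N (cut (f j).1) (f j).2.1 (f j).2.2).2 at h3
    have hj := hnc j
    rw [← h1] at h2 h3 hj
    have h4 : (phi k N (cut (f i).1) (f i).2.1 (f i).2.2).1 =
        (phi k N (cut (f i).1) (f j).2.1 (f j).2.2).1 := by
      have h5 := phi_col (k := k) (N := N) (cut := cut (f i).1) (f i).2.1 (f i).2.2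
      have h6 := phi_col (k := k) (N := N) (cut := cut (f i).1) (f j).2.1 (f j).2.2
      rw [ZMod.intCast_eq_intCast_iff] at h2
      have h7 := h2.dvd
      have h8 := Int.eq_zero_of_abs_lt_dvd h7 (by rw [abs_lt]; push_cast; omega)
      omega
    have h5 := phi_inj (hcut (f i).1) (hnc i) hj (Prod.ext h4 h3)
    have h6 : f i = f j := Prod.ext h1 (Prod.ext h5.1 h5.2)
    exact f.injective h6

end Pool.Agent.Work.MP_f63b47_lc.GD
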